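import Mathlib

set_option autoImplicit false

namespace Pool.Agent.Y389.RT

theorem transGen_insert {V : Type*} {H K : V → V → Prop} {u v : V}
    (hK : ∀ a b, K a b → H a b ∨ (a = u ∧ b = v)) {x y : V}
    (h : Relation.TransGen K x y) :
    Relation.TransGen H x y ∨ (Relation.ReflTransGen H x u ∧ Relation.ReflTransGen H v y) := by
  induction h with
  | single h =>
    rcases hK _ _ h with h | ⟨rfl, rfl⟩
    · exact Or.inl (Relation.TransGen.single h)
    · exact Or.inr ⟨Relation.ReflTransGen.refl, Relation.ReflTransGen.refl⟩
  | tail _ h ih =>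
    rcases ih with ih | ⟨ih1, ih2⟩
    · rcases hK _ _ h with h | ⟨rfl, rfl⟩
      · exact Or.inl (ih.tail h)
      · exact Or.inr ⟨ih.to_reflTransGen, Relation.ReflTransGen.refl⟩
    · rcases hK _ _ h with h | ⟨rfl, rfl⟩
      · exact Or.inr ⟨ih1, ih2.tail h⟩
      · exact Or.inr ⟨ih1, Relation.ReflTransGen.refl⟩

theorem chain_reach {V : Type*} {H : V → V → Prop} :
    ∀ (p : List V) (hp : p ≠ []), p.IsChain H → ∀ x ∈ p,
      Relation.ReflTransGen H x (p.getLast hp) := by
  intro p
  induction p with
  | nil => intro hp; exact absurd rfl hp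
  | cons a t ih =>
    intro hp hc x hx
    cases t with
    | nil =>
      simp only [List.mem_singleton] at hx
      subst hx
      exact Relation.ReflTransGen.refl
    | cons b t =>
      rw [List.getLast_cons (by simp)]
      rw [List.isChain_cons_cons] at hc
      rcases List.mem_cons.mp hx with rfl | hx
      · exact Relation.ReflTransGen.head hc.1 (ih (by simp) hc.2 b (by simp))
      · exact ih (by simp) hc.2 x hx

theorem gallai_roy {V : Type*} [Fintype V] (R : V → V → Prop) (hirr : ∀ x, ¬ R x x) (l : ℕ)
    (hl : ¬ ∃ p : List V, p.length = l + 1 ∧ p.Nodup ∧ p.IsChain R) :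
    ∃ lam : V → ℕ, (∀ v, lam v < l) ∧ (∀ u v, R u v → lam u ≠ lam v) ∧
      (∀ v, 1 ≤ lam v → ∃ w, R w v) ∧
      (∀ v, lam v = 0 → (∃ w, R v w ∨ R w v) → ∃ w, R v w) := by
  classical
  let good : Finset (V × V) → Prop := fun H =>
    (∀ e ∈ H, R e.1 e.2) ∧ ∀ x, ¬ Relation.TransGen (fun a b => (a, b) ∈ H) x x
  obtain ⟨H, hHmem, hmax⟩ := Finset.exists_max_image
    ((Finset.univ : Finset (Finset (V × V))).filter good) Finset.card
    ⟨∅, by
      simp only [Finset.mem_filter, Finset.mem_univ, true_and, good]
      refine ⟨by simp, ?_⟩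
      intro x hx
      cases hx with
      | single h => simp at h
      | tail _ h => simp at h⟩
  have hH : good H := by simpa using hHmem
  obtain ⟨hHR, hHac⟩ := hH
  let h : V → V → Prop := fun a b => (a, b) ∈ H
  have hback : ∀ u v, R u v → (u, v) ∉ H → Relation.TransGen h v u := by
    intro u v huv hnot
    have hng : ¬ good (insert (u, v) H) := by
      intro hg
      have := hmax (insert (u, v) H) (by simpa using hg)
      rw [Finset.card_insert_of_notMem hnot] at this
      omega
    simp only [good, not_and_or, not_forall, not_not] at hng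
    rcases hng with ⟨e, he, hne⟩ | ⟨x, hx⟩
    · rcases Finset.mem_insert.mp he with rfl | he
      · exact absurd huv hne
      · exact absurd (hHR e he) hne
    · have := transGen_insert (H := h) (u := u) (v := v) (by
        intro a b hab
        rcases Finset.mem_insert.mp hab with hab | hab
        · right
          simpa [Prod.ext_iff] using hab
        · left; exact hab) hx
      rcases this with h1 | ⟨h1, h2⟩
      · exact absurd h1 (hHac x)
      · have h3 : Relation.ReflTransGen h v u := h2.trans h1
        rcases Relation.reflTransGen_iff_eq_or_transGen.mp h3 with h4 | h4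
        · subst h4
          exact absurd huv (hirr _)
        · exact h4
  let P : V → ℕ → Prop := fun v n =>
    ∃ p : List V, ∃ hp : p ≠ [], p.length = n + 1 ∧ p.Nodup ∧ p.IsChain h ∧ p.getLast hp = v
  have hP0 : ∀ v, P v 0 := fun v => ⟨[v], by simp, by simp, by simp, by simp, by simp⟩
  let lam : V → ℕ := fun v => Nat.findGreatest (P v) (Fintype.card V)
  have hlamP : ∀ v, P v (lam v) := fun v =>
    Nat.findGreatest_spec (P := P v) (Nat.zero_le _) (hP0 v)
  have hstep : ∀ u v, h u v → lam u < lam v := by
    intro u v huv
    obtain ⟨p, hp, hlen, hnd, hch, hlast⟩ := hlamP u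
    have hvp : v ∉ p := by
      intro hv
      have h1 := chain_reach p hp hch v hv
      rw [hlast] at h1
      exact hHac u (Relation.TransGen.head' huv h1)
    have hnd' : (p ++ [v]).Nodup := by
      rw [List.nodup_append]
      refine ⟨hnd, by simp, ?_⟩
      intro a ha b hb
      simp only [List.mem_singleton] at hb
      rintro rfl
      exact hvp (hb ▸ ha)
    have hlen' : (p ++ [v]).length = lam u + 1 + 1 := by simp [hlen]
    have hcard := hnd'.length_le_card
    have hP : P v (lam u + 1) := by
      refine ⟨p ++ [v], by simp, hlen', hnd', ?_, by simp⟩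
      rw [List.isChain_append]
      refine ⟨hch, by simp, ?_⟩
      intro x hx y hy
      simp only [List.head?_cons, Option.mem_def, Option.some.injEq] at hy
      rw [List.getLast?_eq_some_getLast hp] at hx
      simp only [Option.mem_def, Option.some.injEq] at hx
      rw [← hy, ← hx, hlast]
      exact huv
    have : lam u + 1 ≤ lam v := Nat.le_findGreatest (by omega) hP
    omega
  have htrans : ∀ u v, Relation.TransGen h u v → lam u < lam v := by
    intro u v huv
    induction huv with
    | single h1 => exact hstep _ _ h1
    | tail _ h1 ih => exact ih.trans (hstep _ _ h1)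
  refine ⟨lam, ?_, ?_, ?_, ?_⟩
  · intro v
    by_contra hcon
    push Not at hcon
    obtain ⟨p, hp, hlen, hnd, hch, -⟩ := hlamP v
    refine hl ⟨p.take (l + 1), ?_, ?_, ?_⟩
    · rw [List.length_take]; omega
    · exact hnd.sublist (List.take_sublist _ _)
    · refine (hch.take _).imp ?_
      intro a b hab
      exact hHR _ hab
  · intro u v huv
    by_cases hm : (u, v) ∈ H
    · exact (hstep u v hm).ne
    · exact (htrans _ _ (hback u v huv hm)).ne'
  · intro v hv
    obtain ⟨p, hp, hlen, hnd, hch, hlast⟩ := hlamP v
    have hdl : p.dropLast ≠ [] := by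
      intro h0
      have := congrArg List.length h0
      simp only [List.length_dropLast, List.length_nil] at this
      omega
    refine ⟨p.dropLast.getLast hdl, ?_⟩
    have := hch.rel_getLast_dropLast hdl
    have h2 := hHR _ this
    simp only at h2
    rwa [hlast] at h2
  · intro v hv hex
    obtain ⟨w, hw⟩ := hex
    rcases hw with hw | hw
    · exact ⟨w, hw⟩
    · by_cases hm : (w, v) ∈ H
      · have := hstep w v hm
        omega
      · have h1 := hback w v hw hm
        obtain ⟨b, hb, -⟩ := Relation.TransGen.head'_iff.mp h1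
        exact ⟨b, hHR _ hb⟩

end Pool.Agent.Y389.RT
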