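import Mathlib
import Pool.Agent.Y389.RT.GR

set_option autoImplicit false

namespace Pool.Agent.Y389.RT

/-- Gallai-Roy labelling which is increasing along a prescribed acyclic set of arcs -/
theorem gallai_roy' {V : Type*} [Fintype V] (R : V → V → Prop) (hirr : ∀ x, ¬ R x x) (l : ℕ)
    (hl : ¬ ∃ p : List V, p.length = l + 1 ∧ p.Nodup ∧ p.IsChain R)
    (B : V → V → Prop) (ρ : V → ℕ) (hB : ∀ u v, B u v → R u v ∧ ρ u < ρ v) :
    ∃ lam : V → ℕ, (∀ v, lam v < l) ∧ (∀ u v, R u v → lam u ≠ lam v) ∧
      (∀ v, 1 ≤ lam v → ∃ w, R w v) ∧ (∀ u v, B u v → lam u < lam v) := by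
  classical
  let good : Finset (V × V) → Prop := fun H =>
    (∀ e ∈ H, R e.1 e.2) ∧ (∀ x, ¬ Relation.TransGen (fun a b => (a, b) ∈ H) x x) ∧
      ∀ u v, B u v → (u, v) ∈ H
  let H0 : Finset (V × V) := Finset.univ.filter (fun e => B e.1 e.2)
  have hH0 : good H0 := by
    refine ⟨?_, ?_, ?_⟩
    · intro e he
      exact (hB _ _ (Finset.mem_filter.mp he).2).1
    · have hmon : ∀ x y, Relation.TransGen (fun a b => (a, b) ∈ H0) x y → ρ x < ρ y := by
        intro x y hxy
        induction hxy with
        | single h => exact (hB _ _ (Finset.mem_filter.mp h).2).2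
        | tail _ h ih => exact ih.trans (hB _ _ (Finset.mem_filter.mp h).2).2
      intro x hx
      exact lt_irrefl _ (hmon x x hx)
    · intro u v huv
      exact Finset.mem_filter.mpr ⟨Finset.mem_univ _, huv⟩
  obtain ⟨H, hHmem, hmax⟩ := Finset.exists_max_image
    ((Finset.univ : Finset (Finset (V × V))).filter good) Finset.card
    ⟨H0, Finset.mem_filter.mpr ⟨Finset.mem_univ _, hH0⟩⟩
  have hH : good H := (Finset.mem_filter.mp hHmem).2
  obtain ⟨hHR, hHac, hHB⟩ := hH
  let h : V → V → Prop := fun a b => (a, b) ∈ H
  have hback : ∀ u v, R u v → (u, v) ∉ H → Relation.TransGen h v u := by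
    intro u v huv hnot
    have hng : ¬ good (insert (u, v) H) := by
      intro hg
      have := hmax (insert (u, v) H) (Finset.mem_filter.mpr ⟨Finset.mem_univ _, hg⟩)
      rw [Finset.card_insert_of_notMem hnot] at this
      omega
    have hcyc : ∃ x, Relation.TransGen (fun a b => (a, b) ∈ insert (u, v) H) x x := by
      by_contra hcon
      push Not at hcon
      apply hng
      refine ⟨?_, hcon, ?_⟩
      · intro e he
        rcases Finset.mem_insert.mp he with rfl | he
        · exact huv
        · exact hHR e he
      · intro a b hab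
        exact Finset.mem_insert_of_mem (hHB a b hab)
    obtain ⟨x, hx⟩ := hcyc
    have := transGen_insert (H := h) (u := u) (v := v) (by
      intro a b hab
      rcases Finset.mem_insert.mp hab with hab | hab
      · right
        simpa [Prod.ext_iff] using hab
      · left; exact hab) hx
    rcases this with h1 | ⟨h1, h2⟩
    · exact absurd h1 (hHac x)
    · have h3 : Relation.ReflTransGen h v u := h2.trans h1
      rcases Relation.reflTransGen_iff_eq_or_transGen.mp h3 with h4 | h4
      · subst h4
        exact absurd huv (hirr _)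
      · exact h4
  let P : V → ℕ → Prop := fun v n =>
    ∃ p : List V, ∃ hp : p ≠ [], p.length = n + 1 ∧ p.Nodup ∧ p.IsChain h ∧ p.getLast hp = v
  have hP0 : ∀ v, P v 0 := fun v => ⟨[v], by simp, by simp, by simp, by simp, by simp⟩
  let lam : V → ℕ := fun v => Nat.findGreatest (P v) (Fintype.card V)
  have hlamP : ∀ v, P v (lam v) := fun v =>
    Nat.findGreatest_spec (P := P v) (Nat.zero_le _) (hP0 v)
  have hstep : ∀ u v, h u v → lam u < lam v := by
    intro u v huv
    obtain ⟨p, hp, hlen, hnd, hch, hlast⟩ := hlamP u
    have hvp : v ∉ p := by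
      intro hv
      have h1 := chain_reach p hp hch v hv
      rw [hlast] at h1
      exact hHac u (Relation.TransGen.head' huv h1)
    have hnd' : (p ++ [v]).Nodup := by
      rw [List.nodup_append]
      refine ⟨hnd, by simp, ?_⟩
      intro a ha b hb
      simp only [List.mem_singleton] at hb
      rintro rfl
      exact hvp (hb ▸ ha)
    have hlen' : (p ++ [v]).length = lam u + 1 + 1 := by simp [hlen]
    have hcard := hnd'.length_le_card
    have hP : P v (lam u + 1) := by
      refine ⟨p ++ [v], by simp, hlen', hnd', ?_, by simp⟩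
      rw [List.isChain_append]
      refine ⟨hch, by simp, ?_⟩
      intro x hx y hy
      simp only [List.head?_cons, Option.mem_def, Option.some.injEq] at hy
      rw [List.getLast?_eq_some_getLast hp] at hx
      simp only [Option.mem_def, Option.some.injEq] at hx
      rw [← hy, ← hx, hlast]
      exact huv
    have : lam u + 1 ≤ lam v := Nat.le_findGreatest (by omega) hP
    omega
  have htrans : ∀ u v, Relation.TransGen h u v → lam u < lam v := by
    intro u v huv
    induction huv with
    | single h1 => exact hstep _ _ h1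
    | tail _ h1 ih => exact ih.trans (hstep _ _ h1)
  refine ⟨lam, ?_, ?_, ?_, fun u v huv => hstep u v (hHB u v huv)⟩
  · intro v
    by_contra hcon
    push Not at hcon
    obtain ⟨p, hp, hlen, hnd, hch, -⟩ := hlamP v
    refine hl ⟨p.take (l + 1), ?_, ?_, ?_⟩
    · rw [List.length_take]; omega
    · exact hnd.sublist (List.take_sublist _ _)
    · refine (hch.take _).imp ?_
      intro a b hab
      exact hHR _ hab
  · intro u v huv
    by_cases hm : (u, v) ∈ H
    · exact (hstep u v hm).ne
    · exact (htrans _ _ (hback u v huv hm)).ne'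
  · intro v hv
    obtain ⟨p, hp, hlen, hnd, hch, hlast⟩ := hlamP v
    have hdl : p.dropLast ≠ [] := by
      intro h0
      have := congrArg List.length h0
      simp only [List.length_dropLast, List.length_nil] at this
      omega
    refine ⟨p.dropLast.getLast hdl, ?_⟩
    have := hch.rel_getLast_dropLast hdl
    have h2 := hHR _ this
    simp only at h2
    rwa [hlast] at h2

end Pool.Agent.Y389.RT
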