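import Mathlib

set_option autoImplicit false

namespace Pool.Agent.Y389.RT

theorem pow_ineq (q d : ℕ) (hd : d ≤ q) : (q + 1) ^ d ≤ 3 * q ^ d := by
  rcases Nat.eq_zero_or_pos q with rfl | hq
  · have : d = 0 := by omega
    subst this
    norm_num
  · have hq' : (0 : ℝ) < q := by exact_mod_cast hq
    have h1 : ((q : ℝ) + 1) ≤ q * Real.exp (1 / q) := by
      have := Real.add_one_le_exp (1 / (q : ℝ))
      calc (q : ℝ) + 1 = q * (1 / q + 1) := by field_simp; ring
        _ ≤ q * Real.exp (1 / q) := mul_le_mul_of_nonneg_left this hq'.le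
    have h2 : ((q : ℝ) + 1) ^ d ≤ 3 * (q : ℝ) ^ d := by
      calc ((q : ℝ) + 1) ^ d ≤ (q * Real.exp (1 / q)) ^ d :=
            pow_le_pow_left₀ (by positivity) h1 d
        _ = (q : ℝ) ^ d * Real.exp (d * (1 / q)) := by
            rw [mul_pow, ← Real.exp_nat_mul]
        _ ≤ (q : ℝ) ^ d * Real.exp 1 := by
            apply mul_le_mul_of_nonneg_left _ (by positivity)
            apply Real.exp_le_exp.mpr
            rw [mul_one_div, div_le_one hq']
            exact_mod_cast hd
        _ ≤ (q : ℝ) ^ d * 3 := by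
            apply mul_le_mul_of_nonneg_left _ (by positivity)
            have := Real.exp_one_lt_d9
            linarith
        _ = 3 * (q : ℝ) ^ d := by ring
    exact_mod_cast h2

theorem avg {ι : Type*} [Fintype ι] [DecidableEq ι] (q : ℕ) (A : Finset ι)
    (h1 : A.card ≤ q + 1) (h2 : q + 1 ≤ 2 * A.card) :
    (q + 1) ^ (Fintype.card ι) ≤
      6 * ((Finset.univ : Finset (ι → Fin (q + 1))).filter
        (fun φ => ∃ a ∈ A, φ a = 0 ∧ ∀ b ∈ A, φ b = 0 → b = a)).card := by
  classical
  let F : ι → Finset (ι → Fin (q + 1)) := fun a =>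
    Fintype.piFinset (fun i => if i = a then ({0} : Finset (Fin (q + 1))) else
      if i ∈ A then {0}ᶜ else Finset.univ)
  have hF : ∀ a ∈ A, (F a).card = q ^ (A.card - 1) * (q + 1) ^ (Fintype.card ι - A.card) := by
    intro a ha
    rw [Fintype.card_piFinset]
    rw [← Finset.prod_mul_prod_compl A]
    congr 1
    · rw [← Finset.mul_prod_erase A _ ha]
      simp only [if_true, Finset.card_singleton, one_mul]
      rw [← Finset.card_erase_of_mem ha]
      apply Finset.prod_eq_pow_card
      intro i hi
      rw [if_neg (Finset.ne_of_mem_erase hi), if_pos (Finset.mem_of_mem_erase hi),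
        Finset.card_compl, Fintype.card_fin]
      simp
    · rw [← Finset.card_compl]
      apply Finset.prod_eq_pow_card
      intro i hi
      have hi' : i ∉ A := by simpa using hi
      have : i ≠ a := fun h => hi' (h ▸ ha)
      rw [if_neg this, if_neg hi']
      simp
  have hdisj : (A : Set ι).PairwiseDisjoint F := by
    intro a ha b hb hab
    rw [Function.onFun, Finset.disjoint_left]
    intro φ h3 h4
    rw [Fintype.mem_piFinset] at h3 h4
    have h5 := h3 a
    have h6 := h4 a
    rw [if_pos rfl] at h5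
    rw [if_neg hab, if_pos (by simpa using ha)] at h6
    exact (Finset.mem_compl.mp h6) h5
  have hsub : A.biUnion F ⊆ (Finset.univ : Finset (ι → Fin (q + 1))).filter
      (fun φ => ∃ a ∈ A, φ a = 0 ∧ ∀ b ∈ A, φ b = 0 → b = a) := by
    intro φ hφ
    obtain ⟨a, ha, h3⟩ := Finset.mem_biUnion.mp hφ
    rw [Fintype.mem_piFinset] at h3
    refine Finset.mem_filter.mpr ⟨Finset.mem_univ _, a, ha, ?_, ?_⟩
    · have := h3 a
      rw [if_pos rfl] at this
      simpa using this
    · intro b hb h4
      by_contra hne
      have := h3 b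
      rw [if_neg hne, if_pos hb, Finset.mem_compl] at this
      exact this (by simpa using h4)
  have hcard := Finset.card_le_card hsub
  rw [Finset.card_biUnion (fun a ha b hb hab => hdisj (by simpa using ha) (by simpa using hb) hab),
    Finset.sum_congr rfl hF, Finset.sum_const, smul_eq_mul] at hcard
  have hA : 1 ≤ A.card := by omega
  have hN : A.card ≤ Fintype.card ι := Finset.card_le_univ A
  have h3 : (q + 1) ^ A.card ≤ 6 * (A.card * q ^ (A.card - 1)) := by
    have h4 := pow_ineq q (A.card - 1) (by omega)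
    have h5 : (q + 1) ^ A.card = (q + 1) * (q + 1) ^ (A.card - 1) := by
      rw [← pow_succ']
      congr 1
      omega
    rw [h5]
    calc (q + 1) * (q + 1) ^ (A.card - 1) ≤ (2 * A.card) * (3 * q ^ (A.card - 1)) :=
          Nat.mul_le_mul h2 h4
      _ = 6 * (A.card * q ^ (A.card - 1)) := by ring
  calc (q + 1) ^ (Fintype.card ι)
      = (q + 1) ^ A.card * (q + 1) ^ (Fintype.card ι - A.card) := by
        rw [← pow_add]
        congr 1
        omega
    _ ≤ 6 * (A.card * q ^ (A.card - 1)) * (q + 1) ^ (Fintype.card ι - A.card) :=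
        Nat.mul_le_mul_right _ h3
    _ = 6 * (A.card * (q ^ (A.card - 1) * (q + 1) ^ (Fintype.card ι - A.card))) := by ring
    _ ≤ _ := Nat.mul_le_mul_left _ hcard

end Pool.Agent.Y389.RT
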