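import Mathlib

set_option autoImplicit false

namespace Pool.Agent.Y389.RT

/-- the list of the colours of the consecutive arcs of a list of vertices -/
def cols {V : Type*} (c : V → V → ℕ) : List V → List ℕ
  | [] => []
  | [_] => []
  | (x :: y :: t) => c x y :: cols c (y :: t)

@[simp] theorem cols_nil {V : Type*} (c : V → V → ℕ) : cols c [] = [] := rfl
@[simp] theorem cols_single {V : Type*} (c : V → V → ℕ) (x : V) : cols c [x] = [] := rfl
@[simp] theorem cols_cons_cons {V : Type*} (c : V → V → ℕ) (x y : V) (t : List V) :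
    cols c (x :: y :: t) = c x y :: cols c (y :: t) := rfl

theorem cols_length {V : Type*} (c : V → V → ℕ) :
    ∀ p : List V, (cols c p).length = p.length - 1
  | [] => rfl
  | [_] => rfl
  | (x :: y :: t) => by
    rw [cols_cons_cons, List.length_cons, cols_length c (y :: t)]
    simp

theorem cols_append {V : Type*} (c : V → V → ℕ) (w : V) :
    ∀ (p : List V) (hp : p ≠ []), cols c (p ++ [w]) = cols c p ++ [c (p.getLast hp) w]
  | [], hp => absurd rfl hp
  | [x], _ => by simp
  | (x :: y :: t), _ => by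
    have hl : (x :: y :: t).getLast (by simp) = (y :: t).getLast (by simp) :=
      List.getLast_cons (by simp)
    rw [hl, List.cons_append, List.cons_append, cols_cons_cons, ← List.cons_append,
      cols_append c w (y :: t) (by simp), cols_cons_cons, List.cons_append]

theorem cols_getElem {V : Type*} (c : V → V → ℕ) :
    ∀ (p : List V) (i : ℕ) (hi : i < (cols c p).length) (h1 : i < p.length)
      (h2 : i + 1 < p.length), (cols c p)[i] = c p[i] p[i + 1]
  | [], i, hi, _, _ => by simp at hi
  | [x], i, hi, _, _ => by simp at hi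
  | (x :: y :: t), 0, _, _, _ => by simp
  | (x :: y :: t), i + 1, hi, h1, h2 => by
    have := cols_getElem c (y :: t) i (by simpa using hi) (by simpa using h1) (by simpa using h2)
    simpa using this

/-- colour `γ` is incident with `v` inside `S` -/
def Inc {V : Type*} (adj : V → V → Prop) (c : V → V → ℕ) (S : Finset V) (γ : ℕ) (v : V) : Prop :=
  ∃ w ∈ S, (adj v w ∧ c v w = γ) ∨ (adj w v ∧ c w v = γ)

/-- `p` is a rainbow path of `m` arcs inside `S` -/
def RP {V : Type*} (adj : V → V → Prop) (c : V → V → ℕ) (S : Finset V) (m : ℕ) (p : List V) :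
    Prop :=
  p.length = m + 1 ∧ p.Nodup ∧ p.IsChain adj ∧ (∀ x ∈ p, x ∈ S) ∧ (cols c p).Nodup

variable {V : Type*} {adj : V → V → Prop} {c : V → V → ℕ} {S : Finset V}

theorem mem_cols {p : List V} (hch : p.IsChain adj) {γ : ℕ} (hγ : γ ∈ cols c p) :
    ∃ x ∈ p, ∃ y ∈ p, adj x y ∧ c x y = γ := by
  induction p with
  | nil => simp at hγ
  | cons a t ih =>
    cases t with
    | nil => simp at hγ
    | cons b t =>
      rw [List.isChain_cons_cons] at hch
      rw [cols_cons_cons, List.mem_cons] at hγ
      rcases hγ with h | h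
      · exact ⟨a, by simp, b, by simp, hch.1, h.symm⟩
      · obtain ⟨x, hx, y, hy, h1⟩ := ih hch.2 h
        exact ⟨x, List.mem_cons_of_mem _ hx, y, List.mem_cons_of_mem _ hy, h1⟩

theorem inc_of_mem {p : List V} (hlen : 2 ≤ p.length) (hch : p.IsChain adj)
    (hS : ∀ x ∈ p, x ∈ S) {x : V} (hx : x ∈ p) : ∃ γ ∈ cols c p, Inc adj c S γ x := by
  induction p with
  | nil => simp at hx
  | cons a t ih =>
    cases t with
    | nil => simp at hlen
    | cons b t =>
      rw [List.isChain_cons_cons] at hch
      rw [List.mem_cons] at hx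
      rcases hx with rfl | hx
      · exact ⟨c x b, by simp, b, hS b (by simp), Or.inl ⟨hch.1, rfl⟩⟩
      · cases t with
        | nil =>
          simp only [List.mem_singleton] at hx
          subst hx
          exact ⟨c a x, by simp, a, hS a (by simp), Or.inr ⟨hch.1, rfl⟩⟩
        | cons d t =>
          obtain ⟨γ, h1, h2⟩ := ih (by simp) hch.2
            (fun y hy => hS y (List.mem_cons_of_mem _ hy)) hx
          exact ⟨γ, by rw [cols_cons_cons]; exact List.mem_cons_of_mem _ h1, h2⟩

/-- extension at the front -/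
theorem RP.cons {m : ℕ} {x : V} {t : List V} (h : RP adj c S m (x :: t)) {w : V} (hw : w ∈ S)
    (hwx : adj w x) (hn : w ∉ x :: t) (hc : c w x ∉ cols c (x :: t)) :
    RP adj c S (m + 1) (w :: x :: t) := by
  obtain ⟨h1, h2, h3, h4, h5⟩ := h
  refine ⟨by simpa using h1, List.nodup_cons.mpr ⟨hn, h2⟩, List.isChain_cons_cons.mpr ⟨hwx, h3⟩,
    ?_, ?_⟩
  · intro y hy
    rcases List.mem_cons.mp hy with rfl | hy
    · exact hw
    · exact h4 y hy
  · rw [cols_cons_cons]
    exact List.nodup_cons.mpr ⟨hc, h5⟩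

/-- extension at the end -/
theorem RP.snoc {m : ℕ} {p : List V} (hp : p ≠ []) (h : RP adj c S m p) {w : V} (hw : w ∈ S)
    (hwx : adj (p.getLast hp) w) (hn : w ∉ p) (hc : c (p.getLast hp) w ∉ cols c p) :
    RP adj c S (m + 1) (p ++ [w]) := by
  obtain ⟨h1, h2, h3, h4, h5⟩ := h
  refine ⟨by simpa using h1, ?_, ?_, ?_, ?_⟩
  · rw [List.nodup_append]
    refine ⟨h2, by simp, ?_⟩
    intro a ha b hb
    simp only [List.mem_singleton] at hb
    rintro rfl
    exact hn (hb ▸ ha)
  · rw [List.isChain_append]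
    refine ⟨h3, by simp, ?_⟩
    intro x hx y hy
    simp only [List.head?_cons, Option.mem_def, Option.some.injEq] at hy
    rw [List.getLast?_eq_some_getLast hp] at hx
    simp only [Option.mem_def, Option.some.injEq] at hx
    rw [← hy, ← hx]
    exact hwx
  · intro y hy
    rcases List.mem_append.mp hy with hy | hy
    · exact h4 y hy
    · simp only [List.mem_singleton] at hy
      exact hy ▸ hw
  · rw [cols_append c w p hp, List.nodup_append]
    refine ⟨h5, by simp, ?_⟩
    intro a ha b hb
    simp only [List.mem_singleton] at hb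
    rintro rfl
    exact hc (hb ▸ ha)

/-- if no arc inside `U` has a colour of `D` and every vertex of `U` has an in-arc of a colour of
`D`, then rainbow paths of `U` extend -/
theorem step_in {U : Finset V} {D : Set ℕ} (hU : U ⊆ S)
    (h0 : ∀ u ∈ U, ∀ v ∈ U, adj u v → c u v ∉ D)
    (hin : ∀ v ∈ U, ∃ w ∈ S, adj w v ∧ c w v ∈ D) {m : ℕ}
    (h : ∃ p, RP adj c U m p) : ∃ p, RP adj c S (m + 1) p := by
  obtain ⟨p, h1, h2, h3, h4, h5⟩ := h
  cases p with
  | nil => simp at h1
  | cons x t =>
    obtain ⟨w, hw, hwx, hD⟩ := hin x (h4 x (by simp))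
    refine ⟨w :: x :: t, RP.cons ⟨h1, h2, h3, fun y hy => hU (h4 y hy), h5⟩ hw hwx ?_ ?_⟩
    · intro hmem
      exact h0 w (h4 w hmem) x (h4 x (by simp)) hwx hD
    · intro hmem
      obtain ⟨a, ha, b, hb, hab, hc⟩ := mem_cols h3 hmem
      exact h0 a (h4 a ha) b (h4 b hb) hab (hc ▸ hD)

theorem step_out {U : Finset V} {D : Set ℕ} (hU : U ⊆ S)
    (h0 : ∀ u ∈ U, ∀ v ∈ U, adj u v → c u v ∉ D)
    (hout : ∀ v ∈ U, ∃ w ∈ S, adj v w ∧ c v w ∈ D) {m : ℕ}
    (h : ∃ p, RP adj c U m p) : ∃ p, RP adj c S (m + 1) p := by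
  obtain ⟨p, h1, h2, h3, h4, h5⟩ := h
  have hp : p ≠ [] := by
    rintro rfl
    simp at h1
  obtain ⟨w, hw, hwx, hD⟩ := hout (p.getLast hp) (h4 _ (List.getLast_mem hp))
  refine ⟨p ++ [w], RP.snoc hp ⟨h1, h2, h3, fun y hy => hU (h4 y hy), h5⟩ hw hwx ?_ ?_⟩
  · intro hmem
    exact h0 _ (h4 _ (List.getLast_mem hp)) w (h4 w hmem) hwx hD
  · intro hmem
    obtain ⟨a, ha, b, hb, hab, hc⟩ := mem_cols h3 hmem
    exact h0 a (h4 a ha) b (h4 b hb) hab (hc ▸ hD)

open Classical in
/-- a bounded set of colours such that the vertices missed by it carry no rainbow path with `m`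
arcs -/
theorem hit (hT : ∀ u v, u ≠ v → (adj u v ∨ adj v u)) {m : ℕ} (hm : 1 ≤ m)
    (h : ¬ ∃ p, RP adj c S (m + 1) p) :
    ∃ G : Finset ℕ, G.card ≤ (m + 1) * m ∧
      ¬ ∃ p, RP adj c (S.filter (fun v => ∀ γ ∈ G, ¬ Inc adj c S γ v)) m p := by
  by_contra hno
  push Not at hno
  have key : ∀ i, i ≤ m + 1 → ∃ G : Finset ℕ, G.card ≤ (i + 1) * m ∧
      ∃ (X : List V) (x : V) (P : List V), RP adj c S i (X ++ [x]) ∧
        (∀ γ ∈ cols c (X ++ [x]), γ ∈ G) ∧ RP adj c S m (x :: P) ∧
        (∀ γ ∈ cols c (x :: P), γ ∈ G) ∧ (∀ y ∈ X ++ [x], ∃ γ ∈ G, Inc adj c S γ y) := by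
    intro i
    induction i with
    | zero =>
      intro _
      obtain ⟨Q, hQ⟩ := hno ∅ (by simp)
      have hQ1 : RP adj c S m Q := ⟨hQ.1, hQ.2.1, hQ.2.2.1,
        fun x hx => (Finset.mem_filter.mp (hQ.2.2.2.1 x hx)).1, hQ.2.2.2.2⟩
      cases Q with
      | nil => have := hQ.1; simp at this
      | cons q Q' =>
        refine ⟨(cols c (q :: Q')).toFinset, ?_, [], q, Q', ?_, ?_, hQ1, ?_, ?_⟩
        · refine (List.toFinset_card_le _).trans ?_
          rw [cols_length, hQ.1]
          simp
        · refine ⟨by simp, by simp, by simp, ?_, by simp⟩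
          intro y hy
          simp only [List.nil_append, List.mem_singleton] at hy
          exact hy ▸ hQ1.2.2.2.1 q (by simp)
        · intro γ hγ
          simp at hγ
        · intro γ hγ
          exact List.mem_toFinset.mpr hγ
        · intro y hy
          simp only [List.nil_append, List.mem_singleton] at hy
          subst hy
          obtain ⟨γ, h1, h2⟩ := inc_of_mem (c := c) (S := S) (p := y :: Q')
            (by rw [hQ.1]; omega) hQ1.2.2.1 hQ1.2.2.2.1 (x := y) (by simp)
          exact ⟨γ, List.mem_toFinset.mpr h1, h2⟩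
    | succ i ih =>
      intro hi
      obtain ⟨G, hGc, X, x, P, hX, hXG, hP, hPG, hinc⟩ := ih (by omega)
      have hGc' : G.card ≤ (m + 1) * m :=
        hGc.trans (Nat.mul_le_mul_right _ (by omega))
      obtain ⟨Q, hQ⟩ := hno G hGc'
      have hQ1 : RP adj c S m Q := ⟨hQ.1, hQ.2.1, hQ.2.2.1,
        fun x hx => (Finset.mem_filter.mp (hQ.2.2.2.1 x hx)).1, hQ.2.2.2.2⟩
      have hQn : ∀ y ∈ Q, ∀ γ ∈ G, ¬ Inc adj c S γ y := fun y hy =>
        (Finset.mem_filter.mp (hQ.2.2.2.1 y hy)).2
      have hPinc : ∀ y ∈ x :: P, ∃ γ ∈ G, Inc adj c S γ y := by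
        intro y hy
        obtain ⟨γ, h1, h2⟩ := inc_of_mem (c := c) (S := S) (p := x :: P)
          (by rw [hP.1]; omega) hP.2.2.1 hP.2.2.2.1 hy
        exact ⟨γ, hPG γ h1, h2⟩
      cases Q with
      | nil => have := hQ.1; simp at this
      | cons q Q' =>
        have hxS : x ∈ S := hP.2.2.2.1 x (by simp)
        have hqS : q ∈ S := hQ1.2.2.2.1 q (by simp)
        have hxq : x ≠ q := by
          rintro rfl
          obtain ⟨γ, h1, h2⟩ := hinc x (by simp)
          exact hQn x (by simp) γ h1 h2
        rcases hT x q hxq with hadj | hadj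
        · -- x → q
          have hg : c x q ∉ G := fun hg =>
            hQn q (by simp) _ hg ⟨x, hxS, Or.inr ⟨hadj, rfl⟩⟩
          have hgQ : c x q ∈ cols c (q :: Q') := by
            by_contra hgQ
            refine h ⟨x :: q :: Q', hQ1.cons hxS hadj ?_ hgQ⟩
            intro hmem
            obtain ⟨γ, h1, h2⟩ := hinc x (by simp)
            exact hQn x hmem γ h1 h2
          refine ⟨G ∪ (cols c (q :: Q')).toFinset, ?_, X ++ [x], q, Q', ?_, ?_, hQ1, ?_, ?_⟩
          · refine (Finset.card_union_le _ _).trans ?_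
            have h1 : (cols c (q :: Q')).toFinset.card ≤ m := by
              refine (List.toFinset_card_le _).trans ?_
              rw [cols_length, hQ.1]
              simp
            have h2 : (i + 1 + 1) * m = (i + 1) * m + m := by ring
            omega
          · have hlast : (X ++ [x]).getLast (by simp) = x := by simp
            refine RP.snoc (by simp) hX hqS (by rw [hlast]; exact hadj) ?_
              (by rw [hlast]; exact fun hmem => hg (hXG _ hmem))
            intro hmem
            obtain ⟨γ, h1, h2⟩ := hinc q hmem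
            exact hQn q (by simp) γ h1 h2
          · intro γ hγ
            rw [cols_append c q (X ++ [x]) (by simp)] at hγ
            rcases List.mem_append.mp hγ with hγ | hγ
            · exact Finset.mem_union_left _ (hXG γ hγ)
            · simp only [List.getLast_append_singleton, List.mem_singleton] at hγ
              exact Finset.mem_union_right _ (List.mem_toFinset.mpr (hγ ▸ hgQ))
          · intro γ hγ
            exact Finset.mem_union_right _ (List.mem_toFinset.mpr hγ)
          · intro y hy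
            rcases List.mem_append.mp hy with hy | hy
            · obtain ⟨γ, h1, h2⟩ := hinc y hy
              exact ⟨γ, Finset.mem_union_left _ h1, h2⟩
            · simp only [List.mem_singleton] at hy
              subst hy
              obtain ⟨γ, h1, h2⟩ := inc_of_mem (c := c) (S := S) (p := y :: Q')
                (by rw [hQ.1]; omega) hQ1.2.2.1 hQ1.2.2.2.1 (x := y) (by simp)
              exact ⟨γ, Finset.mem_union_right _ (List.mem_toFinset.mpr h1), h2⟩
        · -- q → x
          exfalso
          have hg : c q x ∉ G := fun hg =>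
            hQn q (by simp) _ hg ⟨x, hxS, Or.inl ⟨hadj, rfl⟩⟩
          refine h ⟨q :: x :: P, hP.cons hqS hadj ?_ (fun hmem => hg (hPG _ hmem))⟩
          intro hmem
          obtain ⟨γ, h1, h2⟩ := hPinc q hmem
          exact hQn q (by simp) γ h1 h2
  obtain ⟨G, _, X, x, P, hX, _⟩ := key (m + 1) le_rfl
  exact h ⟨X ++ [x], hX⟩

end Pool.Agent.Y389.RT
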