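import Mathlib
import Pool.Agent.Y389.RT.GR
import Pool.Agent.Y389.RT.Path
import Pool.Agent.Y389.RT.Avg

set_option autoImplicit false

namespace Pool.Agent.Y389.RT

variable {V : Type*} {adj : V → V → Prop} {c : V → V → ℕ} {S : Finset V}

/-- no monochromatic path of `l` arcs inside `S` -/
def NoMono (adj : V → V → Prop) (c : V → V → ℕ) (S : Finset V) (l : ℕ) : Prop :=
  ∀ γ : ℕ, ¬ ∃ p : List V, p.length = l + 1 ∧ p.Nodup ∧
    p.IsChain (fun x y => x ∈ S ∧ y ∈ S ∧ adj x y ∧ c x y = γ)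

theorem NoMono.mono {l : ℕ} {U : Finset V} (h : NoMono adj c S l) (hU : U ⊆ S) :
    NoMono adj c U l := by
  intro γ hex
  obtain ⟨p, h1, h2, h3⟩ := hex
  refine h γ ⟨p, h1, h2, h3.imp ?_⟩
  intro a b hab
  exact ⟨hU hab.1, hU hab.2.1, hab.2.2⟩

open Classical in
theorem scale [Fintype V] (hirr : ∀ u, ¬ adj u u) {l B M : ℕ} (hmono : NoMono adj c S l)
    (hB : ∀ U ⊆ S, (¬ ∃ p, RP adj c U M p) → U.card ≤ B)
    (hno : ¬ ∃ p, RP adj c S (M + 1) p) (G : Finset ℕ) (q : ℕ) (W : Finset V) (hW : W ⊆ S)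
    (hd1 : ∀ v ∈ W, ((Finset.univ : Finset {x // x ∈ G}).filter
      (fun g => Inc adj c S g.1 v)).card ≤ q + 1)
    (hd2 : ∀ v ∈ W, q + 1 ≤ 2 * ((Finset.univ : Finset {x // x ∈ G}).filter
      (fun g => Inc adj c S g.1 v)).card) :
    W.card ≤ 6 * (l * B) := by
  choose lam hlam1 hlam2 hlam3 hlam4 using fun γ : ℕ =>
    gallai_roy (fun x y => x ∈ S ∧ y ∈ S ∧ adj x y ∧ c x y = γ)
      (fun x hx => hirr x hx.2.2.1) l (hmono γ)
  let ι := {x // x ∈ G}
  let A : V → Finset ι := fun v => (Finset.univ : Finset ι).filter (fun g => Inc adj c S g.1 v)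
  let ok : (ι → Fin (q + 1)) → V → Prop := fun φ v =>
    ∃ a ∈ A v, φ a = 0 ∧ ∀ b ∈ A v, φ b = 0 → b = a
  let U : (ι → Fin (q + 1)) → ℕ → Finset V := fun φ j =>
    S.filter (fun v => ∃ a ∈ A v, φ a = 0 ∧ (∀ b ∈ A v, φ b = 0 → b = a) ∧ lam a.1 v = j)
  have hA : ∀ (a : ι) v, a ∈ A v ↔ Inc adj c S a.1 v := by
    intro a v
    simp [A]
  have hU : ∀ φ j, (U φ j).card ≤ B := by
    intro φ j
    have hsub : U φ j ⊆ S := Finset.filter_subset _ _
    apply hB _ hsub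
    intro hex
    let D : Set ℕ := {γ | ∃ a : ι, a.1 = γ ∧ φ a = 0}
    have h0 : ∀ u ∈ U φ j, ∀ v ∈ U φ j, adj u v → c u v ∉ D := by
      intro u hu v hv huv hD
      obtain ⟨huS, a, ha, ha0, hau, haj⟩ := Finset.mem_filter.mp hu
      obtain ⟨hvS, b, hb, hb0, hbu, hbj⟩ := Finset.mem_filter.mp hv
      obtain ⟨d, hd, hd0⟩ := hD
      have h1 : d ∈ A u := (hA d u).mpr ⟨v, hvS, Or.inl ⟨huv, hd.symm⟩⟩
      have h2 : d ∈ A v := (hA d v).mpr ⟨u, huS, Or.inr ⟨huv, hd.symm⟩⟩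
      have h3 := hau d h1 hd0
      have h4 := hbu d h2 hd0
      rw [← h3] at haj
      rw [← h4] at hbj
      exact hlam2 d.1 u v ⟨huS, hvS, huv, hd.symm⟩ (haj.trans hbj.symm)
    rcases Nat.eq_zero_or_pos j with rfl | hj
    · refine hno (step_out hsub h0 ?_ hex)
      intro v hv
      obtain ⟨hvS, a, ha, ha0, hau, haj⟩ := Finset.mem_filter.mp hv
      obtain ⟨w, hw, hw'⟩ := (hA a v).mp ha
      have : ∃ w, (v ∈ S ∧ w ∈ S ∧ adj v w ∧ c v w = a.1) ∨
          (w ∈ S ∧ v ∈ S ∧ adj w v ∧ c w v = a.1) := by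
        refine ⟨w, ?_⟩
        rcases hw' with h | h
        · exact Or.inl ⟨hvS, hw, h⟩
        · exact Or.inr ⟨hw, hvS, h⟩
      obtain ⟨w', hw1, hw2, hw3, hw4⟩ := hlam4 a.1 v haj this
      exact ⟨w', hw2, hw3, a, hw4.symm, ha0⟩
    · refine hno (step_in hsub h0 ?_ hex)
      intro v hv
      obtain ⟨hvS, a, ha, ha0, hau, haj⟩ := Finset.mem_filter.mp hv
      obtain ⟨w', hw1, hw2, hw3, hw4⟩ := hlam3 a.1 v (by omega)
      exact ⟨w', hw1, hw3, a, hw4.symm, ha0⟩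
  have hWφ : ∀ φ, (W.filter (ok φ)).card ≤ l * B := by
    intro φ
    have hsub : W.filter (ok φ) ⊆ (Finset.range l).biUnion (U φ) := by
      intro v hv
      obtain ⟨hvW, a, ha, ha0, hau⟩ := Finset.mem_filter.mp hv
      refine Finset.mem_biUnion.mpr ⟨lam a.1 v, Finset.mem_range.mpr (hlam1 a.1 v), ?_⟩
      exact Finset.mem_filter.mpr ⟨hW hvW, a, ha, ha0, hau, rfl⟩
    calc (W.filter (ok φ)).card ≤ ((Finset.range l).biUnion (U φ)).card :=
          Finset.card_le_card hsub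
      _ ≤ ∑ j ∈ Finset.range l, (U φ j).card := Finset.card_biUnion_le
      _ ≤ ∑ _j ∈ Finset.range l, B := Finset.sum_le_sum (fun j _ => hU φ j)
      _ = l * B := by simp
  have hsum : ∑ φ : ι → Fin (q + 1), (W.filter (ok φ)).card =
      ∑ v ∈ W, ((Finset.univ : Finset (ι → Fin (q + 1))).filter (fun φ => ok φ v)).card :=
    Finset.sum_card_bipartiteAbove_eq_sum_card_bipartiteBelow (fun φ v => ok φ v)
  have hlow : W.card * (q + 1) ^ (Fintype.card ι) ≤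
      6 * ∑ v ∈ W, ((Finset.univ : Finset (ι → Fin (q + 1))).filter (fun φ => ok φ v)).card := by
    rw [Finset.mul_sum, ← smul_eq_mul, ← Finset.sum_const]
    apply Finset.sum_le_sum
    intro v hv
    exact avg q (A v) (hd1 v hv) (hd2 v hv)
  have hup : ∑ φ : ι → Fin (q + 1), (W.filter (ok φ)).card ≤
      (q + 1) ^ (Fintype.card ι) * (l * B) := by
    calc ∑ φ : ι → Fin (q + 1), (W.filter (ok φ)).card
        ≤ ∑ _φ : ι → Fin (q + 1), l * B := Finset.sum_le_sum (fun φ _ => hWφ φ)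
      _ = (q + 1) ^ (Fintype.card ι) * (l * B) := by
        simp [Finset.card_univ]
  rw [← hsum] at hlow
  have hpos : 0 < (q + 1) ^ (Fintype.card ι) := by positivity
  have h1 : W.card * (q + 1) ^ (Fintype.card ι) ≤
      (6 * (l * B)) * (q + 1) ^ (Fintype.card ι) := by
    calc _ ≤ 6 * ∑ φ : ι → Fin (q + 1), (W.filter (ok φ)).card := hlow
      _ ≤ 6 * ((q + 1) ^ (Fintype.card ι) * (l * B)) := Nat.mul_le_mul_left _ hup
      _ = _ := by ring
  exact Nat.le_of_mul_le_mul_right h1 hpos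

end Pool.Agent.Y389.RT
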