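import Mathlib
import Pool.Agent.Y389.RT.Scale

set_option autoImplicit false

namespace Pool.Agent.Y389.RT

variable {V : Type*} {adj : V → V → Prop} {c : V → V → ℕ} {S : Finset V}

theorem insert_chain (hT : ∀ u v, u ≠ v → (adj u v ∨ adj v u)) (v : V) :
    ∀ p : List V, p.IsChain adj → v ∉ p →
      ∃ p' : List V, p'.Perm (v :: p) ∧ p'.IsChain adj ∧
        (p'.head? = some v ∨ p'.head? = p.head?)
  | [], _, _ => ⟨[v], by simp, by simp, by simp⟩
  | (a :: t), hch, hv => by
    have hva : v ≠ a := fun h => hv (by simp [h])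
    rcases hT v a hva with h | h
    · exact ⟨v :: a :: t, List.Perm.refl _, List.isChain_cons_cons.mpr ⟨h, hch⟩, Or.inl rfl⟩
    · have hvt : v ∉ t := fun h' => hv (List.mem_cons_of_mem _ h')
      have htch : t.IsChain adj := hch.tail
      obtain ⟨t', h1, h2, h3⟩ := insert_chain hT v t htch hvt
      refine ⟨a :: t', ?_, ?_, Or.inr rfl⟩
      · exact (List.Perm.cons a h1).trans (List.Perm.swap v a t)
      · rw [List.isChain_cons]
        refine ⟨?_, h2⟩
        intro y hy
        rcases h3 with h3 | h3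
        · rw [h3] at hy
          simp only [Option.mem_def, Option.some.injEq] at hy
          exact hy ▸ h
        · rw [h3] at hy
          rw [List.isChain_cons] at hch
          exact hch.1 y hy

open Classical in
theorem ham (hT : ∀ u v, u ≠ v → (adj u v ∨ adj v u)) (S : Finset V) :
    ∃ p : List V, p.Nodup ∧ p.IsChain adj ∧ (∀ x, x ∈ p ↔ x ∈ S) ∧ p.length = S.card := by
  induction S using Finset.induction_on with
  | empty => exact ⟨[], by simp, by simp, by simp, by simp⟩
  | insert v S hv ih =>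
    obtain ⟨p, h1, h2, h3, h4⟩ := ih
    have hvp : v ∉ p := fun h => hv ((h3 v).mp h)
    obtain ⟨p', h5, h6, _⟩ := insert_chain hT v p h2 hvp
    refine ⟨p', ?_, h6, ?_, ?_⟩
    · exact h5.nodup_iff.mpr (List.nodup_cons.mpr ⟨hvp, h1⟩)
    · intro x
      rw [h5.mem_iff, List.mem_cons, Finset.mem_insert, h3]
    · rw [h5.length_eq, List.length_cons, h4, Finset.card_insert_of_notMem hv]

theorem all_same (hno : ¬ ∃ p, RP adj c S 2 p) :
    ∀ p : List V, p.Nodup → p.IsChain adj → (∀ x ∈ p, x ∈ S) → ∃ γ, ∀ x ∈ cols c p, x = γ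
  | [], _, _, _ => ⟨0, by simp⟩
  | [_], _, _, _ => ⟨0, by simp⟩
  | [a, b], _, _, _ => ⟨c a b, by simp⟩
  | (a :: b :: d :: t), h1, h2, h3 => by
    obtain ⟨γ, hγ⟩ := all_same hno (b :: d :: t) (List.nodup_cons.mp h1).2 h2.tail
      (fun x hx => h3 x (List.mem_cons_of_mem _ hx))
    have h4 : c b d = γ := hγ _ (by simp)
    have h5 : c a b = c b d := by
      by_contra hne
      apply hno
      refine ⟨[a, b, d], rfl, ?_, ?_, ?_, ?_⟩
      · exact h1.sublist (List.sublist_append_left [a, b, d] t)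
      · rw [List.isChain_cons_cons] at h2
        have h6 := h2.2
        rw [List.isChain_cons_cons] at h6
        simp [h2.1, h6.1]
      · intro x hx
        apply h3
        simp only [List.mem_cons, List.not_mem_nil, or_false] at hx ⊢
        tauto
      · simpa using hne
    refine ⟨γ, ?_⟩
    intro x hx
    rw [cols_cons_cons, List.mem_cons] at hx
    rcases hx with rfl | hx
    · rw [h5, h4]
    · exact hγ x hx

theorem chain_col {T : Finset V} :
    ∀ (p : List V) (γ : ℕ), p.IsChain adj → (∀ x ∈ p, x ∈ T) → (∀ x ∈ cols c p, x = γ) →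
      p.IsChain (fun x y => x ∈ T ∧ y ∈ T ∧ adj x y ∧ c x y = γ)
  | [], _, _, _, _ => by simp
  | [_], _, _, _, _ => by simp
  | (a :: b :: t), γ, h1, h2, h3 => by
    rw [List.isChain_cons_cons] at h1 ⊢
    refine ⟨⟨h2 a (by simp), h2 b (by simp), h1.1, h3 _ (by simp)⟩, ?_⟩
    exact chain_col (b :: t) γ h1.2 (fun x hx => h2 x (List.mem_cons_of_mem _ hx))
      (fun x hx => h3 x (by rw [cols_cons_cons]; exact List.mem_cons_of_mem _ hx))

/-- the case `k = 2` -/
theorem two_bound (hT : ∀ u v, u ≠ v → (adj u v ∨ adj v u)) {l : ℕ} {U : Finset V}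
    (hU : U ⊆ S) (hmono : NoMono adj c S l) (hno : ¬ ∃ p, RP adj c U 2 p) : U.card ≤ l := by
  by_contra hcon
  push Not at hcon
  obtain ⟨p, h1, h2, h3, h4⟩ := ham hT U
  obtain ⟨γ, hγ⟩ := all_same hno p h1 h2 (fun x hx => (h3 x).mp hx)
  have h5 := chain_col (T := S) p γ h2 (fun x hx => hU ((h3 x).mp hx)) hγ
  refine hmono γ ⟨p.take (l + 1), ?_, h1.sublist (List.take_sublist _ _), h5.take _⟩
  rw [List.length_take]
  omega

end Pool.Agent.Y389.RT
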