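import Mathlib

set_option autoImplicit false

namespace Pool.Agent.Y389.RT

open Classical in
/-- a digraph of out-degree at most `r` has an independent set of proportion `1/(2r+1)` -/
theorem indep {V : Type*} (F : V → Finset V) (r : ℕ) :
    ∀ (n : ℕ) (Z : Finset V), Z.card = n → (∀ v ∈ Z, (F v).card ≤ r) → (∀ v ∈ Z, v ∉ F v) →
      ∃ Y ⊆ Z, Z.card ≤ (2 * r + 1) * Y.card ∧ ∀ u ∈ Y, ∀ v ∈ Y, u ∉ F v := by
  intro n
  induction n using Nat.strong_induction_on with
  | _ n ih =>
    intro Z hZ hF hself
    rcases Z.eq_empty_or_nonempty with rfl | hne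
    · exact ⟨∅, by simp, by simp, by simp⟩
    · -- a vertex of small in-degree
      obtain ⟨v, hv, hdeg⟩ : ∃ v ∈ Z, (Z.filter (fun u => v ∈ F u)).card ≤ r := by
        by_contra hcon
        push Not at hcon
        have h1 : ∑ v ∈ Z, (Z.filter (fun u => v ∈ F u)).card =
            ∑ u ∈ Z, (Z.filter (fun v => v ∈ F u)).card :=
          Finset.sum_card_bipartiteAbove_eq_sum_card_bipartiteBelow (fun v u => v ∈ F u)
        have h2 : ∑ u ∈ Z, (Z.filter (fun v => v ∈ F u)).card ≤ ∑ _u ∈ Z, r := by
          apply Finset.sum_le_sum
          intro u hu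
          refine (Finset.card_le_card ?_).trans (hF u hu)
          intro v hv
          exact (Finset.mem_filter.mp hv).2
        have h3 : ∑ _v ∈ Z, (r + 1) ≤ ∑ v ∈ Z, (Z.filter (fun u => v ∈ F u)).card := by
          apply Finset.sum_le_sum
          intro v hv
          exact hcon v hv
        rw [h1] at h3
        have h4 := h3.trans h2
        simp only [Finset.sum_const, smul_eq_mul] at h4
        have h5 : 0 < Z.card := Finset.card_pos.mpr hne
        nlinarith
      let Bad : Finset V := insert v (F v ∪ Z.filter (fun u => v ∈ F u))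
      let Z' := Z \ Bad
      have hvBad : v ∈ Bad := Finset.mem_insert_self _ _
      have hZ'lt : Z'.card < n := by
        rw [← hZ]
        apply Finset.card_lt_card
        refine ⟨Finset.sdiff_subset, ?_⟩
        intro hsub
        exact (Finset.mem_sdiff.mp (hsub hv)).2 hvBad
      have hZ'sub : Z' ⊆ Z := Finset.sdiff_subset
      obtain ⟨Y, hY, hcard, hind⟩ := ih Z'.card hZ'lt Z' rfl (fun u hu => hF u (hZ'sub hu))
        (fun u hu => hself u (hZ'sub hu))
      have hBadcard : Bad.card ≤ 2 * r + 1 := by
        calc Bad.card ≤ (F v ∪ Z.filter (fun u => v ∈ F u)).card + 1 :=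
              Finset.card_insert_le _ _
          _ ≤ ((F v).card + (Z.filter (fun u => v ∈ F u)).card) + 1 :=
              Nat.add_le_add_right (Finset.card_union_le _ _) _
          _ ≤ 2 * r + 1 := by have := hF v hv; omega
      have hZcard : Z.card ≤ Z'.card + Bad.card := by
        have h1 : Z ⊆ Z' ∪ Bad := by
          intro x hx
          by_cases hxB : x ∈ Bad
          · exact Finset.mem_union_right _ hxB
          · exact Finset.mem_union_left _ (Finset.mem_sdiff.mpr ⟨hx, hxB⟩)
        exact (Finset.card_le_card h1).trans (Finset.card_union_le _ _)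
      have hvY : v ∉ Y := fun h => (Finset.mem_sdiff.mp (hY h)).2 hvBad
      refine ⟨insert v Y, ?_, ?_, ?_⟩
      · intro x hx
        rcases Finset.mem_insert.mp hx with rfl | hx
        · exact hv
        · exact hZ'sub (hY hx)
      · rw [Finset.card_insert_of_notMem hvY, mul_add, mul_one]
        omega
      · intro a ha b hb
        have hnot : ∀ x ∈ Y, x ∉ F v ∧ v ∉ F x := by
          intro x hx
          have h1 := (Finset.mem_sdiff.mp (hY hx)).2
          have h2 := hZ'sub (hY hx)
          constructor
          · intro h3
            exact h1 (Finset.mem_insert_of_mem (Finset.mem_union_left _ h3))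
          · intro h3
            exact h1 (Finset.mem_insert_of_mem (Finset.mem_union_right _
              (Finset.mem_filter.mpr ⟨h2, h3⟩)))
        rcases Finset.mem_insert.mp ha with ha1 | ha1
        · rcases Finset.mem_insert.mp hb with hb1 | hb1
          · rw [ha1, hb1]
            exact hself _ hv
          · rw [ha1]
            exact (hnot b hb1).2
        · rcases Finset.mem_insert.mp hb with hb1 | hb1
          · rw [hb1]
            exact (hnot a ha1).1
          · exact hind a ha1 b hb1

end Pool.Agent.Y389.RT
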