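import Mathlib
import Pool.Agent.Y389.RT.Scale

set_option autoImplicit false

namespace Pool.Agent.Y389.RT

variable {V : Type*} {adj : V → V → Prop} {c : V → V → ℕ} {S : Finset V}

theorem card_le_one_of_no_arc (hT : ∀ u v, u ≠ v → (adj u v ∨ adj v u))
    (h : ¬ ∃ p, RP adj c S 1 p) : S.card ≤ 1 := by
  rw [Finset.card_le_one]
  intro a ha b hb
  by_contra hne
  rcases hT a b hne with hab | hab
  · refine h ⟨[a, b], rfl, by simpa using hne, by simpa using hab, ?_, by simp⟩
    intro x hx
    simp only [List.mem_cons, List.not_mem_nil, or_false] at hx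
    rcases hx with rfl | rfl <;> assumption
  · refine h ⟨[b, a], rfl, by simpa using Ne.symm hne, by simpa using hab, ?_, by simp⟩
    intro x hx
    simp only [List.mem_cons, List.not_mem_nil, or_false] at hx
    rcases hx with rfl | rfl <;> assumption

theorem clog_bound {m k : ℕ} (hm : m + 2 ≤ k) :
    Nat.clog 2 ((m + 2) * (m + 1)) ≤ 2 * Nat.clog 2 k := by
  apply Nat.clog_le_of_le_pow
  have h1 : k ≤ 2 ^ Nat.clog 2 k := Nat.le_pow_clog (by norm_num) k
  calc (m + 2) * (m + 1) ≤ k * k := Nat.mul_le_mul (by omega) (by omega)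
    _ ≤ 2 ^ Nat.clog 2 k * 2 ^ Nat.clog 2 k := Nat.mul_le_mul h1 h1
    _ = 2 ^ (2 * Nat.clog 2 k) := by rw [← pow_add]; congr 1; ring

open Classical in
theorem main_aux [Fintype V] (hirr : ∀ u, ¬ adj u u)
    (hT : ∀ u v, u ≠ v → (adj u v ∨ adj v u)) {l k : ℕ} (hl : 0 < l) (hk : 2 ≤ k) :
    ∀ m, m + 1 ≤ k → ∀ S : Finset V, NoMono adj c S l → (¬ ∃ p, RP adj c S (m + 1) p) →
      S.card ≤ (19 * Nat.clog 2 k * l) ^ m := by
  intro m
  induction m with
  | zero =>
    intro _ S _ h
    simpa using card_le_one_of_no_arc hT h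
  | succ m ih =>
    intro hmk S hmono h
    obtain ⟨G, hG, hN⟩ := hit hT (m := m + 1) (by omega) h
    set B := (19 * Nat.clog 2 k * l) ^ m with hBdef
    have hB : ∀ U ⊆ S, (¬ ∃ p, RP adj c U (m + 1) p) → U.card ≤ B := fun U hU hU2 =>
      ih (by omega) U (hmono.mono hU) hU2
    let deg : V → ℕ := fun v => ((Finset.univ : Finset {x // x ∈ G}).filter
      (fun g => Inc adj c S g.1 v)).card
    have hdegle : ∀ v, deg v ≤ (m + 2) * (m + 1) := by
      intro v
      have h1 : deg v ≤ Fintype.card {x // x ∈ G} := Finset.card_le_univ _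
      rw [Fintype.card_coe] at h1
      exact h1.trans hG
    let W : ℕ → Finset V := fun j => S.filter (fun v => deg v ≤ 2 ^ j ∧ 2 ^ j ≤ 2 * deg v)
    have hW : ∀ j, (W j).card ≤ 6 * (l * B) := by
      intro j
      have hpos : 0 < 2 ^ j := by positivity
      obtain ⟨q, hq⟩ : ∃ q, 2 ^ j = q + 1 := ⟨2 ^ j - 1, by omega⟩
      refine scale hirr hmono hB h G q (W j) (Finset.filter_subset _ _) ?_ ?_
      · intro v hv
        have := (Finset.mem_filter.mp hv).2.1
        rw [hq] at this
        exact this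
      · intro v hv
        have := (Finset.mem_filter.mp hv).2.2
        rw [hq] at this
        exact this
    let J := Nat.clog 2 ((m + 2) * (m + 1))
    let N := S.filter (fun v => ∀ γ ∈ G, ¬ Inc adj c S γ v)
    have hNc : N.card ≤ B := hB N (Finset.filter_subset _ _) hN
    have hcov : S ⊆ N ∪ (Finset.range (J + 1)).biUnion W := by
      intro v hv
      by_cases hd : deg v = 0
      · refine Finset.mem_union_left _ (Finset.mem_filter.mpr ⟨hv, ?_⟩)
        intro γ hγ hinc
        have h1 : (⟨γ, hγ⟩ : {x // x ∈ G}) ∈ (Finset.univ : Finset {x // x ∈ G}).filter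
            (fun g => Inc adj c S g.1 v) := by simpa using hinc
        have h2 : (Finset.univ : Finset {x // x ∈ G}).filter
            (fun g => Inc adj c S g.1 v) = ∅ := Finset.card_eq_zero.mp hd
        rw [h2] at h1
        simp at h1
      · refine Finset.mem_union_right _ (Finset.mem_biUnion.mpr ⟨Nat.clog 2 (deg v), ?_, ?_⟩)
        · rw [Finset.mem_range, Nat.lt_succ_iff]
          exact Nat.clog_mono_right 2 (hdegle v)
        · refine Finset.mem_filter.mpr ⟨hv, Nat.le_pow_clog (by norm_num) _, ?_⟩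
          rcases Nat.lt_or_ge 1 (deg v) with h1 | h1
          · have h2 := Nat.pow_pred_clog_lt_self (b := 2) (by norm_num) h1
            have h3 : 0 < Nat.clog 2 (deg v) := Nat.clog_pos (by norm_num) h1
            have h4 : 2 ^ Nat.clog 2 (deg v) = 2 * 2 ^ (Nat.clog 2 (deg v)).pred := by
              rw [← pow_succ']
              congr 1
              exact (Nat.succ_pred_eq_of_pos h3).symm
            rw [h4]
            exact Nat.mul_le_mul_left _ h2.le
          · have h2 : deg v = 1 := by omega
            rw [h2]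
            simp
    have hcard : S.card ≤ B + (J + 1) * (6 * (l * B)) := by
      calc S.card ≤ (N ∪ (Finset.range (J + 1)).biUnion W).card := Finset.card_le_card hcov
        _ ≤ N.card + ((Finset.range (J + 1)).biUnion W).card := Finset.card_union_le _ _
        _ ≤ B + ∑ j ∈ Finset.range (J + 1), (W j).card :=
            Nat.add_le_add hNc Finset.card_biUnion_le
        _ ≤ B + ∑ _j ∈ Finset.range (J + 1), 6 * (l * B) :=
            Nat.add_le_add_left (Finset.sum_le_sum (fun j _ => hW j)) _
        _ = B + (J + 1) * (6 * (l * B)) := by simp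
    have hJ : J ≤ 2 * Nat.clog 2 k := clog_bound (by omega)
    have hc : 1 ≤ Nat.clog 2 k := Nat.clog_pos (by norm_num) (by omega)
    set e := Nat.clog 2 k with he
    calc S.card ≤ B + (J + 1) * (6 * (l * B)) := hcard
      _ ≤ B + (2 * e + 1) * (6 * (l * B)) :=
          Nat.add_le_add_left (Nat.mul_le_mul_right _ (by omega)) _
      _ = B * (1 + (2 * e + 1) * (6 * l)) := by ring
      _ ≤ B * (19 * e * l) := by
          apply Nat.mul_le_mul_left
          nlinarith [Nat.mul_le_mul hc hl]
      _ = (19 * e * l) ^ (m + 1) := by rw [hBdef, pow_succ]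

theorem to_fin {n : ℕ} {adj : Fin n → Fin n → Prop} {c : Fin n → Fin n → ℕ} {k : ℕ}
    (h : ∃ p, RP adj c Finset.univ k p) :
    ∃ p : Fin (k + 1) → Fin n, Function.Injective p ∧
      (∀ i : Fin k, adj (p i.castSucc) (p i.succ)) ∧
      Function.Injective (fun i : Fin k => c (p i.castSucc) (p i.succ)) := by
  obtain ⟨p, h1, h2, h3, -, h5⟩ := h
  refine ⟨fun i => p[i.1]'(by rw [h1]; exact i.2), ?_, ?_, ?_⟩
  · intro i j hij
    have := (List.Nodup.getElem_inj_iff h2).mp hij
    exact Fin.ext this
  · intro i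
    exact List.isChain_iff_getElem.mp h3 i.1 (by rw [h1]; have := i.2; omega)
  · intro i j hij
    have hli : i.1 < (cols c p).length := by rw [cols_length, h1]; have := i.2; omega
    have hlj : j.1 < (cols c p).length := by rw [cols_length, h1]; have := j.2; omega
    have hi := cols_getElem c p i.1 hli (by rw [h1]; have := i.2; omega)
      (by rw [h1]; have := i.2; omega)
    have hj := cols_getElem c p j.1 hlj (by rw [h1]; have := j.2; omega)
      (by rw [h1]; have := j.2; omega)
    have h6 : (cols c p)[i.1] = (cols c p)[j.1] := by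
      rw [hi, hj]
      exact hij
    exact Fin.ext ((List.Nodup.getElem_inj_iff h5).mp h6)

theorem main {l k n : ℕ} (hl : 0 < l) (hk : 2 ≤ k) (hn : (19 * Nat.clog 2 k * l) ^ (k - 1) < n)
    (adj : Fin n → Fin n → Prop) (hirr : ∀ u, ¬ adj u u)
    (hT : ∀ u v, u ≠ v → (adj u v ↔ ¬ adj v u)) (c : Fin n → Fin n → ℕ) :
    (∃ p : Fin (l + 1) → Fin n,
        Function.Injective p ∧
        (∀ i : Fin l, adj (p i.castSucc) (p i.succ)) ∧
        (∀ i j : Fin l, c (p i.castSucc) (p i.succ) = c (p j.castSucc) (p j.succ))) ∨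
    (∃ p : Fin (k + 1) → Fin n,
        Function.Injective p ∧
        (∀ i : Fin k, adj (p i.castSucc) (p i.succ)) ∧
        Function.Injective (fun i : Fin k => c (p i.castSucc) (p i.succ))) := by
  classical
  by_contra hcon
  push Not at hcon
  obtain ⟨hm, hr⟩ := hcon
  have hT' : ∀ u v, u ≠ v → (adj u v ∨ adj v u) := by
    intro u v huv
    by_cases h : adj v u
    · exact Or.inr h
    · exact Or.inl ((hT u v huv).mpr h)
  have hmono : NoMono adj c Finset.univ l := by
    intro γ hex
    obtain ⟨p, h1, h2, h3⟩ := hex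
    have h4 := List.isChain_iff_getElem.mp h3
    obtain ⟨i, j, hij⟩ := hm (fun i => p[i.1]'(by rw [h1]; exact i.2)) (by
      intro i j hij
      exact Fin.ext ((List.Nodup.getElem_inj_iff h2).mp hij)) (by
      intro i
      exact (h4 i.1 (by rw [h1]; have := i.2; omega)).2.2.1)
    apply hij
    have hi := (h4 i.1 (by rw [h1]; have := i.2; omega)).2.2.2
    have hj := (h4 j.1 (by rw [h1]; have := j.2; omega)).2.2.2
    exact hi.trans hj.symm
  have hno : ¬ ∃ p, RP adj c Finset.univ k p := by
    intro hex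
    obtain ⟨p, h1, h2, h3⟩ := to_fin hex
    exact hr p h1 h2 h3
  obtain ⟨m, rfl⟩ : ∃ m, k = m + 1 := ⟨k - 1, by omega⟩
  have := main_aux (c := c) hirr hT' hl hk m le_rfl Finset.univ hmono hno
  rw [Finset.card_univ, Fintype.card_fin] at this
  simp only [Nat.add_sub_cancel] at hn
  omega

end Pool.Agent.Y389.RT
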