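import Mathlib
import Pool.Agent.Y389.RT.Main

set_option autoImplicit false

namespace Pool.Agent.Y389.RT

variable {V : Type*} {adj : V → V → Prop} {c : V → V → ℕ} {S : Finset V}

theorem cols_append_cons (c : V → V → ℕ) (a : V) (q : List V) :
    ∀ p : List V, cols c (p ++ a :: q) = cols c (p ++ [a]) ++ cols c (a :: q)
  | [] => by simp
  | [x] => by simp
  | (x :: y :: t) => by
    have := cols_append_cons c a q (y :: t)
    simp only [List.cons_append, cols_cons_cons] at this ⊢
    rw [this]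

/-- `p` is a rainbow path inside `S` whose set of colours is `A` -/
def RA (adj : V → V → Prop) (c : V → V → ℕ) (S : Finset V) (p : List V) (A : Finset ℕ) : Prop :=
  p.Nodup ∧ p.IsChain adj ∧ (∀ x ∈ p, x ∈ S) ∧ (cols c p).Nodup ∧ (cols c p).toFinset = A

theorem RA.mono {U : Finset V} {p : List V} {A : Finset ℕ} (h : RA adj c U p A) (hU : U ⊆ S) :
    RA adj c S p A :=
  ⟨h.1, h.2.1, fun x hx => hU (h.2.2.1 x hx), h.2.2.2⟩

theorem RA.mem_iff {p : List V} {A : Finset ℕ} (h : RA adj c S p A) (γ : ℕ) :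
    γ ∈ cols c p ↔ γ ∈ A := by
  rw [← h.2.2.2.2, List.mem_toFinset]

theorem RA.length {p : List V} {A : Finset ℕ} (h : RA adj c S p A) (hp : p ≠ []) :
    p.length = A.card + 1 := by
  have h1 : A.card = (cols c p).length := by
    rw [← h.2.2.2.2]
    exact List.toFinset_card_of_nodup h.2.2.2.1
  rw [h1, cols_length]
  have : 0 < p.length := List.length_pos_of_ne_nil hp
  omega

theorem RA.toRP {p : List V} {A : Finset ℕ} (h : RA adj c S p A) (hp : p ≠ []) {m : ℕ}
    (hm : A.card = m) : RP adj c S m p :=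
  ⟨by rw [h.length hp, hm], h.1, h.2.1, h.2.2.1, h.2.2.2.1⟩

theorem RA.front {x : V} {t : List V} {A : Finset ℕ} (h : RA adj c S (x :: t) A) {w : V}
    (hw : w ∈ S) (hwx : adj w x) (hn : w ∉ x :: t) (hc : c w x ∉ A) :
    RA adj c S (w :: x :: t) (insert (c w x) A) := by
  have hc' : c w x ∉ cols c (x :: t) := fun hm => hc ((h.mem_iff _).mp hm)
  obtain ⟨h1, h2, h3, h4, h5⟩ := h
  refine ⟨List.nodup_cons.mpr ⟨hn, h1⟩, List.isChain_cons_cons.mpr ⟨hwx, h2⟩, ?_, ?_, ?_⟩
  · intro y hy
    rcases List.mem_cons.mp hy with rfl | hy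
    · exact hw
    · exact h3 y hy
  · rw [cols_cons_cons]
    exact List.nodup_cons.mpr ⟨hc', h4⟩
  · rw [cols_cons_cons, List.toFinset_cons, h5]

theorem RA.back {p : List V} {x : V} {A : Finset ℕ} (h : RA adj c S (p ++ [x]) A) {w : V}
    (hw : w ∈ S) (hwx : adj x w) (hn : w ∉ p ++ [x]) (hc : c x w ∉ A) :
    RA adj c S (p ++ [x] ++ [w]) (insert (c x w) A) := by
  have hc' : c x w ∉ cols c (p ++ [x]) := fun hm => hc ((h.mem_iff _).mp hm)
  obtain ⟨h1, h2, h3, h4, h5⟩ := h
  have hcols : cols c (p ++ [x] ++ [w]) = cols c (p ++ [x]) ++ [c x w] := by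
    rw [cols_append c w (p ++ [x]) (by simp)]
    simp
  refine ⟨?_, ?_, ?_, ?_, ?_⟩
  · rw [List.nodup_append]
    refine ⟨h1, by simp, ?_⟩
    intro a ha b hb
    simp only [List.mem_singleton] at hb
    rintro rfl
    exact hn (hb ▸ ha)
  · rw [List.isChain_append]
    refine ⟨h2, by simp, ?_⟩
    intro a ha b hb
    simp only [List.head?_cons, Option.mem_def, Option.some.injEq] at hb
    simp only [List.getLast?_append, List.getLast?_singleton, Option.some_or, Option.mem_def,
      Option.some.injEq] at ha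
    rw [← hb, ← ha]
    exact hwx
  · intro y hy
    rcases List.mem_append.mp hy with hy | hy
    · exact h3 y hy
    · simp only [List.mem_singleton] at hy
      exact hy ▸ hw
  · rw [hcols, List.nodup_append]
    refine ⟨h4, by simp, ?_⟩
    intro a ha b hb
    simp only [List.mem_singleton] at hb
    rintro rfl
    exact hc' (hb ▸ ha)
  · rw [hcols, List.toFinset_append, h5]
    ext γ
    simp [or_comm]

/-- rainbow in-path at `v` with colour set `A` -/
def InP (adj : V → V → Prop) (c : V → V → ℕ) (S : Finset V) (v : V) (A : Finset ℕ) : Prop :=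
  ∃ p, RA adj c S (p ++ [v]) A

/-- rainbow out-path at `v` with colour set `A` -/
def OutP (adj : V → V → Prop) (c : V → V → ℕ) (S : Finset V) (v : V) (A : Finset ℕ) : Prop :=
  ∃ t, RA adj c S (v :: t) A

def Rich (adj : V → V → Prop) (c : V → V → ℕ) (S : Finset V) (v : V) (M : Finset ℕ) : Prop :=
  ∀ A ⊆ M, InP adj c S v A ∧ OutP adj c S v A

theorem Rich.mono {U : Finset V} {v : V} {M : Finset ℕ} (h : Rich adj c U v M) (hU : U ⊆ S) :
    Rich adj c S v M := by
  intro A hA
  obtain ⟨⟨p, hp⟩, ⟨t, ht⟩⟩ := h A hA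
  exact ⟨⟨p, hp.mono hU⟩, ⟨t, ht.mono hU⟩⟩

/-- lifting richness from a class of the colour `γ` -/
theorem Rich.lift {U : Finset V} (hU : U ⊆ S) {γ : ℕ}
    (h0 : ∀ u ∈ U, ∀ v ∈ U, adj u v → c u v ≠ γ)
    (hin : ∀ v ∈ U, ∃ w ∈ S, adj w v ∧ c w v = γ)
    (hout : ∀ v ∈ U, ∃ w ∈ S, adj v w ∧ c v w = γ)
    {v : V} {M : Finset ℕ} (h : Rich adj c U v M) :
    γ ∉ M ∧ Rich adj c S v (insert γ M) := by
  have hnone : ∀ p A, RA adj c U p A → γ ∉ A := by
    intro p A hp hγ
    obtain ⟨x, hx, y, hy, hxy, hc⟩ := mem_cols hp.2.1 ((hp.mem_iff γ).mpr hγ)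
    exact h0 x (hp.2.2.1 x hx) y (hp.2.2.1 y hy) hxy hc
  refine ⟨?_, ?_⟩
  · intro hγ
    obtain ⟨⟨p, hp⟩, _⟩ := h M (Finset.Subset.refl _)
    exact hnone _ _ hp hγ
  · intro A hA
    by_cases hγ : γ ∈ A
    · have hA' : A.erase γ ⊆ M := by
        intro x hx
        have h1 := hA (Finset.mem_of_mem_erase hx)
        rcases Finset.mem_insert.mp h1 with h2 | h2
        · exact absurd h2 (Finset.ne_of_mem_erase hx)
        · exact h2
      obtain ⟨⟨p, hp⟩, ⟨t, ht⟩⟩ := h _ hA'
      constructor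
      · -- in-path: extend at the front
        obtain ⟨x, s, hs⟩ : ∃ x s, p ++ [v] = x :: s := by
          cases p with
          | nil => exact ⟨v, [], rfl⟩
          | cons x s => exact ⟨x, s ++ [v], rfl⟩
        rw [hs] at hp
        obtain ⟨w, hw, hwx, hc⟩ := hin x (hp.2.2.1 x (by simp))
        have hwn : w ∉ x :: s := fun hm => h0 w (hp.2.2.1 w hm) x (hp.2.2.1 x (by simp)) hwx hc
        have h1 := (hp.mono hU).front hw hwx hwn (by rw [hc]; simp)
        rw [hc, Finset.insert_erase hγ] at h1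
        refine ⟨w :: p, ?_⟩
        rw [List.cons_append, hs]
        exact h1
      · -- out-path: extend at the end
        obtain ⟨x, s, hs⟩ : ∃ x s, v :: t = s ++ [x] := by
          refine ⟨(v :: t).getLast (by simp), (v :: t).dropLast, ?_⟩
          rw [List.dropLast_append_getLast]
        rw [hs] at ht
        obtain ⟨w, hw, hwx, hc⟩ := hout x (ht.2.2.1 x (by simp))
        have hwn : w ∉ s ++ [x] := fun hm =>
          h0 x (ht.2.2.1 x (by simp)) w (ht.2.2.1 w hm) hwx hc
        have h1 := (ht.mono hU).back hw hwx hwn (by rw [hc]; simp)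
        rw [hc, Finset.insert_erase hγ] at h1
        refine ⟨t ++ [w], ?_⟩
        rw [← List.cons_append, hs]
        exact h1
    · have hA' : A ⊆ M := by
        intro x hx
        rcases Finset.mem_insert.mp (hA hx) with h2 | h2
        · exact absurd (h2 ▸ hx) hγ
        · exact h2
      obtain ⟨⟨p, hp⟩, ⟨t, ht⟩⟩ := h A hA'
      exact ⟨⟨p, hp.mono hU⟩, ⟨t, ht.mono hU⟩⟩

theorem rich_empty {v : V} (hv : v ∈ S) : Rich adj c S v ∅ := by
  intro A hA
  rw [Finset.subset_empty] at hA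
  subst hA
  have : RA adj c S [v] ∅ := by
    refine ⟨by simp, by simp, ?_, by simp, by simp⟩
    intro x hx
    simp only [List.mem_singleton] at hx
    exact hx ▸ hv
  exact ⟨⟨[], this⟩, ⟨[], this⟩⟩

theorem RP.mono' {U : Finset V} {p : List V} {m : ℕ} (h : RP adj c U m p) (hU : U ⊆ S) :
    RP adj c S m p :=
  ⟨h.1, h.2.1, h.2.2.1, fun x hx => hU (h.2.2.2.1 x hx), h.2.2.2.2⟩

/-- the error terms -/
def EE (K l : ℕ) : ℕ → ℕ
  | 0 => 0
  | m + 1 => (K * l) ^ m + ((m + 2) * (m + 1)) * (2 * (K * l) ^ m + l * EE K l m)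

open Classical in
theorem weak_count [Fintype V] (hirr : ∀ u, ¬ adj u u)
    (hT : ∀ u v, u ≠ v → (adj u v ∨ adj v u)) {l k : ℕ} (hl : 0 < l) (hk : 2 ≤ k) :
    ∀ m, m + 1 ≤ k → ∀ S : Finset V, NoMono adj c S l → (¬ ∃ p, RP adj c S (m + 1) p) →
      (S.filter (fun v => ¬ ∃ M : Finset ℕ, M.card = m ∧ Rich adj c S v M)).card ≤
        EE (19 * Nat.clog 2 k) l m := by
  intro m
  induction m with
  | zero =>
    intro _ S _ _
    rw [Finset.filter_eq_empty_iff.mpr]
    · simp
    · intro v hv hcon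
      exact hcon ⟨∅, rfl, rich_empty hv⟩
  | succ m ih =>
    intro hmk S hmono h
    obtain ⟨G, hG, hN⟩ := hit hT (m := m + 1) (by omega) h
    set B := (19 * Nat.clog 2 k * l) ^ m with hBdef
    have hB : ∀ U ⊆ S, (¬ ∃ p, RP adj c U (m + 1) p) → U.card ≤ B := fun U hU hU2 =>
      main_aux hirr hT hl hk m (by omega) U (hmono.mono hU) hU2
    choose lam hlam1 hlam2 hlam3 hlam4 using fun γ : ℕ =>
      gallai_roy (fun x y => x ∈ S ∧ y ∈ S ∧ adj x y ∧ c x y = γ)
        (fun x hx => hirr x hx.2.2.1) l (hmono γ)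
    let hasOut : ℕ → V → Prop := fun γ v => ∃ w ∈ S, adj v w ∧ c v w = γ
    let hasIn : ℕ → V → Prop := fun γ v => ∃ w ∈ S, adj w v ∧ c w v = γ
    let Src : ℕ → Finset V := fun γ => S.filter (fun v => hasOut γ v ∧ ¬ hasIn γ v)
    let Snk : ℕ → Finset V := fun γ => S.filter (fun v => hasIn γ v ∧ ¬ hasOut γ v)
    let Mid : ℕ → ℕ → Finset V := fun γ j =>
      S.filter (fun v => hasIn γ v ∧ hasOut γ v ∧ lam γ v = j)
    let NR : ℕ → ℕ → Finset V := fun γ j =>
      (Mid γ j).filter (fun v => ¬ ∃ M : Finset ℕ, M.card = m ∧ Rich adj c (Mid γ j) v M)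
    have hSrc : ∀ γ, (Src γ).card ≤ B := by
      intro γ
      apply hB _ (Finset.filter_subset _ _)
      intro hex
      refine h (step_out (D := {γ}) (Finset.filter_subset _ _) ?_ ?_ hex)
      · intro u hu v hv huv hD
        exact (Finset.mem_filter.mp hv).2.2 ⟨u, (Finset.mem_filter.mp hu).1, huv, hD⟩
      · intro v hv
        obtain ⟨w, hw, h1, h2⟩ := (Finset.mem_filter.mp hv).2.1
        exact ⟨w, hw, h1, h2⟩
    have hSnk : ∀ γ, (Snk γ).card ≤ B := by
      intro γ
      apply hB _ (Finset.filter_subset _ _)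
      intro hex
      refine h (step_in (D := {γ}) (Finset.filter_subset _ _) ?_ ?_ hex)
      · intro u hu v hv huv hD
        exact (Finset.mem_filter.mp hu).2.2 ⟨v, (Finset.mem_filter.mp hv).1, huv, hD⟩
      · intro v hv
        obtain ⟨w, hw, h1, h2⟩ := (Finset.mem_filter.mp hv).2.1
        exact ⟨w, hw, h1, h2⟩
    have hMid0 : ∀ γ j, ∀ u ∈ Mid γ j, ∀ v ∈ Mid γ j, adj u v → c u v ≠ γ := by
      intro γ j u hu v hv huv hc
      obtain ⟨huS, -, -, huj⟩ := Finset.mem_filter.mp hu
      obtain ⟨hvS, -, -, hvj⟩ := Finset.mem_filter.mp hv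
      exact hlam2 γ u v ⟨huS, hvS, huv, hc⟩ (huj.trans hvj.symm)
    have hNR : ∀ γ j, (NR γ j).card ≤ EE (19 * Nat.clog 2 k) l m := by
      intro γ j
      apply ih (by omega) (Mid γ j) (hmono.mono (Finset.filter_subset _ _))
      intro hex
      refine h (step_in (D := {γ}) (Finset.filter_subset _ _) ?_ ?_ hex)
      · intro u hu v hv huv hD
        exact hMid0 γ j u hu v hv huv hD
      · intro v hv
        obtain ⟨w, hw, h1, h2⟩ := (Finset.mem_filter.mp hv).2.1
        exact ⟨w, hw, h1, h2⟩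
    let N := S.filter (fun v => ∀ γ ∈ G, ¬ Inc adj c S γ v)
    have hNc : N.card ≤ B := hB N (Finset.filter_subset _ _) hN
    have hcov : S.filter (fun v => ¬ ∃ M : Finset ℕ, M.card = m + 1 ∧ Rich adj c S v M) ⊆
        N ∪ G.biUnion (fun γ => (Src γ ∪ Snk γ) ∪ (Finset.range l).biUnion (NR γ)) := by
      intro v hv
      obtain ⟨hvS, hvn⟩ := Finset.mem_filter.mp hv
      by_cases hinc : ∀ γ ∈ G, ¬ Inc adj c S γ v
      · exact Finset.mem_union_left _ (Finset.mem_filter.mpr ⟨hvS, hinc⟩)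
      · push Not at hinc
        obtain ⟨γ, hγ, w, hw, hw'⟩ := hinc
        refine Finset.mem_union_right _ (Finset.mem_biUnion.mpr ⟨γ, hγ, ?_⟩)
        by_cases ho : hasOut γ v
        · by_cases hi : hasIn γ v
          · refine Finset.mem_union_right _ (Finset.mem_biUnion.mpr
              ⟨lam γ v, Finset.mem_range.mpr (hlam1 γ v), ?_⟩)
            refine Finset.mem_filter.mpr ⟨Finset.mem_filter.mpr ⟨hvS, hi, ho, rfl⟩, ?_⟩
            rintro ⟨M, hM, hrich⟩
            obtain ⟨h1, h2⟩ := hrich.lift (S := S) (γ := γ) (Finset.filter_subset _ _)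
              (hMid0 γ (lam γ v))
              (fun u hu => (Finset.mem_filter.mp hu).2.1)
              (fun u hu => (Finset.mem_filter.mp hu).2.2.1)
            exact hvn ⟨insert γ M, by rw [Finset.card_insert_of_notMem h1, hM], h2⟩
          · exact Finset.mem_union_left _ (Finset.mem_union_left _
              (Finset.mem_filter.mpr ⟨hvS, ho, hi⟩))
        · have hi : hasIn γ v := by
            rcases hw' with h1 | h1
            · exact absurd ⟨w, hw, h1⟩ ho
            · exact ⟨w, hw, h1⟩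
          exact Finset.mem_union_left _ (Finset.mem_union_right _
            (Finset.mem_filter.mpr ⟨hvS, hi, ho⟩))
    set E := EE (19 * Nat.clog 2 k) l m with hE
    have hstep : ∀ γ ∈ G, ((Src γ ∪ Snk γ) ∪ (Finset.range l).biUnion (NR γ)).card ≤
        2 * B + l * E := by
      intro γ _
      calc ((Src γ ∪ Snk γ) ∪ (Finset.range l).biUnion (NR γ)).card
          ≤ (Src γ ∪ Snk γ).card + ((Finset.range l).biUnion (NR γ)).card :=
            Finset.card_union_le _ _
        _ ≤ ((Src γ).card + (Snk γ).card) + ∑ j ∈ Finset.range l, (NR γ j).card :=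
            Nat.add_le_add (Finset.card_union_le _ _) Finset.card_biUnion_le
        _ ≤ (B + B) + ∑ _j ∈ Finset.range l, E :=
            Nat.add_le_add (Nat.add_le_add (hSrc γ) (hSnk γ))
              (Finset.sum_le_sum (fun j _ => hNR γ j))
        _ = 2 * B + l * E := by simp; ring
    calc _ ≤ (N ∪ G.biUnion (fun γ => (Src γ ∪ Snk γ) ∪
            (Finset.range l).biUnion (NR γ))).card := Finset.card_le_card hcov
      _ ≤ N.card + (G.biUnion (fun γ => (Src γ ∪ Snk γ) ∪
            (Finset.range l).biUnion (NR γ))).card := Finset.card_union_le _ _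
      _ ≤ B + ∑ γ ∈ G, ((Src γ ∪ Snk γ) ∪ (Finset.range l).biUnion (NR γ)).card :=
          Nat.add_le_add hNc Finset.card_biUnion_le
      _ ≤ B + ∑ _γ ∈ G, (2 * B + l * E) := Nat.add_le_add_left (Finset.sum_le_sum hstep) _
      _ = B + G.card * (2 * B + l * E) := by simp
      _ ≤ B + ((m + 2) * (m + 1)) * (2 * B + l * E) :=
          Nat.add_le_add_left (Nat.mul_le_mul_right _ hG) _
      _ = EE (19 * Nat.clog 2 k) l (m + 1) := by
          rw [EE]

end Pool.Agent.Y389.RT
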