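import Mathlib
import Pool.Agent.Y389.RT.Rich
import Pool.Agent.Y389.RT.Indep

set_option autoImplicit false

namespace Pool.Agent.Y389.RT

variable {V : Type*} {adj : V → V → Prop} {c : V → V → ℕ} {S : Finset V}

/-- joining an in-path at `a` and an out-path at `b` through the arc `a → b` -/
theorem join {p t : List V} {a b : V} {A B : Finset ℕ} (hp : RA adj c S (p ++ [a]) A)
    (ht : RA adj c S (b :: t) B) (hab : adj a b) (hd : ∀ x ∈ p ++ [a], x ∉ b :: t)
    (hAB : Disjoint A B) (hA : c a b ∉ A) (hB : c a b ∉ B) :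
    RA adj c S (p ++ a :: b :: t) (insert (c a b) (A ∪ B)) := by
  have hcols : cols c (p ++ a :: b :: t) = cols c (p ++ [a]) ++ c a b :: cols c (b :: t) := by
    rw [cols_append_cons, cols_cons_cons]
  have hsplit : p ++ a :: b :: t = (p ++ [a]) ++ (b :: t) := by simp
  have hA' : c a b ∉ cols c (p ++ [a]) := fun h => hA ((hp.mem_iff _).mp h)
  have hB' : c a b ∉ cols c (b :: t) := fun h => hB ((ht.mem_iff _).mp h)
  refine ⟨?_, ?_, ?_, ?_, ?_⟩
  · rw [hsplit, List.nodup_append]
    refine ⟨hp.1, ht.1, ?_⟩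
    intro x hx y hy
    rintro rfl
    exact hd x hx hy
  · rw [hsplit, List.isChain_append]
    refine ⟨hp.2.1, ht.2.1, ?_⟩
    intro x hx y hy
    simp only [List.head?_cons, Option.mem_def, Option.some.injEq] at hy
    simp only [List.getLast?_append, List.getLast?_singleton, Option.some_or, Option.mem_def,
      Option.some.injEq] at hx
    rw [← hx, ← hy]
    exact hab
  · rw [hsplit]
    intro x hx
    rcases List.mem_append.mp hx with hx | hx
    · exact hp.2.2.1 x hx
    · exact ht.2.2.1 x hx
  · rw [hcols, List.nodup_append]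
    refine ⟨hp.2.2.2.1, List.nodup_cons.mpr ⟨hB', ht.2.2.2.1⟩, ?_⟩
    intro x hx y hy
    rintro rfl
    rcases List.mem_cons.mp hy with h | h
    · exact hA' (h ▸ hx)
    · exact Finset.disjoint_left.mp hAB ((hp.mem_iff _).mp hx) ((ht.mem_iff _).mp h)
  · rw [hcols, List.toFinset_append, List.toFinset_cons, hp.2.2.2.2, ht.2.2.2.2]
    ext γ
    simp only [Finset.mem_union, Finset.mem_insert]
    tauto

theorem RA.single {v : V} (hv : v ∈ S) : RA adj c S [v] ∅ := by
  refine ⟨by simp, by simp, ?_, by simp, by simp⟩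
  intro x hx
  simp only [List.mem_singleton] at hx
  exact hx ▸ hv

open Classical in
/-- robust richness: the colour set `M` works after deleting any `m` vertices -/
def Robust (adj : V → V → Prop) (c : V → V → ℕ) (S : Finset V) (m : ℕ) (v : V)
    (M : Finset ℕ) : Prop :=
  M.card = m ∧ ∀ F : Finset V, F.card ≤ m → v ∉ F → Rich adj c (S \ F) v M

open Classical in
theorem not_robust {m : ℕ} (h : ¬ ∃ p, RP adj c S (m + 1) p) {v : V}
    (hn : ¬ ∃ M, Robust adj c S m v M) :
    ∃ F : Finset V, F.card ≤ 2 * m ∧ v ∉ F ∧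
      ¬ ∃ M : Finset ℕ, M.card = m ∧ Rich adj c (S \ F) v M := by
  by_cases hex : ∃ M : Finset ℕ, M.card = m ∧ Rich adj c S v M
  · obtain ⟨M0, hM0, hrich⟩ := hex
    have h1 : ∃ F : Finset V, F.card ≤ m ∧ v ∉ F ∧ ¬ Rich adj c (S \ F) v M0 := by
      by_contra hcon
      push Not at hcon
      exact hn ⟨M0, hM0, fun F hF hv => hcon F hF hv⟩
    obtain ⟨F', hF', hvF', hnF'⟩ := h1
    obtain ⟨⟨p, hp⟩, _⟩ := hrich M0 (Finset.Subset.refl _)
    have hvp : v ∉ p := by
      have := hp.1
      rw [List.nodup_append] at this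
      intro hv
      exact this.2.2 v hv v (by simp) rfl
    have hlen : p.length = m := by
      have := hp.length (by simp)
      simp only [List.length_append, List.length_cons, List.length_nil] at this
      omega
    refine ⟨F' ∪ p.toFinset, ?_, ?_, ?_⟩
    · refine (Finset.card_union_le _ _).trans ?_
      have := List.toFinset_card_le p
      omega
    · rw [Finset.mem_union, not_or]
      exact ⟨hvF', by simpa using hvp⟩
    · rintro ⟨M1, hM1, hrich1⟩
      by_cases heq : M1 ⊆ M0
      · have h2 : M1 = M0 := Finset.eq_of_subset_of_card_le heq (by omega)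
        subst h2
        apply hnF'
        refine hrich1.mono ?_
        intro x hx
        rw [Finset.mem_sdiff] at hx ⊢
        exact ⟨hx.1, fun h3 => hx.2 (Finset.mem_union_left _ h3)⟩
      · obtain ⟨β, hβ1, hβ0⟩ := Finset.not_subset.mp heq
        obtain ⟨_, ⟨t, ht⟩⟩ := hrich1 {β} (by simpa using hβ1)
        have hlen2 := ht.length (by simp)
        obtain ⟨y, rfl⟩ : ∃ y, t = [y] := by
          simp only [List.length_cons, Finset.card_singleton] at hlen2
          exact List.length_eq_one_iff.mp (by omega)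
        have hcol : c v y = β := by
          have := ht.2.2.2.2
          simp only [cols_cons_cons, cols_single, List.toFinset_cons, List.toFinset_nil,
            insert_empty_eq, Finset.singleton_inj] at this
          exact this
        have hvy : adj v y := by
          have := ht.2.1
          rw [List.isChain_cons_cons] at this
          exact this.1
        have hyS := ht.2.2.1 y (by simp)
        rw [Finset.mem_sdiff, Finset.mem_union, not_or] at hyS
        have hyp : y ∉ p ++ [v] := by
          intro hy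
          rcases List.mem_append.mp hy with hy | hy
          · exact hyS.2.2 (by simpa using hy)
          · have h3 := ht.1
            simp only [List.mem_singleton] at hy
            rw [hy] at h3
            simp at h3
        have h4 := hp.back hyS.1 hvy hyp (by rw [hcol]; exact hβ0)
        rw [hcol] at h4
        exact h ⟨_, h4.toRP (by simp) (by rw [Finset.card_insert_of_notMem hβ0, hM0])⟩
  · exact ⟨∅, by simp, by simp, by simpa using hex⟩

open Classical in
theorem robust_count [Fintype V] (hirr : ∀ u, ¬ adj u u)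
    (hT : ∀ u v, u ≠ v → (adj u v ∨ adj v u)) {l k : ℕ} (hl : 0 < l) (hk : 2 ≤ k) (m : ℕ)
    (hmk : m + 1 ≤ k) (S : Finset V) (hmono : NoMono adj c S l)
    (h : ¬ ∃ p, RP adj c S (m + 1) p) :
    (S.filter (fun v => ¬ ∃ M, Robust adj c S m v M)).card ≤
      (4 * m + 1) * EE (19 * Nat.clog 2 k) l m := by
  have hF : ∀ v : V, ∃ F : Finset V, (¬ ∃ M, Robust adj c S m v M) →
      (F.card ≤ 2 * m ∧ v ∉ F ∧ ¬ ∃ M : Finset ℕ, M.card = m ∧ Rich adj c (S \ F) v M) := by
    intro v
    by_cases hv : ¬ ∃ M, Robust adj c S m v M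
    · obtain ⟨F, hF⟩ := not_robust h hv
      exact ⟨F, fun _ => hF⟩
    · exact ⟨∅, fun hv' => absurd hv' hv⟩
  choose F hF using hF
  set Z := S.filter (fun v => ¬ ∃ M, Robust adj c S m v M) with hZ
  have hZm : ∀ v ∈ Z, ¬ ∃ M, Robust adj c S m v M := fun v hv => (Finset.mem_filter.mp hv).2
  obtain ⟨Y, hYZ, hcard, hind⟩ := indep F (2 * m) Z.card Z rfl
    (fun v hv => (hF v (hZm v hv)).1) (fun v hv => (hF v (hZm v hv)).2.1)
  have hYS : Y ⊆ S := hYZ.trans (Finset.filter_subset _ _)
  have hYE : Y.card ≤ EE (19 * Nat.clog 2 k) l m := by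
    have h1 := weak_count hirr hT hl hk m hmk Y (hmono.mono hYS) (fun hex => by
      obtain ⟨p, hp⟩ := hex
      exact h ⟨p, hp.mono' hYS⟩)
    rw [Finset.filter_true_of_mem] at h1
    · exact h1
    · intro v hv
      rintro ⟨M, hM, hrich⟩
      refine (hF v (hZm v (hYZ hv))).2.2 ⟨M, hM, hrich.mono ?_⟩
      intro u hu
      exact Finset.mem_sdiff.mpr ⟨hYS hu, hind u hu v hv⟩
  calc Z.card ≤ (2 * (2 * m) + 1) * Y.card := hcard
    _ ≤ (2 * (2 * m) + 1) * EE (19 * Nat.clog 2 k) l m := Nat.mul_le_mul_left _ hYE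
    _ = (4 * m + 1) * EE (19 * Nat.clog 2 k) l m := by ring

open Classical in
/-- all arcs between robust vertices use one common set of colours -/
theorem robust_pair {m : ℕ} (hm : 1 ≤ m) (h : ¬ ∃ p, RP adj c S (m + 1) p) {a b : V}
    (haS : a ∈ S) (hbS : b ∈ S) (hne : a ≠ b)
    (hab : adj a b) {M M' : Finset ℕ} (ha : Robust adj c S m a M) (hb : Robust adj c S m b M') :
    M = M' ∧ c a b ∈ M := by
  have hgM : c a b ∈ M := by
    by_contra hg
    obtain ⟨⟨p, hp⟩, _⟩ := ha.2 {b} (by simpa using hm) (by simpa using hne) M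
      (Finset.Subset.refl _)
    have hbp : b ∉ p ++ [a] := fun hb' => by
      have := hp.2.2.1 b hb'
      simp at this
    have h1 := (hp.mono Finset.sdiff_subset).back hbS hab hbp hg
    exact h ⟨_, h1.toRP (by simp) (by rw [Finset.card_insert_of_notMem hg, ha.1])⟩
  have hgM' : c a b ∈ M' := by
    by_contra hg
    obtain ⟨_, ⟨t, ht⟩⟩ := hb.2 {a} (by simpa using hm) (by simpa using hne.symm) M'
      (Finset.Subset.refl _)
    have hat : a ∉ b :: t := fun ha' => by
      have := ht.2.2.1 a ha'
      simp at this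
    have h1 := (ht.mono Finset.sdiff_subset).front haS hab hat hg
    exact h ⟨_, h1.toRP (by simp) (by rw [Finset.card_insert_of_notMem hg, hb.1])⟩
  have hsub : M' ⊆ M := by
    intro β hβ
    by_contra hβM
    obtain ⟨⟨p, hp⟩, _⟩ := ha.2 {b} (by simpa using hm) (by simpa using hne) (M.erase (c a b))
      (Finset.erase_subset _ _)
    have hlenp := hp.length (by simp)
    rw [Finset.card_erase_of_mem hgM, ha.1] at hlenp
    have hFcard : (p ++ [a]).toFinset.card ≤ m := by
      refine (List.toFinset_card_le _).trans ?_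
      omega
    have hbp : b ∉ p ++ [a] := fun hb' => by
      have := hp.2.2.1 b hb'
      simp at this
    obtain ⟨_, ⟨t, ht⟩⟩ := hb.2 (p ++ [a]).toFinset hFcard (by rwa [List.mem_toFinset]) {β}
      (by simpa using hβ)
    have hd : ∀ x ∈ p ++ [a], x ∉ b :: t := by
      intro x hx hxt
      have := ht.2.2.1 x hxt
      rw [Finset.mem_sdiff, List.mem_toFinset] at this
      exact this.2 hx
    have hgβ : c a b ≠ β := fun heq => hβM (heq ▸ hgM)
    have hj := join (hp.mono Finset.sdiff_subset) (ht.mono Finset.sdiff_subset) hab hd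
      (by
        rw [Finset.disjoint_singleton_right]
        intro h2
        exact hβM (Finset.mem_of_mem_erase h2))
      (by simp) (by simpa using hgβ)
    refine h ⟨_, hj.toRP (by simp) ?_⟩
    rw [Finset.card_insert_of_notMem, Finset.card_union_of_disjoint, Finset.card_erase_of_mem hgM,
      ha.1, Finset.card_singleton]
    · omega
    · rw [Finset.disjoint_singleton_right]
      intro h2
      exact hβM (Finset.mem_of_mem_erase h2)
    · simp only [Finset.mem_union, Finset.mem_erase, ne_eq, not_true_eq_false, false_and,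
        Finset.mem_singleton, false_or]
      exact hgβ
  have heq : M' = M := Finset.eq_of_subset_of_card_le hsub (by rw [ha.1, hb.1])
  exact ⟨heq.symm, hgM⟩

open Classical in
/-- the coding bound: if all arcs inside `Q` have colours of `M`, then `|Q| ≤ l^|M|` -/
theorem code_bound [Fintype V] (hirr : ∀ u, ¬ adj u u)
    (hT : ∀ u v, u ≠ v → (adj u v ∨ adj v u)) {l : ℕ} (hmono : NoMono adj c S l)
    {Q : Finset V} (hQ : Q ⊆ S) {M : Finset ℕ}
    (hM : ∀ a ∈ Q, ∀ b ∈ Q, adj a b → c a b ∈ M) : Q.card ≤ l ^ M.card := by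
  choose lam hlam1 hlam2 hlam3 hlam4 using fun γ : ℕ =>
    gallai_roy (fun x y => x ∈ S ∧ y ∈ S ∧ adj x y ∧ c x y = γ)
      (fun x hx => hirr x hx.2.2.1) l (hmono γ)
  let code : V → ({x // x ∈ M} → Fin l) := fun v g => ⟨lam g.1 v, hlam1 g.1 v⟩
  have hinj : Set.InjOn code (Q : Set V) := by
    intro a ha b hb hab
    by_contra hne
    have key : ∀ a b : V, a ∈ Q → b ∈ Q → adj a b → code a ≠ code b := by
      intro a b ha hb hadj heq
      have h1 := congrFun heq ⟨c a b, hM a ha b hb hadj⟩
      simp only [code, Fin.mk.injEq] at h1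
      exact hlam2 (c a b) a b ⟨hQ ha, hQ hb, hadj, rfl⟩ h1
    rcases hT a b hne with h1 | h1
    · exact key a b ha hb h1 hab
    · exact key b a hb ha h1 hab.symm
  have h1 : (Q.image code).card = Q.card := Finset.card_image_of_injOn hinj
  rw [← h1]
  refine (Finset.card_le_univ _).trans ?_
  rw [Fintype.card_fun, Fintype.card_fin, Fintype.card_coe]

theorem EE_bound {k l : ℕ} (hk : 2 ≤ k) (hl : 0 < l) :
    ∀ m, m + 1 ≤ k → l * EE (19 * Nat.clog 2 k) l m ≤ (57 * k ^ 2 * Nat.clog 2 k * l) ^ m := by
  have hc : 1 ≤ Nat.clog 2 k := Nat.clog_pos (by norm_num) (by omega)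
  set e := Nat.clog 2 k with he
  intro m
  induction m with
  | zero => intro _; simp [EE]
  | succ m ih =>
    intro hmk
    have h1 := ih (by omega)
    have h2 : (m + 2) * (m + 1) ≤ k ^ 2 := by
      rw [pow_two]
      exact Nat.mul_le_mul (by omega) (by omega)
    set P := (57 * k ^ 2 * e * l) ^ m with hP
    have h3 : (19 * e * l) ^ m ≤ P := by
      apply Nat.pow_le_pow_left
      apply Nat.mul_le_mul_right
      have : 1 ≤ k ^ 2 := Nat.one_le_pow _ _ (by omega)
      nlinarith [Nat.mul_le_mul_left e this]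
    have hk2 : 1 ≤ k ^ 2 := Nat.one_le_pow _ _ (by omega)
    rw [EE]
    calc l * ((19 * e * l) ^ m + (m + 2) * (m + 1) * (2 * (19 * e * l) ^ m +
          l * EE (19 * e) l m))
        ≤ l * (P + k ^ 2 * (2 * P + P)) := by
          apply Nat.mul_le_mul_left
          apply Nat.add_le_add h3
          apply Nat.mul_le_mul h2
          exact Nat.add_le_add (Nat.mul_le_mul_left _ h3) h1
      _ = P * ((1 + 3 * k ^ 2) * l) := by ring
      _ ≤ P * (57 * k ^ 2 * e * l) := by
          apply Nat.mul_le_mul_left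
          apply Nat.mul_le_mul_right
          nlinarith [Nat.mul_le_mul hk2 hc]
      _ = (57 * k ^ 2 * e * l) ^ (m + 1) := (pow_succ _ _).symm

open Classical in
theorem sharp_aux [Fintype V] (hirr : ∀ u, ¬ adj u u)
    (hT : ∀ u v, u ≠ v → (adj u v ∨ adj v u)) {l : ℕ} (hl : 0 < l) (m : ℕ) (hm : 1 ≤ m)
    (S : Finset V) (hmono : NoMono adj c S l) (h : ¬ ∃ p, RP adj c S (m + 1) p) :
    S.card ≤ l ^ m + (4 * m + 1) * EE (19 * Nat.clog 2 (m + 1)) l m := by
  set Z := S.filter (fun v => ¬ ∃ M, Robust adj c S m v M) with hZ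
  set Q := S.filter (fun v => ∃ M, Robust adj c S m v M) with hQ
  have hZc : Z.card ≤ (4 * m + 1) * EE (19 * Nat.clog 2 (m + 1)) l m :=
    robust_count hirr hT hl (by omega) m le_rfl S hmono h
  have hQc : Q.card ≤ l ^ m := by
    rcases Q.eq_empty_or_nonempty with hemp | ⟨a0, ha0⟩
    · rw [hemp]
      simp
    · obtain ⟨ha0S, M, hM⟩ := Finset.mem_filter.mp ha0
      have hall : ∀ b ∈ Q, ∀ M', Robust adj c S m b M' → M' = M ∨ b = a0 := by
        intro b hb M' hM'
        by_cases hne : b = a0
        · exact Or.inr hne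
        · left
          have hbS := (Finset.mem_filter.mp hb).1
          rcases hT b a0 hne with h1 | h1
          · exact (robust_pair hm h hbS ha0S hne h1 hM' hM).1
          · exact ((robust_pair hm h ha0S hbS (Ne.symm hne) h1 hM hM').1).symm
      have hall2 : ∀ b ∈ Q, Robust adj c S m b M := by
        intro b hb
        obtain ⟨_, M', hM'⟩ := Finset.mem_filter.mp hb
        rcases hall b hb M' hM' with h1 | h1
        · rw [← h1]; exact hM'
        · rw [h1]; exact hM
      have hcols : ∀ a ∈ Q, ∀ b ∈ Q, adj a b → c a b ∈ M := by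
        intro a ha b hb hab
        have hne : a ≠ b := by
          rintro rfl
          exact hirr _ hab
        exact (robust_pair hm h (Finset.mem_filter.mp ha).1 (Finset.mem_filter.mp hb).1 hne hab
          (hall2 a ha) (hall2 b hb)).2
      have := code_bound hirr hT hmono (Finset.filter_subset _ _ : Q ⊆ S) hcols
      rwa [hM.1] at this
  have hSc : S.card = Q.card + Z.card := by
    rw [hZ, hQ]
    exact (Finset.card_filter_add_card_filter_not _).symm
  omega

end Pool.Agent.Y389.RT
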