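import Mathlib
import Pool.Agent.Y389.RT.Robust
import Pool.Agent.Y389.RT.Ham
import Pool.Agent.Y389.RT.GR2

set_option autoImplicit false

namespace Pool.Agent.Y389.RT

variable {V : Type*} {adj : V → V → Prop} {c : V → V → ℕ} {S : Finset V}

open Classical in
theorem robust_arc {m : ℕ} (hm : 1 ≤ m) (h : ¬ ∃ p, RP adj c S (m + 1) p) {v q : V}
    (hvS : v ∈ S) (hne : v ≠ q) {M : Finset ℕ} (hq : Robust adj c S m q M) :
    (adj v q → c v q ∈ M) ∧ (adj q v → c q v ∈ M) := by
  constructor
  · intro hadj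
    by_contra hg
    obtain ⟨_, ⟨t, ht⟩⟩ := hq.2 {v} (by simpa using hm) (by simpa using hne.symm) M
      (Finset.Subset.refl _)
    have hat : v ∉ q :: t := fun ha' => by
      have := ht.2.2.1 v ha'
      simp at this
    have h1 := (ht.mono Finset.sdiff_subset).front hvS hadj hat hg
    exact h ⟨_, h1.toRP (by simp) (by rw [Finset.card_insert_of_notMem hg, hq.1])⟩
  · intro hadj
    by_contra hg
    obtain ⟨⟨p, hp⟩, _⟩ := hq.2 {v} (by simpa using hm) (by simpa using hne.symm) M
      (Finset.Subset.refl _)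
    have hbp : v ∉ p ++ [q] := fun hb' => by
      have := hp.2.2.1 v hb'
      simp at this
    have h1 := (hp.mono Finset.sdiff_subset).back hvS hadj hbp hg
    exact h ⟨_, h1.toRP (by simp) (by rw [Finset.card_insert_of_notMem hg, hq.1])⟩

open Classical in
/-- an exotic arc `z → z'` has `z → q → z'` for each robust `q` -/
theorem exotic (hT : ∀ u v, u ≠ v → (adj u v ∨ adj v u)) {m : ℕ} (hm : 2 ≤ m)
    (h : ¬ ∃ p, RP adj c S (m + 1) p) {z z' q : V}
    (hzS : z ∈ S) (hz'S : z' ∈ S) (hzq : z ≠ q) (hz'q : z' ≠ q) (hzz : z ≠ z')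
    (hadj : adj z z') {M : Finset ℕ} (hq : Robust adj c S m q M) (hex : c z z' ∉ M) :
    adj z q ∧ adj q z' := by
  have hF : ({z, z'} : Finset V).card ≤ m := by
    refine (Finset.card_insert_le _ _).trans ?_
    simp
    omega
  have hqF : q ∉ ({z, z'} : Finset V) := by
    simp only [Finset.mem_insert, Finset.mem_singleton, not_or]
    exact ⟨hzq.symm, hz'q.symm⟩
  constructor
  · by_contra hcon
    have hqz : adj q z := by
      rcases hT z q hzq with h1 | h1
      · exact absurd h1 hcon
      · exact h1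
    have hδ := (robust_arc (by omega) h hzS hzq hq).2 hqz
    obtain ⟨⟨p, hp⟩, _⟩ := hq.2 {z, z'} hF hqF (M.erase (c q z)) (Finset.erase_subset _ _)
    have hn : ∀ x ∈ p ++ [q], x ≠ z ∧ x ≠ z' := by
      intro x hx
      have := hp.2.2.1 x hx
      simp only [Finset.mem_sdiff, Finset.mem_insert, Finset.mem_singleton, not_or] at this
      exact this.2
    have h1 := (hp.mono Finset.sdiff_subset).back hzS hqz (fun hx => (hn z hx).1 rfl)
      (Finset.notMem_erase _ _)
    rw [Finset.insert_erase hδ] at h1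
    have h2 := h1.back hz'S hadj (by
      intro hx
      rcases List.mem_append.mp hx with hx | hx
      · exact (hn z' hx).2 rfl
      · simp only [List.mem_singleton] at hx
        exact hzz hx.symm) hex
    exact h ⟨_, h2.toRP (by simp) (by rw [Finset.card_insert_of_notMem hex, hq.1])⟩
  · by_contra hcon
    have hz'q' : adj z' q := by
      rcases hT z' q hz'q with h1 | h1
      · exact h1
      · exact absurd h1 hcon
    have hδ := (robust_arc (by omega) h hz'S hz'q hq).1 hz'q'
    obtain ⟨_, ⟨t, ht⟩⟩ := hq.2 {z, z'} hF hqF (M.erase (c z' q)) (Finset.erase_subset _ _)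
    have hn : ∀ x ∈ q :: t, x ≠ z ∧ x ≠ z' := by
      intro x hx
      have := ht.2.2.1 x hx
      simp only [Finset.mem_sdiff, Finset.mem_insert, Finset.mem_singleton, not_or] at this
      exact this.2
    have h1 := (ht.mono Finset.sdiff_subset).front hz'S hz'q' (fun hx => (hn z' hx).2 rfl)
      (Finset.notMem_erase _ _)
    rw [Finset.insert_erase hδ] at h1
    have h2 := h1.front hzS hadj (by
      intro hx
      rcases List.mem_cons.mp hx with hx | hx
      · exact hzz hx
      · exact (hn z hx).1 rfl) hex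
    exact h ⟨_, h2.toRP (by simp) (by rw [Finset.card_insert_of_notMem hex, hq.1])⟩

/-- if a colour is incident with every vertex then `|V| ≤ l²` -/
theorem spanning_bound [Fintype V] (hirr : ∀ u, ¬ adj u u)
    (hT : ∀ u v, u ≠ v → (adj u v ∨ adj v u)) {l : ℕ} (hmono : NoMono adj c Finset.univ l)
    (h : ¬ ∃ p, RP adj c Finset.univ 3 p) (γ : ℕ)
    (hinc : ∀ v, Inc adj c Finset.univ γ v) : Fintype.card V ≤ l * l := by
  classical
  obtain ⟨lam, hlam1, hlam2, hlam3, hlam4⟩ := gallai_roy
    (fun x y => x ∈ Finset.univ ∧ y ∈ Finset.univ ∧ adj x y ∧ c x y = γ)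
    (fun x hx => hirr x hx.2.2.1) l (hmono γ)
  let U : ℕ → Finset V := fun j => Finset.univ.filter (fun v => lam v = j)
  have hU : ∀ j, (U j).card ≤ l := by
    intro j
    apply two_bound hT (Finset.subset_univ _) hmono
    intro hex
    have h0 : ∀ u ∈ U j, ∀ v ∈ U j, adj u v → c u v ∉ ({γ} : Set ℕ) := by
      intro u hu v hv huv hc
      exact hlam2 u v ⟨Finset.mem_univ _, Finset.mem_univ _, huv, hc⟩
        ((Finset.mem_filter.mp hu).2.trans (Finset.mem_filter.mp hv).2.symm)
    rcases Nat.eq_zero_or_pos j with rfl | hj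
    · refine h (step_out (Finset.subset_univ _) h0 ?_ hex)
      intro v hv
      obtain ⟨w, _, hw⟩ := hinc v
      obtain ⟨w', h1, h2, h3, h4⟩ := hlam4 v (Finset.mem_filter.mp hv).2 ⟨w, by
        rcases hw with hw | hw
        · exact Or.inl ⟨Finset.mem_univ _, Finset.mem_univ _, hw⟩
        · exact Or.inr ⟨Finset.mem_univ _, Finset.mem_univ _, hw⟩⟩
      exact ⟨w', h2, h3, h4⟩
    · refine h (step_in (Finset.subset_univ _) h0 ?_ hex)
      intro v hv
      obtain ⟨w', h1, h2, h3, h4⟩ := hlam3 v (by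
        rw [(Finset.mem_filter.mp hv).2]; exact hj)
      exact ⟨w', h1, h3, h4⟩
  have hcov : (Finset.univ : Finset V) ⊆ (Finset.range l).biUnion U := by
    intro v _
    exact Finset.mem_biUnion.mpr ⟨lam v, Finset.mem_range.mpr (hlam1 v),
      Finset.mem_filter.mpr ⟨Finset.mem_univ _, rfl⟩⟩
  calc Fintype.card V = (Finset.univ : Finset V).card := rfl
    _ ≤ ((Finset.range l).biUnion U).card := Finset.card_le_card hcov
    _ ≤ ∑ j ∈ Finset.range l, (U j).card := Finset.card_biUnion_le
    _ ≤ ∑ _j ∈ Finset.range l, l := Finset.sum_le_sum (fun j _ => hU j)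
    _ = l * l := by simp

open Classical in
/-- the weight inequality -/
theorem weight_bound [Fintype V] (hirr : ∀ u, ¬ adj u u)
    (hT : ∀ u v, u ≠ v → (adj u v ∨ adj v u)) {l : ℕ} (hl : 0 < l)
    (hmono : NoMono adj c Finset.univ l)
    {γ1 γ2 : ℕ} (P W : Finset V) (hWP : W ⊆ P)
    (hP : ∀ u ∈ P, ∀ v ∈ P, adj u v → c u v = γ1 ∨ c u v = γ2)
    (hW : ∀ v ∈ W, ¬ Inc adj c Finset.univ γ1 v ∨ ¬ Inc adj c Finset.univ γ2 v) :
    P.card + (l - 1) * W.card ≤ l * l := by
  obtain ⟨a, ha1, ha2, _, _⟩ := gallai_roy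
    (fun x y => x ∈ Finset.univ ∧ y ∈ Finset.univ ∧ adj x y ∧ c x y = γ1)
    (fun x hx => hirr x hx.2.2.1) l (hmono γ1)
  obtain ⟨b, hb1, hb2, _, _⟩ := gallai_roy
    (fun x y => x ∈ Finset.univ ∧ y ∈ Finset.univ ∧ adj x y ∧ c x y = γ2)
    (fun x hx => hirr x hx.2.2.1) l (hmono γ2)
  let A : V → Finset ℕ := fun v =>
    if Inc adj c Finset.univ γ1 v then {a v} else Finset.range l
  let B : V → Finset ℕ := fun v =>
    if Inc adj c Finset.univ γ2 v then {b v} else Finset.range l
  have hA : ∀ v, A v ⊆ Finset.range l ∧ 1 ≤ (A v).card := by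
    intro v
    simp only [A]
    split_ifs
    · refine ⟨?_, by simp⟩
      intro x hx
      rw [Finset.mem_singleton] at hx
      rw [hx]
      exact Finset.mem_range.mpr (ha1 v)
    · exact ⟨Finset.Subset.refl _, by rw [Finset.card_range]; exact hl⟩
  have hB : ∀ v, B v ⊆ Finset.range l ∧ 1 ≤ (B v).card := by
    intro v
    simp only [B]
    split_ifs
    · refine ⟨?_, by simp⟩
      intro x hx
      rw [Finset.mem_singleton] at hx
      rw [hx]
      exact Finset.mem_range.mpr (hb1 v)
    · exact ⟨Finset.Subset.refl _, by rw [Finset.card_range]; exact hl⟩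
  let C : V → Finset (ℕ × ℕ) := fun v => A v ×ˢ B v
  have key : ∀ u ∈ P, ∀ v ∈ P, adj u v → Disjoint (C u) (C v) := by
    intro u hu v hv huv
    rw [Finset.disjoint_left]
    rintro ⟨x, y⟩ h1 h2
    rw [Finset.mem_product] at h1 h2
    rcases hP u hu v hv huv with h3 | h3
    · have hu' : Inc adj c Finset.univ γ1 u := ⟨v, Finset.mem_univ _, Or.inl ⟨huv, h3⟩⟩
      have hv' : Inc adj c Finset.univ γ1 v := ⟨u, Finset.mem_univ _, Or.inr ⟨huv, h3⟩⟩
      simp only [A, if_pos hu', if_pos hv', Finset.mem_singleton] at h1 h2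
      exact ha2 u v ⟨Finset.mem_univ _, Finset.mem_univ _, huv, h3⟩ (h1.1.symm.trans h2.1)
    · have hu' : Inc adj c Finset.univ γ2 u := ⟨v, Finset.mem_univ _, Or.inl ⟨huv, h3⟩⟩
      have hv' : Inc adj c Finset.univ γ2 v := ⟨u, Finset.mem_univ _, Or.inr ⟨huv, h3⟩⟩
      simp only [B, if_pos hu', if_pos hv', Finset.mem_singleton] at h1 h2
      exact hb2 u v ⟨Finset.mem_univ _, Finset.mem_univ _, huv, h3⟩ (h1.2.symm.trans h2.2)
  have hdisj : ∀ u ∈ P, ∀ v ∈ P, u ≠ v → Disjoint (C u) (C v) := by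
    intro u hu v hv hne
    rcases hT u v hne with h1 | h1
    · exact key u hu v hv h1
    · exact (key v hv u hu h1).symm
  have hsum : ∑ v ∈ P, (C v).card ≤ l * l := by
    rw [← Finset.card_biUnion hdisj]
    have hsub : P.biUnion C ⊆ Finset.range l ×ˢ Finset.range l := by
      intro x hx
      obtain ⟨v, _, hv⟩ := Finset.mem_biUnion.mp hx
      rw [Finset.mem_product] at hv ⊢
      exact ⟨(hA v).1 hv.1, (hB v).1 hv.2⟩
    refine (Finset.card_le_card hsub).trans ?_
    simp
  have hone : ∀ v ∈ P, 1 + (if v ∈ W then l - 1 else 0) ≤ (C v).card := by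
    intro v _
    have h1 : (C v).card = (A v).card * (B v).card := Finset.card_product _ _
    rw [h1]
    split_ifs with hvW
    · rcases hW v hvW with h2 | h2
      · have : (A v).card = l := by simp [A, h2]
        rw [this]
        have h5 := Nat.mul_le_mul_left l (hB v).2
        rw [mul_one] at h5
        omega
      · have : (B v).card = l := by simp [B, h2]
        rw [this]
        have h5 := Nat.mul_le_mul_right l (hA v).2
        rw [one_mul] at h5
        omega
    · have := Nat.mul_le_mul (hA v).2 (hB v).2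
      simpa using this
  have h2 := Finset.sum_le_sum hone
  rw [Finset.sum_add_distrib, Finset.sum_ite_mem] at h2
  have h3 : P ∩ W = W := Finset.inter_eq_right.mpr hWP
  rw [h3] at h2
  simp only [Finset.sum_const, smul_eq_mul, mul_one] at h2
  have h4 : W.card * (l - 1) = (l - 1) * W.card := mul_comm _ _
  omega

end Pool.Agent.Y389.RT
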