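import Mathlib
import Pool.Agent.Y389.RT.K3a

set_option autoImplicit false

namespace Pool.Agent.Y389.RT

variable {V : Type*} {adj : V → V → Prop} {c : V → V → ℕ} {S : Finset V}

/-- data for the case `k = 3` : `Ex u v` is the relation of exotic arcs, going from `X` to `Y` -/
structure K3 {V : Type*} [Fintype V] (adj : V → V → Prop) (c : V → V → ℕ) (l : ℕ)
    (γ1 γ2 : ℕ) (X Y : Finset V) (q : V) : Prop where
  hirr : ∀ u, ¬ adj u u
  hasym : ∀ u v, adj u v → ¬ adj v u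
  hT : ∀ u v, u ≠ v → (adj u v ∨ adj v u)
  hl : 3 ≤ l
  hmono : NoMono adj c Finset.univ l
  hno : ¬ ∃ p, RP adj c Finset.univ 3 p
  hne : γ1 ≠ γ2
  hXY : Disjoint X Y
  hX : ∀ x, x ∈ X ↔ ∃ y, adj x y ∧ c x y ≠ γ1 ∧ c x y ≠ γ2
  hY : ∀ y, y ∈ Y ↔ ∃ x, adj x y ∧ c x y ≠ γ1 ∧ c x y ≠ γ2
  hXq : ∀ x ∈ X, adj x q
  hqY : ∀ y ∈ Y, adj q y
  hcq : ∀ v, (adj v q → c v q = γ1 ∨ c v q = γ2) ∧ (adj q v → c q v = γ1 ∨ c q v = γ2)

variable [Fintype V] {l γ1 γ2 : ℕ} {X Y : Finset V} {q : V}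

theorem rp3 {a b d e : V} (hno : ¬ ∃ p, RP adj c Finset.univ 3 p) (hab : adj a b)
    (hbd : adj b d) (hde : adj d e) (h1 : a ≠ b) (h2 : a ≠ d) (h3 : a ≠ e) (h4 : b ≠ d)
    (h5 : b ≠ e) (h6 : d ≠ e) (c1 : c a b ≠ c b d) (c2 : c a b ≠ c d e) (c3 : c b d ≠ c d e) :
    False := by
  apply hno
  refine ⟨[a, b, d, e], rfl, ?_, ?_, fun x _ => Finset.mem_univ _, ?_⟩
  · simp [h1, h2, h3, h4, h5, h6]
  · simp [hab, hbd, hde]
  · simp [c1, c2, c3]

theorem K3.noX (h : K3 adj c l γ1 γ2 X Y q) {u v : V} (hv : v ∉ Y) (huv : adj u v) :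
    c u v = γ1 ∨ c u v = γ2 := by
  by_contra hcon
  rw [not_or] at hcon
  exact hv ((h.hY v).mpr ⟨u, huv, hcon⟩)

theorem K3.noY (h : K3 adj c l γ1 γ2 X Y q) {u v : V} (hu : u ∉ X) (huv : adj u v) :
    c u v = γ1 ∨ c u v = γ2 := by
  by_contra hcon
  rw [not_or] at hcon
  exact hu ((h.hX u).mpr ⟨v, huv, hcon⟩)

theorem K3.notX (h : K3 adj c l γ1 γ2 X Y q) {v : V} (hv : v ∈ Y) : v ∉ X :=
  fun hx => Finset.disjoint_left.mp h.hXY hx hv

theorem K3.notY (h : K3 adj c l γ1 γ2 X Y q) {v : V} (hv : v ∈ X) : v ∉ Y :=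
  fun hy => Finset.disjoint_left.mp h.hXY hv hy

theorem K3.Xno2 (h : K3 adj c l γ1 γ2 X Y q) : ¬ ∃ p, RP adj c X 2 p := by
  rintro ⟨p, hp⟩
  have hne : p ≠ [] := by
    rintro rfl
    have := hp.1
    simp at this
  have hlast : p.getLast hne ∈ X := hp.2.2.2.1 _ (List.getLast_mem hne)
  obtain ⟨y, hy1, hy2⟩ := (h.hX _).mp hlast
  have hyY : y ∈ Y := (h.hY y).mpr ⟨_, hy1, hy2⟩
  refine h.hno ⟨_, RP.snoc hne (hp.mono' (Finset.subset_univ _)) (Finset.mem_univ y) hy1 ?_ ?_⟩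
  · intro hmem
    exact h.notX hyY (hp.2.2.2.1 y hmem)
  · intro hmem
    obtain ⟨a, ha, b, hb, hab, hc⟩ := mem_cols hp.2.2.1 hmem
    rcases h.noX (h.notY (hp.2.2.2.1 b hb)) hab with h1 | h1
    · exact hy2.1 (hc ▸ h1)
    · exact hy2.2 (hc ▸ h1)

theorem K3.Yno2 (h : K3 adj c l γ1 γ2 X Y q) : ¬ ∃ p, RP adj c Y 2 p := by
  rintro ⟨p, hp⟩
  cases p with
  | nil => have := hp.1; simp at this
  | cons y t =>
    have hyY : y ∈ Y := hp.2.2.2.1 _ (by simp)
    obtain ⟨x, hx1, hx2⟩ := (h.hY _).mp hyY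
    have hxX : x ∈ X := (h.hX x).mpr ⟨_, hx1, hx2⟩
    refine h.hno ⟨_, RP.cons (hp.mono' (Finset.subset_univ _)) (Finset.mem_univ x) hx1 ?_ ?_⟩
    · intro hmem
      exact h.notY hxX (hp.2.2.2.1 x hmem)
    · intro hmem
      obtain ⟨a, ha, b, hb, hab, hc⟩ := mem_cols hp.2.2.1 hmem
      rcases h.noY (h.notX (hp.2.2.2.1 a ha)) hab with h1 | h1
      · exact hx2.1 (hc ▸ h1)
      · exact hx2.2 (hc ▸ h1)

theorem pred_of_mem {R : V → V → Prop} :
    ∀ (a : V) (t : List V), (a :: t).IsChain R → ∀ x ∈ t, ∃ x' ∈ a :: t, R x' x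
  | a, [], _, x, hx => by simp at hx
  | a, b :: t, hch, x, hx => by
    rw [List.isChain_cons_cons] at hch
    rcases List.mem_cons.mp hx with rfl | hx
    · exact ⟨a, by simp, hch.1⟩
    · obtain ⟨x', h1, h2⟩ := pred_of_mem b t hch.2 x hx
      exact ⟨x', List.mem_cons_of_mem _ h1, h2⟩

theorem succ_of_mem {R : V → V → Prop} :
    ∀ (p : List V) (hp : p ≠ []), p.IsChain R → ∀ x ∈ p, x ≠ p.getLast hp →
      ∃ x' ∈ p, R x x'
  | [], hp, _, x, hx, _ => by simp at hx
  | [a], _, _, x, hx, hne => by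
    simp only [List.mem_singleton] at hx
    exact absurd hx hne
  | a :: b :: t, _, hch, x, hx, hne => by
    rw [List.isChain_cons_cons] at hch
    rcases List.mem_cons.mp hx with rfl | hx
    · exact ⟨b, by simp, hch.1⟩
    · obtain ⟨x', h1, h2⟩ := succ_of_mem (b :: t) (by simp) hch.2 x hx (by
        rwa [List.getLast_cons (by simp)] at hne)
      exact ⟨x', List.mem_cons_of_mem _ h1, h2⟩

/-- the final case: a vertex of `X` missing `γ1` and a vertex of `Y` missing `γ2` -/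
theorem K3.final (h : K3 adj c l γ1 γ2 X Y q) {v1 v2 : V} (hv1 : v1 ∈ X) (hv2 : v2 ∈ Y)
    (hi1 : ¬ Inc adj c Finset.univ γ1 v1) (hi2 : ¬ Inc adj c Finset.univ γ2 v2) :
    Fintype.card V ≤ l * l := by
  classical
  have hl3 := h.hl
  have hl0 : 0 < l := by omega
  by_contra hcon
  push Not at hcon
  have hXle : X.card ≤ l := two_bound h.hT (Finset.subset_univ _) h.hmono h.Xno2
  have hYle : Y.card ≤ l := two_bound h.hT (Finset.subset_univ _) h.hmono h.Yno2
  have hcardc : ∀ C : Finset V, (Finset.univ \ C).card + C.card = Fintype.card V := by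
    intro C
    rw [Finset.card_sdiff_add_card_eq_card (Finset.subset_univ C)]
    rfl
  -- |Y| = l
  have hYcard : Y.card = l := by
    have h1 := weight_bound h.hirr h.hT hl0 h.hmono (γ1 := γ1) (γ2 := γ2)
      (Finset.univ \ Y) {v1} (by
        rw [Finset.singleton_subset_iff, Finset.mem_sdiff]
        exact ⟨Finset.mem_univ _, h.notY hv1⟩) (by
        intro u _ v hv huv
        exact h.noX (Finset.mem_sdiff.mp hv).2 huv) (by
        intro v hv
        rw [Finset.mem_singleton] at hv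
        exact Or.inl (hv ▸ hi1))
    have h2 := hcardc Y
    rw [Finset.card_singleton, mul_one] at h1
    omega
  have hXcard : X.card = l := by
    have h1 := weight_bound h.hirr h.hT hl0 h.hmono (γ1 := γ1) (γ2 := γ2)
      (Finset.univ \ X) {v2} (by
        rw [Finset.singleton_subset_iff, Finset.mem_sdiff]
        exact ⟨Finset.mem_univ _, h.notX hv2⟩) (by
        intro u hu v _ huv
        exact h.noY (Finset.mem_sdiff.mp hu).2 huv) (by
        intro v hv
        rw [Finset.mem_singleton] at hv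
        exact Or.inr (hv ▸ hi2))
    have h2 := hcardc X
    rw [Finset.card_singleton, mul_one] at h1
    omega
  -- Hamiltonian path of X, all arcs of colour γ2
  obtain ⟨px, px1, px2, px3, px4⟩ := ham h.hT X
  obtain ⟨gx, hgx⟩ := all_same h.Xno2 px px1 px2 (fun x hx => (px3 x).mp hx)
  have hgx2 : gx = γ2 := by
    obtain ⟨γ, hγ1, hγ2⟩ := inc_of_mem (c := c) (S := X) (p := px) (by omega) px2
      (fun x hx => (px3 x).mp hx) ((px3 v1).mpr hv1)
    rw [hgx γ hγ1] at hγ2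
    obtain ⟨w, hw, hw'⟩ := hγ2
    have h5 : gx ≠ γ1 := by
      intro h5
      rw [h5] at hw'
      exact hi1 ⟨w, Finset.mem_univ _, hw'⟩
    rcases hw' with ⟨h6, h7⟩ | ⟨h6, h7⟩
    · rcases h.noX (h.notY hw) h6 with h8 | h8
      · exact absurd (h7.symm.trans h8) h5
      · exact h7.symm.trans h8
    · rcases h.noX (h.notY hv1) h6 with h8 | h8
      · exact absurd (h7.symm.trans h8) h5
      · exact h7.symm.trans h8
  subst hgx2
  obtain ⟨py, py1, py2, py3, py4⟩ := ham h.hT Y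
  obtain ⟨gy, hgy⟩ := all_same h.Yno2 py py1 py2 (fun x hx => (py3 x).mp hx)
  have hgy1 : gy = γ1 := by
    obtain ⟨γ, hγ1, hγ2⟩ := inc_of_mem (c := c) (S := Y) (p := py) (by omega) py2
      (fun x hx => (py3 x).mp hx) ((py3 v2).mpr hv2)
    rw [hgy γ hγ1] at hγ2
    obtain ⟨w, hw, hw'⟩ := hγ2
    have h5 : gy ≠ gx := by
      intro h5
      rw [h5] at hw'
      exact hi2 ⟨w, Finset.mem_univ _, hw'⟩
    rcases hw' with ⟨h6, h7⟩ | ⟨h6, h7⟩
    · rcases h.noY (h.notX hv2) h6 with h8 | h8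
      · exact h7.symm.trans h8
      · exact absurd (h7.symm.trans h8) h5
    · rcases h.noY (h.notX hw) h6 with h8 | h8
      · exact h7.symm.trans h8
      · exact absurd (h7.symm.trans h8) h5
  subst hgy1
  -- from now on γ2 = gx, γ1 = gy
  have hpx : px.IsChain (fun x y => x ∈ X ∧ y ∈ X ∧ adj x y ∧ c x y = gx) :=
    chain_col px gx px2 (fun x hx => (px3 x).mp hx) hgx
  have hpy : py.IsChain (fun x y => x ∈ Y ∧ y ∈ Y ∧ adj x y ∧ c x y = gy) :=
    chain_col py gy py2 (fun x hx => (py3 x).mp hx) hgy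
  obtain ⟨x1, tx, rfl⟩ : ∃ x1 tx, px = x1 :: tx := by
    cases px with
    | nil => simp at px4; omega
    | cons a t => exact ⟨a, t, rfl⟩
  obtain ⟨y1, y2, y3, ty, rfl⟩ : ∃ y1 y2 y3 ty, py = y1 :: y2 :: y3 :: ty := by
    match py, py4 with
    | [], h' => simp at h'; omega
    | [_], h' => simp at h'; omega
    | [_, _], h' => simp at h'; omega
    | a :: b :: d :: t, _ => exact ⟨a, b, d, t, rfl⟩
  set yl := (y1 :: y2 :: y3 :: ty).getLast (by simp) with hyl
  have hx1X : x1 ∈ X := (px3 x1).mp (by simp)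
  have hy1Y : y1 ∈ Y := (py3 y1).mp (by simp)
  have hy2Y : y2 ∈ Y := (py3 y2).mp (by simp)
  have hylY : yl ∈ Y := (py3 yl).mp (List.getLast_mem _)
  have hyl' : yl = (y3 :: ty).getLast (by simp) := by
    rw [hyl, List.getLast_cons (by simp), List.getLast_cons (by simp)]
  have hylmem : yl ∈ y3 :: ty := by
    rw [hyl']
    exact List.getLast_mem _
  have hy1l : y1 ≠ yl := by
    intro heq
    rw [List.nodup_cons] at py1
    exact py1.1 (List.mem_cons_of_mem _ (heq ▸ hylmem))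
  have hy2l : y2 ≠ yl := by
    intro heq
    rw [List.nodup_cons, List.nodup_cons] at py1
    exact py1.2.1 (heq ▸ hylmem)
  -- exotic arcs start in x1 or end in yl
  have hK : ∀ x y, adj x y → c x y ≠ gy → c x y ≠ gx → x = x1 ∨ y = yl := by
    intro x y hxy hc1 hc2
    by_contra hcon2
    rw [not_or] at hcon2
    have hxX : x ∈ X := (h.hX x).mpr ⟨y, hxy, hc1, hc2⟩
    have hyY : y ∈ Y := (h.hY y).mpr ⟨x, hxy, hc1, hc2⟩
    have hxm : x ∈ tx := by
      rcases List.mem_cons.mp ((px3 x).mpr hxX) with h1 | h1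
      · exact absurd h1 hcon2.1
      · exact h1
    obtain ⟨x', hx', hx'X, _, hx'x, hcx⟩ := pred_of_mem x1 tx hpx x hxm
    obtain ⟨y', hy', _, hy'Y, hyy', hcy⟩ := succ_of_mem _ (by simp) hpy y ((py3 y).mpr hyY)
      hcon2.2
    refine rp3 h.hno hx'x hxy hyy' ?_ ?_ ?_ ?_ ?_ ?_ ?_ ?_ ?_
    · rintro rfl; exact h.hirr _ hx'x
    · rintro rfl; exact h.notX hyY hx'X
    · rintro rfl; exact h.notX hy'Y hx'X
    · rintro rfl; exact h.hirr _ hxy
    · rintro rfl; exact h.notX hy'Y hxX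
    · rintro rfl; exact h.hirr _ hyy'
    · rw [hcx]; exact Ne.symm hc2
    · rw [hcx, hcy]; exact Ne.symm h.hne
    · rw [hcy]; exact hc1
  have hx1l : x1 ≠ yl := fun heq => h.notX hylY (heq ▸ hx1X)
  -- P = V \ {x1, yl}
  have hPcard := hcardc {x1, yl}
  rw [Finset.card_pair hx1l] at hPcard
  have hPM : ∀ u ∈ (Finset.univ \ {x1, yl} : Finset V), ∀ v ∈ (Finset.univ \ {x1, yl} : Finset V),
      adj u v → c u v = gy ∨ c u v = gx := by
    intro u hu v hv huv
    by_contra hcon2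
    rw [not_or] at hcon2
    simp only [Finset.mem_sdiff, Finset.mem_univ, Finset.mem_insert, Finset.mem_singleton,
      true_and, not_or] at hu hv
    rcases hK u v huv hcon2.1 hcon2.2 with h1 | h1
    · exact hu.1 h1
    · exact hv.2 h1
  have hv1x1 : v1 = x1 := by
    by_contra hne
    have hv1l : v1 ≠ yl := fun heq => h.notX hylY (heq ▸ hv1)
    have h1 := weight_bound h.hirr h.hT hl0 h.hmono (γ1 := gy) (γ2 := gx)
      (Finset.univ \ {x1, yl}) {v1} (by
        rw [Finset.singleton_subset_iff]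
        simp [hne, hv1l]) hPM (by
        intro v hv
        rw [Finset.mem_singleton] at hv
        exact Or.inl (hv ▸ hi1))
    rw [Finset.card_singleton, mul_one] at h1
    omega
  subst hv1x1
  -- v1 → y1 and v1 → y2 are exotic
  have hv1y1 : adj v1 y1 ∧ c v1 y1 ≠ gy ∧ c v1 y1 ≠ gx := by
    obtain ⟨x, hx, hx2⟩ := (h.hY y1).mp hy1Y
    rcases hK x y1 hx hx2.1 hx2.2 with h1 | h1
    · exact h1 ▸ ⟨hx, hx2⟩
    · exact absurd h1 hy1l
  have hv1y2 : adj v1 y2 := by
    obtain ⟨x, hx, hx2⟩ := (h.hY y2).mp hy2Y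
    rcases hK x y2 hx hx2.1 hx2.2 with h1 | h1
    · exact h1 ▸ hx
    · exact absurd h1 hy2l
  have hy12 : adj y1 y2 ∧ c y1 y2 = gy := by
    rw [List.isChain_cons_cons] at hpy
    exact hpy.1.2.2
  -- v1 is a source
  have hsrc : ∀ p, ¬ adj p v1 := by
    intro p hp
    have hc : c p v1 = gx := by
      rcases h.noX (h.notY hv1) hp with h1 | h1
      · exact absurd ⟨p, Finset.mem_univ _, Or.inr ⟨hp, h1⟩⟩ hi1
      · exact h1
    refine rp3 h.hno hp hv1y1.1 hy12.1 ?_ ?_ ?_ ?_ ?_ ?_ ?_ ?_ ?_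
    · rintro rfl; exact h.hirr _ hp
    · rintro rfl; exact h.hasym _ _ hp hv1y1.1
    · rintro rfl; exact h.hasym _ _ hp hv1y2
    · rintro rfl; exact h.hirr _ hv1y1.1
    · rintro rfl; exact h.hirr _ hv1y2
    · rintro rfl; exact h.hirr _ hy12.1
    · rw [hc]; exact Ne.symm hv1y1.2.2
    · rw [hc, hy12.2]; exact Ne.symm h.hne
    · rw [hy12.2]; exact hv1y1.2.1
  -- q → y1 has colour γ2
  have hqy1 : c q y1 = gx := by
    rcases (h.hcq y1).2 (h.hqY y1 hy1Y) with h1 | h1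
    · exfalso
      have hqn : q ∉ y1 :: y2 :: y3 :: ty := by
        intro hmem
        exact h.hirr q (h.hqY q ((py3 q).mp hmem))
      refine h.hmono gy ⟨q :: y1 :: y2 :: y3 :: ty, ?_, List.nodup_cons.mpr ⟨hqn, py1⟩, ?_⟩
      · rw [List.length_cons, py4, hYcard]
      · rw [List.isChain_cons_cons]
        refine ⟨⟨Finset.mem_univ _, Finset.mem_univ _, h.hqY y1 hy1Y, h1⟩, hpy.imp ?_⟩
        intro a b hab
        exact ⟨Finset.mem_univ _, Finset.mem_univ _, hab.2.2⟩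
    · exact h1
  have hv1q : adj v1 q := h.hXq v1 hv1
  have hcv1q : c v1 q = gx := by
    rcases (h.hcq v1).1 hv1q with h1 | h1
    · exact absurd ⟨q, Finset.mem_univ _, Or.inl ⟨hv1q, h1⟩⟩ hi1
    · exact h1
  have hqv1 : q ≠ v1 := by
    rintro rfl
    exact h.hirr _ hv1q
  have hqy1' : q ≠ y1 := by
    rintro rfl
    exact h.hirr _ (h.hqY _ hy1Y)
  have hv1y1' : v1 ≠ y1 := by
    rintro rfl
    exact h.hirr _ hv1y1.1
  -- labellings
  obtain ⟨a, ha1, ha2, _, _⟩ := gallai_roy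
    (fun x y => x ∈ Finset.univ ∧ y ∈ Finset.univ ∧ adj x y ∧ c x y = gy)
    (fun x hx => h.hirr x hx.2.2.1) l (h.hmono gy)
  obtain ⟨b, hb1, hb2, hb3, hb4⟩ := gallai_roy'
    (fun x y => x ∈ Finset.univ ∧ y ∈ Finset.univ ∧ adj x y ∧ c x y = gx)
    (fun x hx => h.hirr x hx.2.2.1) l (h.hmono gx)
    (fun u v => (u = v1 ∧ v = q) ∨ (u = q ∧ v = y1))
    (fun v => if v = v1 then 0 else if v = q then 1 else 2) (by
      intro u v huv
      rcases huv with ⟨rfl, rfl⟩ | ⟨rfl, rfl⟩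
      · refine ⟨⟨Finset.mem_univ _, Finset.mem_univ _, hv1q, hcv1q⟩, ?_⟩
        simp [hqv1]
      · refine ⟨⟨Finset.mem_univ _, Finset.mem_univ _, h.hqY _ hy1Y, hqy1⟩, ?_⟩
        simp [hqv1, Ne.symm hv1y1', Ne.symm hqy1'])
  have hbv1 : b v1 = 0 := by
    by_contra hne
    obtain ⟨w, hw⟩ := hb3 v1 (by omega)
    exact hsrc w hw.2.2.1
  have hby1 : b y1 ≠ 0 := by
    have := hb4 q y1 (Or.inr ⟨rfl, rfl⟩)
    omega
  set P : Finset V := Finset.univ \ {v1, yl} with hP
  let Z0 : Finset V := P.filter (fun v => b v = 0)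
  let Z1 : Finset V := P.filter (fun v => ¬ b v = 0)
  have hPZ : P.card = Z0.card + Z1.card := (Finset.card_filter_add_card_filter_not _).symm
  have hmemP : ∀ v, v ∈ P ↔ v ≠ v1 ∧ v ≠ yl := by
    intro v
    simp [hP]
  have hZ0 : Z0.card ≤ l - 2 := by
    have hsub : Z0 ⊆ (Y.erase y1).erase yl := by
      intro v hv
      obtain ⟨hvP, hv0⟩ := Finset.mem_filter.mp hv
      rw [hmemP] at hvP
      refine Finset.mem_erase.mpr ⟨hvP.2, Finset.mem_erase.mpr ⟨?_, ?_⟩⟩
      · rintro rfl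
        exact hby1 hv0
      · by_contra hvY
        have hadj : adj v1 v := by
          rcases h.hT v1 v (Ne.symm hvP.1) with h1 | h1
          · exact h1
          · exact absurd h1 (hsrc v)
        have hc : c v1 v = gx := by
          rcases h.noX hvY hadj with h1 | h1
          · exact absurd ⟨v, Finset.mem_univ _, Or.inl ⟨hadj, h1⟩⟩ hi1
          · exact h1
        exact hb2 v1 v ⟨Finset.mem_univ _, Finset.mem_univ _, hadj, hc⟩ (hbv1.trans hv0.symm)
    refine (Finset.card_le_card hsub).trans ?_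
    rw [Finset.card_erase_of_mem, Finset.card_erase_of_mem hy1Y, hYcard]
    · omega
    · exact Finset.mem_erase.mpr ⟨Ne.symm hy1l, hylY⟩
  have hZ1 : Z1.card ≤ l * (l - 1) := by
    let code : V → ℕ × ℕ := fun v => (a v, b v)
    have hinj : Set.InjOn code (Z1 : Set V) := by
      intro u hu v hv huv
      by_contra hne
      have key : ∀ u v : V, u ∈ Z1 → v ∈ Z1 → adj u v → code u ≠ code v := by
        intro u v hu hv hadj heq
        have h1 : a u = a v := congrArg Prod.fst heq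
        have h2 : b u = b v := congrArg Prod.snd heq
        rcases hPM u (Finset.mem_filter.mp hu).1 v (Finset.mem_filter.mp hv).1 hadj with h3 | h3
        · exact ha2 u v ⟨Finset.mem_univ _, Finset.mem_univ _, hadj, h3⟩ h1
        · exact hb2 u v ⟨Finset.mem_univ _, Finset.mem_univ _, hadj, h3⟩ h2
      rcases h.hT u v hne with h1 | h1
      · exact key u v hu hv h1 huv
      · exact key v u hv hu h1 huv.symm
    have h1 : (Z1.image code).card = Z1.card := Finset.card_image_of_injOn hinj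
    rw [← h1]
    have hsub : Z1.image code ⊆ Finset.range l ×ˢ Finset.Ico 1 l := by
      intro x hx
      obtain ⟨v, hv, rfl⟩ := Finset.mem_image.mp hx
      refine Finset.mem_product.mpr ⟨Finset.mem_range.mpr (ha1 v), Finset.mem_Ico.mpr ⟨?_, hb1 v⟩⟩
      have := (Finset.mem_filter.mp hv).2
      simp only [code]
      omega
    refine (Finset.card_le_card hsub).trans ?_
    simp
  have h9 : l * (l - 1) + l = l * l := by
    obtain ⟨r, rfl⟩ : ∃ r, l = r + 1 := ⟨l - 1, by omega⟩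
    simp only [Nat.add_sub_cancel]
    ring
  omega

end Pool.Agent.Y389.RT
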