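import Mathlib
import Pool.Agent.Y389.RT.K3b

set_option autoImplicit false

namespace Pool.Agent.Y389.RT

variable {V : Type*} {adj : V → V → Prop} {c : V → V → ℕ} [Fintype V]

theorem K3.swap {l γ1 γ2 : ℕ} {X Y : Finset V} {q : V} (h : K3 adj c l γ1 γ2 X Y q) :
    K3 adj c l γ2 γ1 X Y q where
  hirr := h.hirr
  hasym := h.hasym
  hT := h.hT
  hl := h.hl
  hmono := h.hmono
  hno := h.hno
  hne := h.hne.symm
  hXY := h.hXY
  hX := fun x => (h.hX x).trans ⟨fun ⟨y, h1, h2, h3⟩ => ⟨y, h1, h3, h2⟩,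
    fun ⟨y, h1, h2, h3⟩ => ⟨y, h1, h3, h2⟩⟩
  hY := fun x => (h.hY x).trans ⟨fun ⟨y, h1, h2, h3⟩ => ⟨y, h1, h3, h2⟩,
    fun ⟨y, h1, h2, h3⟩ => ⟨y, h1, h3, h2⟩⟩
  hXq := h.hXq
  hqY := h.hqY
  hcq := fun v => ⟨fun h1 => ((h.hcq v).1 h1).symm, fun h1 => ((h.hcq v).2 h1).symm⟩

/-- the bound for a `K3` configuration -/
theorem K3.bound {l γ1 γ2 : ℕ} {X Y : Finset V} {q : V} (h : K3 adj c l γ1 γ2 X Y q)
    (hq1 : Inc adj c Finset.univ γ1 q) (hq2 : Inc adj c Finset.univ γ2 q) :
    Fintype.card V ≤ l * l := by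
  classical
  have hl3 := h.hl
  have hl0 : 0 < l := by omega
  by_cases hs1 : ∀ v, Inc adj c Finset.univ γ1 v
  · exact spanning_bound h.hirr h.hT h.hmono h.hno γ1 hs1
  by_cases hs2 : ∀ v, Inc adj c Finset.univ γ2 v
  · exact spanning_bound h.hirr h.hT h.hmono h.hno γ2 hs2
  push Not at hs1 hs2
  obtain ⟨v1, hv1⟩ := hs1
  obtain ⟨v2, hv2⟩ := hs2
  have hXle : X.card ≤ l := two_bound h.hT (Finset.subset_univ _) h.hmono h.Xno2
  have hYle : Y.card ≤ l := two_bound h.hT (Finset.subset_univ _) h.hmono h.Yno2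
  have hcardc : ∀ C : Finset V, (Finset.univ \ C).card + C.card = Fintype.card V := by
    intro C
    rw [Finset.card_sdiff_add_card_eq_card (Finset.subset_univ C)]
    rfl
  have hne12 : v1 ≠ v2 := by
    rintro rfl
    have hqv : v1 ≠ q := by
      rintro rfl
      exact hv1 hq1
    rcases h.hT v1 q hqv with h1 | h1
    · rcases (h.hcq v1).1 h1 with h2 | h2
      · exact hv1 ⟨q, Finset.mem_univ _, Or.inl ⟨h1, h2⟩⟩
      · exact hv2 ⟨q, Finset.mem_univ _, Or.inl ⟨h1, h2⟩⟩
    · rcases (h.hcq v1).2 h1 with h2 | h2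
      · exact hv1 ⟨q, Finset.mem_univ _, Or.inr ⟨h1, h2⟩⟩
      · exact hv2 ⟨q, Finset.mem_univ _, Or.inr ⟨h1, h2⟩⟩
  have hWmiss : ∀ v ∈ ({v1, v2} : Finset V), ¬ Inc adj c Finset.univ γ1 v ∨
      ¬ Inc adj c Finset.univ γ2 v := by
    intro v hv
    rcases Finset.mem_insert.mp hv with rfl | hv
    · exact Or.inl hv1
    · rw [Finset.mem_singleton] at hv
      exact Or.inr (hv ▸ hv2)
  by_cases hA : v1 ∉ X ∧ v2 ∉ X
  · have h1 := weight_bound h.hirr h.hT hl0 h.hmono (γ1 := γ1) (γ2 := γ2)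
      (Finset.univ \ X) {v1, v2} (by
        intro v hv
        rcases Finset.mem_insert.mp hv with rfl | hv
        · exact Finset.mem_sdiff.mpr ⟨Finset.mem_univ _, hA.1⟩
        · rw [Finset.mem_singleton] at hv
          exact Finset.mem_sdiff.mpr ⟨Finset.mem_univ _, hv ▸ hA.2⟩) (by
        intro u hu v _ huv
        exact h.noY (Finset.mem_sdiff.mp hu).2 huv) hWmiss
    have h2 := hcardc X
    rw [Finset.card_pair hne12] at h1
    omega
  by_cases hB : v1 ∉ Y ∧ v2 ∉ Y
  · have h1 := weight_bound h.hirr h.hT hl0 h.hmono (γ1 := γ1) (γ2 := γ2)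
      (Finset.univ \ Y) {v1, v2} (by
        intro v hv
        rcases Finset.mem_insert.mp hv with rfl | hv
        · exact Finset.mem_sdiff.mpr ⟨Finset.mem_univ _, hB.1⟩
        · rw [Finset.mem_singleton] at hv
          exact Finset.mem_sdiff.mpr ⟨Finset.mem_univ _, hv ▸ hB.2⟩) (by
        intro u _ v hv huv
        exact h.noX (Finset.mem_sdiff.mp hv).2 huv) hWmiss
    have h2 := hcardc Y
    rw [Finset.card_pair hne12] at h1
    omega
  by_cases hC : v1 ∈ X
  · have hv1Y : v1 ∉ Y := h.notY hC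
    have hv2Y : v2 ∈ Y := by
      by_contra h2
      exact hB ⟨hv1Y, h2⟩
    exact h.final hC hv2Y hv1 hv2
  · have hv2X : v2 ∈ X := by
      by_contra h2
      exact hA ⟨hC, h2⟩
    have hv2Y : v2 ∉ Y := h.notY hv2X
    have hv1Y : v1 ∈ Y := by
      by_contra h2
      exact hB ⟨h2, hv2Y⟩
    exact h.swap.final hv2X hv1Y hv2 hv1

open Classical in
theorem robust_bound (hirr : ∀ u, ¬ adj u u) (hasym : ∀ u v, adj u v → ¬ adj v u)
    (hT : ∀ u v, u ≠ v → (adj u v ∨ adj v u)) {l : ℕ} (hl : 3 ≤ l)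
    (hmono : NoMono adj c Finset.univ l) (hno : ¬ ∃ p, RP adj c Finset.univ 3 p)
    {q : V} {M : Finset ℕ} (hq : Robust adj c Finset.univ 2 q M) :
    Fintype.card V ≤ l * l := by
  obtain ⟨γ1, γ2, hne, hM⟩ := Finset.card_eq_two.mp hq.1
  have hmem : ∀ γ, γ ∈ M ↔ γ = γ1 ∨ γ = γ2 := by
    intro γ
    rw [hM]
    simp
  have harc : ∀ v, v ≠ q → (adj v q → c v q ∈ M) ∧ (adj q v → c q v ∈ M) := fun v hv =>
    robust_arc (by norm_num) hno (Finset.mem_univ v) hv hq
  have hcq : ∀ v, (adj v q → c v q = γ1 ∨ c v q = γ2) ∧ (adj q v → c q v = γ1 ∨ c q v = γ2) := by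
    intro v
    by_cases hv : v = q
    · subst hv
      exact ⟨fun h => absurd h (hirr _), fun h => absurd h (hirr _)⟩
    · exact ⟨fun h => (hmem _).mp ((harc v hv).1 h), fun h => (hmem _).mp ((harc v hv).2 h)⟩
  have hex : ∀ u v, adj u v → c u v ≠ γ1 ∧ c u v ≠ γ2 → adj u q ∧ adj q v := by
    intro u v huv hc
    have hnM : c u v ∉ M := by
      rw [hmem, not_or]
      exact hc
    have hu : u ≠ q := by
      rintro rfl
      rcases (hcq v).2 huv with h1 | h1
      · exact hc.1 h1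
      · exact hc.2 h1
    have hv : v ≠ q := by
      rintro rfl
      rcases (hcq u).1 huv with h1 | h1
      · exact hc.1 h1
      · exact hc.2 h1
    have huv' : u ≠ v := by
      rintro rfl
      exact hirr _ huv
    exact exotic hT (by norm_num) hno (Finset.mem_univ _) (Finset.mem_univ _) hu hv huv' huv hq hnM
  let X : Finset V := Finset.univ.filter (fun x => ∃ y, adj x y ∧ c x y ≠ γ1 ∧ c x y ≠ γ2)
  let Y : Finset V := Finset.univ.filter (fun y => ∃ x, adj x y ∧ c x y ≠ γ1 ∧ c x y ≠ γ2)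
  have hK : K3 adj c l γ1 γ2 X Y q := by
    refine ⟨hirr, hasym, hT, hl, hmono, hno, hne, ?_, ?_, ?_, ?_, ?_, hcq⟩
    · rw [Finset.disjoint_left]
      intro v hv hv'
      obtain ⟨y, hy, hy2⟩ := (Finset.mem_filter.mp hv).2
      obtain ⟨x, hx, hx2⟩ := (Finset.mem_filter.mp hv').2
      exact hasym _ _ (hex v y hy hy2).1 (hex x v hx hx2).2
    · intro x
      simp [X]
    · intro y
      simp [Y]
    · intro x hx
      obtain ⟨y, hy, hy2⟩ := (Finset.mem_filter.mp hx).2
      exact (hex x y hy hy2).1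
    · intro y hy
      obtain ⟨x, hx, hx2⟩ := (Finset.mem_filter.mp hy).2
      exact (hex x y hx hx2).2
  have hinc : ∀ γ ∈ M, Inc adj c Finset.univ γ q := by
    intro γ hγ
    obtain ⟨_, ⟨t, ht⟩⟩ := hq.2 ∅ (by simp) (by simp) {γ} (by simpa using hγ)
    have hlen := ht.length (by simp)
    obtain ⟨y, rfl⟩ : ∃ y, t = [y] := by
      simp only [List.length_cons, Finset.card_singleton] at hlen
      exact List.length_eq_one_iff.mp (by omega)
    have hcol : c q y = γ := by
      have := ht.2.2.2.2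
      simp only [cols_cons_cons, cols_single, List.toFinset_cons, List.toFinset_nil,
        insert_empty_eq, Finset.singleton_inj] at this
      exact this
    have hvy : adj q y := by
      have := ht.2.1
      rw [List.isChain_cons_cons] at this
      exact this.1
    exact ⟨y, Finset.mem_univ _, Or.inl ⟨hvy, hcol⟩⟩
  exact hK.bound (hinc γ1 ((hmem _).mpr (Or.inl rfl))) (hinc γ2 ((hmem _).mpr (Or.inr rfl)))

theorem k3_exact {l n : ℕ} (hl : 4716 ≤ l) (hn : l ^ 2 < n)
    (adj : Fin n → Fin n → Prop) (hirr : ∀ u, ¬ adj u u)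
    (hT : ∀ u v, u ≠ v → (adj u v ↔ ¬ adj v u)) (c : Fin n → Fin n → ℕ) :
    (∃ p : Fin (l + 1) → Fin n,
        Function.Injective p ∧
        (∀ i : Fin l, adj (p i.castSucc) (p i.succ)) ∧
        (∀ i j : Fin l, c (p i.castSucc) (p i.succ) = c (p j.castSucc) (p j.succ))) ∨
    (∃ p : Fin (3 + 1) → Fin n,
        Function.Injective p ∧
        (∀ i : Fin 3, adj (p i.castSucc) (p i.succ)) ∧
        Function.Injective (fun i : Fin 3 => c (p i.castSucc) (p i.succ))) := by
  classical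
  by_contra hcon
  push Not at hcon
  obtain ⟨hm, hr⟩ := hcon
  have hT' : ∀ u v, u ≠ v → (adj u v ∨ adj v u) := by
    intro u v huv
    by_cases h : adj v u
    · exact Or.inr h
    · exact Or.inl ((hT u v huv).mpr h)
  have hasym : ∀ u v, adj u v → ¬ adj v u := by
    intro u v huv
    have hne : u ≠ v := by
      rintro rfl
      exact hirr _ huv
    exact (hT u v hne).mp huv
  have hmono : NoMono adj c Finset.univ l := by
    intro γ hex
    obtain ⟨p, h1, h2, h3⟩ := hex
    have h4 := List.isChain_iff_getElem.mp h3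
    obtain ⟨i, j, hij⟩ := hm (fun i => p[i.1]'(by rw [h1]; exact i.2)) (by
      intro i j hij
      exact Fin.ext ((List.Nodup.getElem_inj_iff h2).mp hij)) (by
      intro i
      exact (h4 i.1 (by rw [h1]; have := i.2; omega)).2.2.1)
    apply hij
    have hi := (h4 i.1 (by rw [h1]; have := i.2; omega)).2.2.2
    have hj := (h4 j.1 (by rw [h1]; have := j.2; omega)).2.2.2
    exact hi.trans hj.symm
  have hno : ¬ ∃ p, RP adj c Finset.univ 3 p := by
    intro hex
    obtain ⟨p, h1, h2, h3⟩ := to_fin hex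
    exact hr p h1 h2 h3
  -- a robust vertex exists
  have hex : ∃ q, ∃ M, Robust adj c Finset.univ 2 q M := by
    by_contra hcon2
    push Not at hcon2
    have h1 := robust_count (c := c) hirr hT' (l := l) (k := 3) (by omega) (by norm_num) 2
      (by norm_num) Finset.univ hmono hno
    rw [Finset.filter_true_of_mem (by
      intro v _
      push Not
      exact hcon2 v), Finset.card_univ, Fintype.card_fin] at h1
    have hcl : Nat.clog 2 3 = 2 := by
      have h2 : Nat.clog 2 3 ≤ 2 := Nat.clog_le_of_le_pow (by norm_num)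
      have h3 : 3 ≤ 2 ^ Nat.clog 2 3 := Nat.le_pow_clog (by norm_num) 3
      have h4 : 1 < Nat.clog 2 3 := by
        by_contra h5
        push Not at h5
        have h6 : 2 ^ Nat.clog 2 3 ≤ 2 ^ 1 := Nat.pow_le_pow_right (by norm_num) h5
        omega
      omega
    have hE : EE (19 * Nat.clog 2 3) l 2 = 524 * l := by
      rw [hcl]
      simp only [EE]
      ring
    rw [hE] at h1
    have h5 : l ^ 2 = l * l := by ring
    have h6 : 4716 * l ≤ l * l := Nat.mul_le_mul_right _ hl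
    omega
  obtain ⟨q, M, hq⟩ := hex
  have h1 := robust_bound hirr hasym hT' (by omega) hmono hno hq
  rw [Fintype.card_fin] at h1
  have h5 : l ^ 2 = l * l := by ring
  omega

end Pool.Agent.Y389.RT
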