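import Mathlib
import Pool.Agent.Y389.RT.K3c

set_option autoImplicit false

namespace Pool.Agent.Y389.RT

variable {V : Type*} {adj : V → V → Prop} {c : V → V → ℕ} {S : Finset V}

theorem RA.pair {a b : V} (ha : a ∈ S) (hb : b ∈ S) (hne : a ≠ b) (hab : adj a b) :
    RA adj c S [a, b] {c a b} := by
  refine ⟨by simpa using hne, by simpa using hab, ?_, by simp, by simp⟩
  intro x hx
  simp only [List.mem_cons, List.not_mem_nil, or_false] at hx
  rcases hx with rfl | rfl <;> assumption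

theorem rich_pair (hirr : ∀ u, ¬ adj u u) {u v w : V} {γ : ℕ} (hu : u ∈ S) (hv : v ∈ S)
    (hw : w ∈ S) (huv : adj u v) (hvw : adj v w) (h1 : c u v = γ) (h2 : c v w = γ) :
    Rich adj c S v {γ} := by
  have huv' : u ≠ v := by rintro rfl; exact hirr _ huv
  have hvw' : v ≠ w := by rintro rfl; exact hirr _ hvw
  intro A hA
  rcases Finset.subset_singleton_iff.mp hA with rfl | rfl
  · exact ⟨⟨[], by simpa using RA.single hv⟩, ⟨[], RA.single hv⟩⟩
  · refine ⟨⟨[u], ?_⟩, ⟨[w], ?_⟩⟩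
    · have := RA.pair (c := c) hu hv huv' huv
      rw [h1] at this
      simpa using this
    · have := RA.pair (c := c) hv hw hvw' hvw
      rwa [h2] at this

open Classical in
/-- all but at most two vertices are rich for one colour if no rainbow path has two arcs -/
theorem rich_one [Fintype V] (hirr : ∀ u, ¬ adj u u) (hT : ∀ u v, u ≠ v → (adj u v ∨ adj v u))
    (hno : ¬ ∃ p, RP adj c S 2 p) :
    (S.filter (fun v => ¬ ∃ M : Finset ℕ, M.card = 1 ∧ Rich adj c S v M)).card ≤ 2 := by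
  obtain ⟨p, h1, h2, h3, h4⟩ := ham hT S
  obtain ⟨γ, hγ⟩ := all_same hno p h1 h2 (fun x hx => (h3 x).mp hx)
  have h5 := chain_col (T := S) p γ h2 (fun x hx => (h3 x).mp hx) hγ
  rcases p with _ | ⟨a, t⟩
  · have : S = ∅ := by
      ext x
      rw [← h3]
      simp
    rw [this]
    simp
  · have hsub : S.filter (fun v => ¬ ∃ M : Finset ℕ, M.card = 1 ∧ Rich adj c S v M) ⊆
        {a, (a :: t).getLast (by simp)} := by
      intro v hv
      obtain ⟨hvS, hvn⟩ := Finset.mem_filter.mp hv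
      by_contra hcon
      rw [Finset.mem_insert, Finset.mem_singleton, not_or] at hcon
      have hvp := (h3 v).mpr hvS
      obtain ⟨u, hu, hu1, hu2, hu3, hu4⟩ := pred_of_mem a t h5 v (by
        rcases List.mem_cons.mp hvp with h | h
        · exact absurd h hcon.1
        · exact h)
      obtain ⟨w, hw, hw1, hw2, hw3, hw4⟩ := succ_of_mem (a :: t) (by simp) h5 v hvp hcon.2
      exact hvn ⟨{γ}, by simp, rich_pair hirr hu1 hu2 hw2 hu3 hw3 hu4 hw4⟩
    exact (Finset.card_le_card hsub).trans (Finset.card_le_two)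

open Classical in
/-- one step of the count of the vertices that are not rich -/
theorem step_count [Fintype V] (hirr : ∀ u, ¬ adj u u) {l m B E g : ℕ}
    (hmono : NoMono adj c S l) (h : ¬ ∃ p, RP adj c S (m + 1 + 1) p)
    (hB : ∀ U ⊆ S, (¬ ∃ p, RP adj c U (m + 1) p) → U.card ≤ B)
    (hE : ∀ U ⊆ S, (¬ ∃ p, RP adj c U (m + 1) p) →
      (U.filter (fun v => ¬ ∃ M : Finset ℕ, M.card = m ∧ Rich adj c U v M)).card ≤ E)
    (G : Finset ℕ) (hG : G.card ≤ g)
    (hN : ¬ ∃ p, RP adj c (S.filter (fun v => ∀ γ ∈ G, ¬ Inc adj c S γ v)) (m + 1) p) :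
    (S.filter (fun v => ¬ ∃ M : Finset ℕ, M.card = m + 1 ∧ Rich adj c S v M)).card ≤
      B + g * (2 * B + l * E) := by
  choose lam hlam1 hlam2 hlam3 hlam4 using fun γ : ℕ =>
    gallai_roy (fun x y => x ∈ S ∧ y ∈ S ∧ adj x y ∧ c x y = γ)
      (fun x hx => hirr x hx.2.2.1) l (hmono γ)
  let hasOut : ℕ → V → Prop := fun γ v => ∃ w ∈ S, adj v w ∧ c v w = γ
  let hasIn : ℕ → V → Prop := fun γ v => ∃ w ∈ S, adj w v ∧ c w v = γ
  let Src : ℕ → Finset V := fun γ => S.filter (fun v => hasOut γ v ∧ ¬ hasIn γ v)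
  let Snk : ℕ → Finset V := fun γ => S.filter (fun v => hasIn γ v ∧ ¬ hasOut γ v)
  let Mid : ℕ → ℕ → Finset V := fun γ j =>
    S.filter (fun v => hasIn γ v ∧ hasOut γ v ∧ lam γ v = j)
  let NR : ℕ → ℕ → Finset V := fun γ j =>
    (Mid γ j).filter (fun v => ¬ ∃ M : Finset ℕ, M.card = m ∧ Rich adj c (Mid γ j) v M)
  have hSrc : ∀ γ, (Src γ).card ≤ B := by
    intro γ
    apply hB _ (Finset.filter_subset _ _)
    intro hex
    refine h (step_out (D := {γ}) (Finset.filter_subset _ _) ?_ ?_ hex)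
    · intro u hu v hv huv hD
      exact (Finset.mem_filter.mp hv).2.2 ⟨u, (Finset.mem_filter.mp hu).1, huv, hD⟩
    · intro v hv
      obtain ⟨w, hw, h1, h2⟩ := (Finset.mem_filter.mp hv).2.1
      exact ⟨w, hw, h1, h2⟩
  have hSnk : ∀ γ, (Snk γ).card ≤ B := by
    intro γ
    apply hB _ (Finset.filter_subset _ _)
    intro hex
    refine h (step_in (D := {γ}) (Finset.filter_subset _ _) ?_ ?_ hex)
    · intro u hu v hv huv hD
      exact (Finset.mem_filter.mp hu).2.2 ⟨v, (Finset.mem_filter.mp hv).1, huv, hD⟩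
    · intro v hv
      obtain ⟨w, hw, h1, h2⟩ := (Finset.mem_filter.mp hv).2.1
      exact ⟨w, hw, h1, h2⟩
  have hMid0 : ∀ γ j, ∀ u ∈ Mid γ j, ∀ v ∈ Mid γ j, adj u v → c u v ≠ γ := by
    intro γ j u hu v hv huv hc
    obtain ⟨huS, -, -, huj⟩ := Finset.mem_filter.mp hu
    obtain ⟨hvS, -, -, hvj⟩ := Finset.mem_filter.mp hv
    exact hlam2 γ u v ⟨huS, hvS, huv, hc⟩ (huj.trans hvj.symm)
  have hNR : ∀ γ j, (NR γ j).card ≤ E := by
    intro γ j
    apply hE (Mid γ j) (Finset.filter_subset _ _)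
    intro hex
    refine h (step_in (D := {γ}) (Finset.filter_subset _ _) ?_ ?_ hex)
    · intro u hu v hv huv hD
      exact hMid0 γ j u hu v hv huv hD
    · intro v hv
      obtain ⟨w, hw, h1, h2⟩ := (Finset.mem_filter.mp hv).2.1
      exact ⟨w, hw, h1, h2⟩
  let N := S.filter (fun v => ∀ γ ∈ G, ¬ Inc adj c S γ v)
  have hNc : N.card ≤ B := hB N (Finset.filter_subset _ _) hN
  have hcov : S.filter (fun v => ¬ ∃ M : Finset ℕ, M.card = m + 1 ∧ Rich adj c S v M) ⊆
      N ∪ G.biUnion (fun γ => (Src γ ∪ Snk γ) ∪ (Finset.range l).biUnion (NR γ)) := by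
    intro v hv
    obtain ⟨hvS, hvn⟩ := Finset.mem_filter.mp hv
    by_cases hinc : ∀ γ ∈ G, ¬ Inc adj c S γ v
    · exact Finset.mem_union_left _ (Finset.mem_filter.mpr ⟨hvS, hinc⟩)
    · push Not at hinc
      obtain ⟨γ, hγ, w, hw, hw'⟩ := hinc
      refine Finset.mem_union_right _ (Finset.mem_biUnion.mpr ⟨γ, hγ, ?_⟩)
      by_cases ho : hasOut γ v
      · by_cases hi : hasIn γ v
        · refine Finset.mem_union_right _ (Finset.mem_biUnion.mpr
            ⟨lam γ v, Finset.mem_range.mpr (hlam1 γ v), ?_⟩)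
          refine Finset.mem_filter.mpr ⟨Finset.mem_filter.mpr ⟨hvS, hi, ho, rfl⟩, ?_⟩
          rintro ⟨M, hM, hrich⟩
          obtain ⟨h1, h2⟩ := hrich.lift (S := S) (γ := γ) (Finset.filter_subset _ _)
            (hMid0 γ (lam γ v))
            (fun u hu => (Finset.mem_filter.mp hu).2.1)
            (fun u hu => (Finset.mem_filter.mp hu).2.2.1)
          exact hvn ⟨insert γ M, by rw [Finset.card_insert_of_notMem h1, hM], h2⟩
        · exact Finset.mem_union_left _ (Finset.mem_union_left _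
            (Finset.mem_filter.mpr ⟨hvS, ho, hi⟩))
      · have hi : hasIn γ v := by
          rcases hw' with h1 | h1
          · exact absurd ⟨w, hw, h1⟩ ho
          · exact ⟨w, hw, h1⟩
        exact Finset.mem_union_left _ (Finset.mem_union_right _
          (Finset.mem_filter.mpr ⟨hvS, hi, ho⟩))
  have hstep : ∀ γ ∈ G, ((Src γ ∪ Snk γ) ∪ (Finset.range l).biUnion (NR γ)).card ≤
      2 * B + l * E := by
    intro γ _
    calc ((Src γ ∪ Snk γ) ∪ (Finset.range l).biUnion (NR γ)).card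
        ≤ (Src γ ∪ Snk γ).card + ((Finset.range l).biUnion (NR γ)).card :=
          Finset.card_union_le _ _
      _ ≤ ((Src γ).card + (Snk γ).card) + ∑ j ∈ Finset.range l, (NR γ j).card :=
          Nat.add_le_add (Finset.card_union_le _ _) Finset.card_biUnion_le
      _ ≤ (B + B) + ∑ _j ∈ Finset.range l, E :=
          Nat.add_le_add (Nat.add_le_add (hSrc γ) (hSnk γ))
            (Finset.sum_le_sum (fun j _ => hNR γ j))
      _ = 2 * B + l * E := by simp; ring
  calc _ ≤ (N ∪ G.biUnion (fun γ => (Src γ ∪ Snk γ) ∪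
          (Finset.range l).biUnion (NR γ))).card := Finset.card_le_card hcov
    _ ≤ N.card + (G.biUnion (fun γ => (Src γ ∪ Snk γ) ∪
          (Finset.range l).biUnion (NR γ))).card := Finset.card_union_le _ _
    _ ≤ B + ∑ γ ∈ G, ((Src γ ∪ Snk γ) ∪ (Finset.range l).biUnion (NR γ)).card :=
        Nat.add_le_add hNc Finset.card_biUnion_le
    _ ≤ B + ∑ _γ ∈ G, (2 * B + l * E) := Nat.add_le_add_left (Finset.sum_le_sum hstep) _
    _ = B + G.card * (2 * B + l * E) := by simp
    _ ≤ B + g * (2 * B + l * E) :=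
        Nat.add_le_add_left (Nat.mul_le_mul_right _ hG) _

open Classical in
theorem weak_two [Fintype V] (hirr : ∀ u, ¬ adj u u)
    (hT : ∀ u v, u ≠ v → (adj u v ∨ adj v u)) {l : ℕ} (hmono : NoMono adj c S l)
    (h : ¬ ∃ p, RP adj c S 3 p) :
    (S.filter (fun v => ¬ ∃ M : Finset ℕ, M.card = 2 ∧ Rich adj c S v M)).card ≤ 25 * l := by
  obtain ⟨G, hG, hN⟩ := hit hT (m := 2) (by norm_num) h
  have h1 := step_count (m := 1) (B := l) (E := 2) hirr hmono h
    (fun U hU hU2 => two_bound hT hU hmono hU2) (fun U _ hU2 => rich_one hirr hT hU2) G hG hN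
  calc _ ≤ _ := h1
    _ = 25 * l := by ring

open Classical in
theorem robust_two [Fintype V] (hirr : ∀ u, ¬ adj u u)
    (hT : ∀ u v, u ≠ v → (adj u v ∨ adj v u)) {l : ℕ} (hmono : NoMono adj c S l)
    (h : ¬ ∃ p, RP adj c S 3 p) :
    (S.filter (fun v => ¬ ∃ M, Robust adj c S 2 v M)).card ≤ 225 * l := by
  have hF : ∀ v : V, ∃ F : Finset V, (¬ ∃ M, Robust adj c S 2 v M) →
      (F.card ≤ 2 * 2 ∧ v ∉ F ∧ ¬ ∃ M : Finset ℕ, M.card = 2 ∧ Rich adj c (S \ F) v M) := by
    intro v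
    by_cases hv : ¬ ∃ M, Robust adj c S 2 v M
    · obtain ⟨F, hF⟩ := not_robust (m := 2) h hv
      exact ⟨F, fun _ => hF⟩
    · exact ⟨∅, fun hv' => absurd hv' hv⟩
  choose F hF using hF
  set Z := S.filter (fun v => ¬ ∃ M, Robust adj c S 2 v M) with hZ
  have hZm : ∀ v ∈ Z, ¬ ∃ M, Robust adj c S 2 v M := fun v hv => (Finset.mem_filter.mp hv).2
  obtain ⟨Y, hYZ, hcard, hind⟩ := indep F (2 * 2) Z.card Z rfl
    (fun v hv => (hF v (hZm v hv)).1) (fun v hv => (hF v (hZm v hv)).2.1)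
  have hYS : Y ⊆ S := hYZ.trans (Finset.filter_subset _ _)
  have hYE : Y.card ≤ 25 * l := by
    have h1 := weak_two hirr hT (hmono.mono hYS) (fun hex => by
      obtain ⟨p, hp⟩ := hex
      exact h ⟨p, hp.mono' hYS⟩)
    rw [Finset.filter_true_of_mem] at h1
    · exact h1
    · intro v hv
      rintro ⟨M, hM, hrich⟩
      refine (hF v (hZm v (hYZ hv))).2.2 ⟨M, hM, hrich.mono ?_⟩
      intro u hu
      exact Finset.mem_sdiff.mpr ⟨hYS hu, hind u hu v hv⟩
  calc Z.card ≤ (2 * (2 * 2) + 1) * Y.card := hcard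
    _ ≤ (2 * (2 * 2) + 1) * (25 * l) := Nat.mul_le_mul_left _ hYE
    _ = 225 * l := by ring

theorem k3_exact' {l n : ℕ} (hl : 225 ≤ l) (hn : l ^ 2 < n)
    (adj : Fin n → Fin n → Prop) (hirr : ∀ u, ¬ adj u u)
    (hT : ∀ u v, u ≠ v → (adj u v ↔ ¬ adj v u)) (c : Fin n → Fin n → ℕ) :
    (∃ p : Fin (l + 1) → Fin n,
        Function.Injective p ∧
        (∀ i : Fin l, adj (p i.castSucc) (p i.succ)) ∧
        (∀ i j : Fin l, c (p i.castSucc) (p i.succ) = c (p j.castSucc) (p j.succ))) ∨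
    (∃ p : Fin (3 + 1) → Fin n,
        Function.Injective p ∧
        (∀ i : Fin 3, adj (p i.castSucc) (p i.succ)) ∧
        Function.Injective (fun i : Fin 3 => c (p i.castSucc) (p i.succ))) := by
  classical
  by_contra hcon
  push Not at hcon
  obtain ⟨hm, hr⟩ := hcon
  have hT' : ∀ u v, u ≠ v → (adj u v ∨ adj v u) := by
    intro u v huv
    by_cases h : adj v u
    · exact Or.inr h
    · exact Or.inl ((hT u v huv).mpr h)
  have hasym : ∀ u v, adj u v → ¬ adj v u := by
    intro u v huv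
    have hne : u ≠ v := by
      rintro rfl
      exact hirr _ huv
    exact (hT u v hne).mp huv
  have hmono : NoMono adj c Finset.univ l := by
    intro γ hex
    obtain ⟨p, h1, h2, h3⟩ := hex
    have h4 := List.isChain_iff_getElem.mp h3
    obtain ⟨i, j, hij⟩ := hm (fun i => p[i.1]'(by rw [h1]; exact i.2)) (by
      intro i j hij
      exact Fin.ext ((List.Nodup.getElem_inj_iff h2).mp hij)) (by
      intro i
      exact (h4 i.1 (by rw [h1]; have := i.2; omega)).2.2.1)
    apply hij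
    have hi := (h4 i.1 (by rw [h1]; have := i.2; omega)).2.2.2
    have hj := (h4 j.1 (by rw [h1]; have := j.2; omega)).2.2.2
    exact hi.trans hj.symm
  have hno : ¬ ∃ p, RP adj c Finset.univ 3 p := by
    intro hex
    obtain ⟨p, h1, h2, h3⟩ := to_fin hex
    exact hr p h1 h2 h3
  have h5 : l ^ 2 = l * l := by ring
  have hex : ∃ q, ∃ M, Robust adj c Finset.univ 2 q M := by
    by_contra hcon2
    push Not at hcon2
    have h1 := robust_two (c := c) hirr hT' hmono hno
    rw [Finset.filter_true_of_mem (by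
      intro v _
      push Not
      exact hcon2 v), Finset.card_univ, Fintype.card_fin] at h1
    have h6 : 225 * l ≤ l * l := Nat.mul_le_mul_right _ hl
    omega
  obtain ⟨q, M, hq⟩ := hex
  have h1 := robust_bound hirr hasym hT' (by omega) hmono hno hq
  rw [Fintype.card_fin] at h1
  omega

end Pool.Agent.Y389.RT
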