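import Mathlib
import Pool.Agent.Y389.RT.Robust

set_option autoImplicit false

namespace Pool.Agent.Y389.RT

theorem sharp_core {l k n : ℕ} (hl : 0 < l) (hk : 2 ≤ k)
    (hn : l ^ (k - 1) + (4 * k - 3) * (57 * k ^ 2 * Nat.clog 2 k) ^ (k - 1) * l ^ (k - 2) < n)
    (adj : Fin n → Fin n → Prop) (hirr : ∀ u, ¬ adj u u)
    (hT : ∀ u v, u ≠ v → (adj u v ↔ ¬ adj v u)) (c : Fin n → Fin n → ℕ) :
    (∃ p : Fin (l + 1) → Fin n,
        Function.Injective p ∧
        (∀ i : Fin l, adj (p i.castSucc) (p i.succ)) ∧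
        (∀ i j : Fin l, c (p i.castSucc) (p i.succ) = c (p j.castSucc) (p j.succ))) ∨
    (∃ p : Fin (k + 1) → Fin n,
        Function.Injective p ∧
        (∀ i : Fin k, adj (p i.castSucc) (p i.succ)) ∧
        Function.Injective (fun i : Fin k => c (p i.castSucc) (p i.succ))) := by
  classical
  by_contra hcon
  push Not at hcon
  obtain ⟨hm, hr⟩ := hcon
  have hT' : ∀ u v, u ≠ v → (adj u v ∨ adj v u) := by
    intro u v huv
    by_cases h : adj v u
    · exact Or.inr h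
    · exact Or.inl ((hT u v huv).mpr h)
  have hmono : NoMono adj c Finset.univ l := by
    intro γ hex
    obtain ⟨p, h1, h2, h3⟩ := hex
    have h4 := List.isChain_iff_getElem.mp h3
    obtain ⟨i, j, hij⟩ := hm (fun i => p[i.1]'(by rw [h1]; exact i.2)) (by
      intro i j hij
      exact Fin.ext ((List.Nodup.getElem_inj_iff h2).mp hij)) (by
      intro i
      exact (h4 i.1 (by rw [h1]; have := i.2; omega)).2.2.1)
    apply hij
    have hi := (h4 i.1 (by rw [h1]; have := i.2; omega)).2.2.2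
    have hj := (h4 j.1 (by rw [h1]; have := j.2; omega)).2.2.2
    exact hi.trans hj.symm
  have hno : ¬ ∃ p, RP adj c Finset.univ k p := by
    intro hex
    obtain ⟨p, h1, h2, h3⟩ := to_fin hex
    exact hr p h1 h2 h3
  obtain ⟨m, rfl⟩ : ∃ m, k = m + 2 := ⟨k - 2, by omega⟩
  have h1 := sharp_aux (c := c) hirr hT' hl (m + 1) (by omega) Finset.univ hmono hno
  rw [Finset.card_univ, Fintype.card_fin] at h1
  have h2 := EE_bound (k := m + 2) (l := l) (by omega) hl (m + 1) le_rfl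
  have h3 : EE (19 * Nat.clog 2 (m + 2)) l (m + 1) ≤
      (57 * (m + 2) ^ 2 * Nat.clog 2 (m + 2)) ^ (m + 1) * l ^ m := by
    apply Nat.le_of_mul_le_mul_left _ hl
    calc l * EE (19 * Nat.clog 2 (m + 2)) l (m + 1)
        ≤ (57 * (m + 2) ^ 2 * Nat.clog 2 (m + 2) * l) ^ (m + 1) := h2
      _ = l * ((57 * (m + 2) ^ 2 * Nat.clog 2 (m + 2)) ^ (m + 1) * l ^ m) := by
        rw [mul_pow]
        ring
  have e1 : m + 2 - 1 = m + 1 := by omega
  have e2 : m + 2 - 2 = m := by omega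
  have e3 : 4 * (m + 2) - 3 = 4 * (m + 1) + 1 := by omega
  rw [e1, e2, e3] at hn
  have h4 : (4 * (m + 1) + 1) * EE (19 * Nat.clog 2 (m + 2)) l (m + 1) ≤
      (4 * (m + 1) + 1) * (57 * (m + 2) ^ 2 * Nat.clog 2 (m + 2)) ^ (m + 1) * l ^ m := by
    rw [mul_assoc]
    exact Nat.mul_le_mul_left _ h3
  have e4 : m + 1 + 1 = m + 2 := rfl
  rw [e4] at h1
  omega

end Pool.Agent.Y389.RT
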