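import Mathlib
import Pool.Agent.Y389.RT.K3c
import Pool.Agent.Y389.RT.Final

set_option autoImplicit false

namespace Pool.Agent.Y389.RT

variable {V : Type*} {adj : V → V → Prop} {c : V → V → ℕ} {S : Finset V}

theorem cols_map {W : Type*} (f : W → V) :
    ∀ p : List W, cols c (p.map f) = cols (fun x y => c (f x) (f y)) p
  | [] => rfl
  | [_] => rfl
  | (x :: y :: t) => by
    have := cols_map f (y :: t)
    simp only [List.map_cons, cols_cons_cons] at this ⊢
    rw [this]

/-- the exact bound of the case `k = 3` for a subset -/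
theorem k3_subset (hirr : ∀ u, ¬ adj u u) (hasym : ∀ u v, adj u v → ¬ adj v u)
    (hT : ∀ u v, u ≠ v → (adj u v ∨ adj v u)) {l : ℕ} (hl : 4716 ≤ l)
    (S : Finset V) (hmono : NoMono adj c S l) (hno : ¬ ∃ p, RP adj c S 3 p) :
    S.card ≤ l * l := by
  classical
  let W := {x // x ∈ S}
  let adj' : W → W → Prop := fun x y => adj x.1 y.1
  let c' : W → W → ℕ := fun x y => c x.1 y.1
  have hT' : ∀ u v : W, u ≠ v → (adj' u v ∨ adj' v u) := fun u v huv =>
    hT u.1 v.1 (fun h => huv (Subtype.ext h))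
  have hmono' : NoMono adj' c' Finset.univ l := by
    intro γ hex
    obtain ⟨p, h1, h2, h3⟩ := hex
    refine hmono γ ⟨p.map Subtype.val, by simpa using h1, h2.map Subtype.val_injective, ?_⟩
    rw [List.isChain_map]
    exact h3.imp (fun a b hab => ⟨a.2, b.2, hab.2.2⟩)
  have hno' : ¬ ∃ p, RP adj' c' Finset.univ 3 p := by
    rintro ⟨p, h1, h2, h3, _, h5⟩
    refine hno ⟨p.map Subtype.val, by simpa using h1, h2.map Subtype.val_injective, ?_, ?_, ?_⟩
    · rw [List.isChain_map]
      exact h3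
    · intro x hx
      obtain ⟨y, _, rfl⟩ := List.mem_map.mp hx
      exact y.2
    · rw [cols_map]
      exact h5
  have hcardW : Fintype.card W = S.card := Fintype.card_coe S
  by_cases hex : ∃ q, ∃ M, Robust adj' c' Finset.univ 2 q M
  · obtain ⟨q, M, hq⟩ := hex
    have h1 := robust_bound (adj := adj') (c := c') (fun u => hirr u.1)
      (fun u v => hasym u.1 v.1) hT' (by omega) hmono' hno' hq
    rwa [hcardW] at h1
  · push Not at hex
    have h1 := robust_count (c := c') (adj := adj') (fun u => hirr u.1) hT' (l := l) (k := 3)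
      (by omega) (by norm_num) 2 (by norm_num) Finset.univ hmono' hno'
    rw [Finset.filter_true_of_mem (by
      intro v _
      push Not
      exact hex v), Finset.card_univ, hcardW] at h1
    have hcl : Nat.clog 2 3 = 2 := by
      have h2 : Nat.clog 2 3 ≤ 2 := Nat.clog_le_of_le_pow (by norm_num)
      have h3 : 3 ≤ 2 ^ Nat.clog 2 3 := Nat.le_pow_clog (by norm_num) 3
      have h4 : 1 < Nat.clog 2 3 := by
        by_contra h5
        push Not at h5
        have h6 : 2 ^ Nat.clog 2 3 ≤ 2 ^ 1 := Nat.pow_le_pow_right (by norm_num) h5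
        omega
      omega
    have hE : EE (19 * Nat.clog 2 3) l 2 = 524 * l := by
      rw [hcl]
      simp only [EE]
      ring
    rw [hE] at h1
    have h6 : 4716 * l ≤ l * l := Nat.mul_le_mul_right _ hl
    omega

open Classical in
/-- vertices missing the colour `γ` occupy whole lines of the code cube -/
theorem line_bound [Fintype V] (hirr : ∀ u, ¬ adj u u)
    (hT : ∀ u v, u ≠ v → (adj u v ∨ adj v u)) {l : ℕ} (hmono : NoMono adj c S l)
    {Q N : Finset V} (hQ : Q ⊆ S) (hN : N ⊆ S) {M : Finset ℕ} {γ : ℕ} (hγ : γ ∈ M)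
    (hQQ : ∀ a ∈ Q, ∀ b ∈ Q, adj a b → c a b ∈ M)
    (hNN : ∀ a ∈ N, ∀ b ∈ N, adj a b → c a b ∈ M)
    (hNQ : ∀ a ∈ N, ∀ q ∈ Q, a ≠ q ∧ (adj a q → c a q ∈ M) ∧ (adj q a → c q a ∈ M))
    (hNγ : ∀ a ∈ N, ¬ Inc adj c S γ a) :
    N.card * l + Q.card ≤ l ^ M.card := by
  choose lam hlam1 hlam2 _ _ using fun δ : ℕ =>
    gallai_roy (fun x y => x ∈ S ∧ y ∈ S ∧ adj x y ∧ c x y = δ)
      (fun x hx => hirr x hx.2.2.1) l (hmono δ)
  let code : V → ({x // x ∈ M} → Fin l) := fun v g => ⟨lam g.1 v, hlam1 g.1 v⟩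
  let ncode : V × Fin l → ({x // x ∈ M} → Fin l) := fun p g =>
    if g.1 = γ then p.2 else code p.1 g
  -- separation of codes by an arc of a colour of `M`
  have sep : ∀ a b : V, a ∈ S → b ∈ S → a ≠ b → (adj a b → c a b ∈ M) → (adj b a → c b a ∈ M) →
      ∃ g : {x // x ∈ M}, code a g ≠ code b g ∧
        (Inc adj c S g.1 a ∧ Inc adj c S g.1 b) := by
    intro a b ha hb hne h1 h2
    rcases hT a b hne with h3 | h3
    · refine ⟨⟨c a b, h1 h3⟩, ?_, ⟨b, hb, Or.inl ⟨h3, rfl⟩⟩, ⟨a, ha, Or.inr ⟨h3, rfl⟩⟩⟩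
      intro heq
      simp only [code, Fin.mk.injEq] at heq
      exact hlam2 (c a b) a b ⟨ha, hb, h3, rfl⟩ heq
    · refine ⟨⟨c b a, h2 h3⟩, ?_, ⟨b, hb, Or.inr ⟨h3, rfl⟩⟩, ⟨a, ha, Or.inl ⟨h3, rfl⟩⟩⟩
      intro heq
      simp only [code, Fin.mk.injEq] at heq
      exact hlam2 (c b a) b a ⟨hb, ha, h3, rfl⟩ heq.symm
  have hinjQ : Set.InjOn code (Q : Set V) := by
    intro a ha b hb hab
    by_contra hne
    obtain ⟨g, hg, _⟩ := sep a b (hQ ha) (hQ hb) hne (hQQ a ha b hb) (hQQ b hb a ha)
    exact hg (congrFun hab g)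
  have hinjN : Set.InjOn ncode ((N ×ˢ (Finset.univ : Finset (Fin l)) : Finset (V × Fin l)) :
      Set (V × Fin l)) := by
    rintro ⟨a, i⟩ ha ⟨b, j⟩ hb hab
    rw [Finset.mem_coe, Finset.mem_product] at ha hb
    have hij : i = j := by
      have := congrFun hab ⟨γ, hγ⟩
      simpa [ncode] using this
    subst hij
    by_contra hne
    have hne' : a ≠ b := fun h => hne (by rw [h])
    obtain ⟨g, hg, hg1, hg2⟩ := sep a b (hN ha.1) (hN hb.1) hne' (hNN a ha.1 b hb.1)
      (hNN b hb.1 a ha.1)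
    have hgγ : g.1 ≠ γ := fun h => hNγ a ha.1 (h ▸ hg1)
    have := congrFun hab g
    simp only [ncode, if_neg hgγ] at this
    exact hg this
  have hdisj : Disjoint ((N ×ˢ (Finset.univ : Finset (Fin l))).image ncode) (Q.image code) := by
    rw [Finset.disjoint_left]
    intro f hf hf'
    obtain ⟨⟨a, i⟩, ha, rfl⟩ := Finset.mem_image.mp hf
    obtain ⟨q, hq, hqf⟩ := Finset.mem_image.mp hf'
    rw [Finset.mem_product] at ha
    obtain ⟨hne, h1, h2⟩ := hNQ a ha.1 q hq
    obtain ⟨g, hg, hg1, hg2⟩ := sep a q (hN ha.1) (hQ hq) hne h1 h2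
    have hgγ : g.1 ≠ γ := fun h => hNγ a ha.1 (h ▸ hg1)
    have := congrFun hqf g
    simp only [ncode, if_neg hgγ] at this
    exact hg this.symm
  have h1 := Finset.card_union_of_disjoint hdisj
  rw [Finset.card_image_of_injOn hinjN, Finset.card_image_of_injOn hinjQ, Finset.card_product,
    Finset.card_univ, Fintype.card_fin] at h1
  rw [← h1]
  refine (Finset.card_le_univ _).trans ?_
  rw [Fintype.card_fun, Fintype.card_fin, Fintype.card_coe]

/-- the constant `C_k` -/
def CC (k : ℕ) : ℕ := (4 * k - 3) * (57 * k ^ 2 * Nat.clog 2 k) ^ (k - 1)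

theorem CC_bound {k l m : ℕ} (hk : 2 ≤ k) (hl : 0 < l) (hm : 1 ≤ m) (hmk : m + 1 ≤ k) :
    (4 * m + 1) * EE (19 * Nat.clog 2 k) l m ≤ CC k * l ^ (m - 1) := by
  have hc : 1 ≤ Nat.clog 2 k := Nat.clog_pos (by norm_num) (by omega)
  have h2 := EE_bound (k := k) (l := l) hk hl m hmk
  obtain ⟨r, rfl⟩ : ∃ r, m = r + 1 := ⟨m - 1, by omega⟩
  have h3 : EE (19 * Nat.clog 2 k) l (r + 1) ≤
      (57 * k ^ 2 * Nat.clog 2 k) ^ (r + 1) * l ^ r := by
    apply Nat.le_of_mul_le_mul_left _ hl
    calc l * EE (19 * Nat.clog 2 k) l (r + 1)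
        ≤ (57 * k ^ 2 * Nat.clog 2 k * l) ^ (r + 1) := h2
      _ = l * ((57 * k ^ 2 * Nat.clog 2 k) ^ (r + 1) * l ^ r) := by
        rw [mul_pow]
        ring
  have hpos : 0 < 57 * k ^ 2 * Nat.clog 2 k := by positivity
  rw [Nat.add_sub_cancel]
  calc (4 * (r + 1) + 1) * EE (19 * Nat.clog 2 k) l (r + 1)
      ≤ (4 * (r + 1) + 1) * ((57 * k ^ 2 * Nat.clog 2 k) ^ (r + 1) * l ^ r) :=
        Nat.mul_le_mul_left _ h3
    _ ≤ (4 * k - 3) * ((57 * k ^ 2 * Nat.clog 2 k) ^ (k - 1) * l ^ r) := by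
        apply Nat.mul_le_mul (by omega)
        apply Nat.mul_le_mul_right
        exact Nat.pow_le_pow_right hpos (by omega)
    _ = CC k * l ^ r := by rw [CC]; ring

theorem CC_large {k : ℕ} (hk : 3 ≤ k) : 4716 ≤ CC k := by
  have hc : 1 ≤ Nat.clog 2 k := Nat.clog_pos (by norm_num) (by omega)
  have h1 : 9 ≤ k ^ 2 := by nlinarith
  have h2 : 513 ≤ 57 * k ^ 2 * Nat.clog 2 k := by
    calc 513 = 57 * 9 * 1 := by norm_num
      _ ≤ 57 * k ^ 2 * Nat.clog 2 k := Nat.mul_le_mul (Nat.mul_le_mul_left _ h1) hc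
  have h3 : 513 ^ 2 ≤ (57 * k ^ 2 * Nat.clog 2 k) ^ (k - 1) := by
    calc 513 ^ 2 ≤ (57 * k ^ 2 * Nat.clog 2 k) ^ 2 := Nat.pow_le_pow_left h2 2
      _ ≤ (57 * k ^ 2 * Nat.clog 2 k) ^ (k - 1) :=
        Nat.pow_le_pow_right (by omega) (by omega)
  rw [CC]
  calc 4716 ≤ 1 * 513 ^ 2 := by norm_num
    _ ≤ (4 * k - 3) * (57 * k ^ 2 * Nat.clog 2 k) ^ (k - 1) :=
      Nat.mul_le_mul (by omega) h3

open Classical in
theorem sharp2_aux [Fintype V] (hirr : ∀ u, ¬ adj u u) (hasym : ∀ u v, adj u v → ¬ adj v u)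
    (hT : ∀ u v, u ≠ v → (adj u v ∨ adj v u)) {l k : ℕ} (hk : 3 ≤ k) (hl : CC k ≤ l) :
    ∀ r, r + 3 ≤ k → ∀ S : Finset V, NoMono adj c S l → (¬ ∃ p, RP adj c S (r + 3) p) →
      S.card ≤ l ^ (r + 2) + 2 * r * CC k * l ^ r := by
  have hl4 : 4716 ≤ l := (CC_large hk).trans hl
  have hl0 : 0 < l := by omega
  intro r
  induction r with
  | zero =>
    intro _ S hmono hno
    have := k3_subset hirr hasym hT hl4 S hmono hno
    simpa [pow_two] using this
  | succ r ih =>
    intro hrk S hmono hno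
    by_contra hcon
    push Not at hcon
    have hm : r + 1 + 3 = (r + 3) + 1 := by ring
    rw [hm] at hno
    set Z := S.filter (fun v => ¬ ∃ M, Robust adj c S (r + 3) v M) with hZ
    set Q := S.filter (fun v => ∃ M, Robust adj c S (r + 3) v M) with hQ
    have hSc : S.card = Q.card + Z.card := by
      rw [hZ, hQ]
      exact (Finset.card_filter_add_card_filter_not _).symm
    have hZc : Z.card ≤ CC k * l ^ (r + 2) :=
      (robust_count hirr hT hl0 (by omega) (r + 3) (by omega) S hmono hno).trans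
        (CC_bound (by omega) hl0 (by omega) (by omega))
    have hSbig : l ^ (r + 3) < S.card := by
      have h1 : r + 1 + 2 = r + 3 := by ring
      rw [h1] at hcon
      omega
    have hQne : Q.Nonempty := by
      rw [Finset.nonempty_iff_ne_empty]
      intro hemp
      rw [hemp, Finset.card_empty] at hSc
      have h1 : CC k * l ^ (r + 2) ≤ l * l ^ (r + 2) := Nat.mul_le_mul_right _ hl
      have h2 : l * l ^ (r + 2) = l ^ (r + 3) := by rw [← pow_succ']
      omega
    obtain ⟨a0, ha0⟩ := hQne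
    obtain ⟨ha0S, M, hM⟩ := Finset.mem_filter.mp ha0
    have hall2 : ∀ b ∈ Q, Robust adj c S (r + 3) b M := by
      intro b hb
      obtain ⟨hbS, M', hM'⟩ := Finset.mem_filter.mp hb
      by_cases hne : b = a0
      · rw [hne]; exact hM
      · have : M' = M := by
          rcases hT b a0 hne with h1 | h1
          · exact (robust_pair (by omega) hno hbS ha0S hne h1 hM' hM).1
          · exact ((robust_pair (by omega) hno ha0S hbS (Ne.symm hne) h1 hM hM').1).symm
        rw [← this]
        exact hM'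
    have hMcard : M.card = r + 3 := hM.1
    obtain ⟨γ, hγ⟩ : M.Nonempty := by
      rw [← Finset.card_pos]
      omega
    have hQS : Q ⊆ S := Finset.filter_subset _ _
    have harc : ∀ v ∈ S, ∀ q ∈ Q, v ≠ q → (adj v q → c v q ∈ M) ∧ (adj q v → c q v ∈ M) :=
      fun v hv q hq hne => robust_arc (by omega) hno hv hne (hall2 q hq)
    -- vertices missing γ
    let N := S.filter (fun v => ¬ Inc adj c S γ v)
    let X := S.filter (fun v => ∃ w ∈ S, adj v w ∧ c v w ∉ M)
    have hex : ∀ u ∈ S, ∀ v ∈ S, adj u v → c u v ∉ M → adj u a0 ∧ adj a0 v := by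
      intro u hu v hv huv hc
      have h1 : u ≠ a0 := by
        rintro rfl
        exact hc ((harc v hv u ha0 (by rintro rfl; exact hirr _ huv)).2 huv)
      have h2 : v ≠ a0 := by
        rintro rfl
        exact hc ((harc u hu v ha0 h1).1 huv)
      have h3 : u ≠ v := by
        rintro rfl
        exact hirr _ huv
      exact exotic hT (by omega) hno hu hv h1 h2 h3 huv hM hc
    have hNQ : ∀ a ∈ N, ∀ q ∈ Q, a ≠ q := by
      intro a ha q hq
      rintro rfl
      -- a robust vertex is incident with γ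
      obtain ⟨_, ⟨t, ht⟩⟩ := (hall2 a hq).2 ∅ (by simp) (by simp) {γ} (by simpa using hγ)
      have hlen := ht.length (by simp)
      obtain ⟨y, rfl⟩ : ∃ y, t = [y] := by
        simp only [List.length_cons, Finset.card_singleton] at hlen
        exact List.length_eq_one_iff.mp (by omega)
      have hcol : c a y = γ := by
        have := ht.2.2.2.2
        simp only [cols_cons_cons, cols_single, List.toFinset_cons, List.toFinset_nil,
          insert_empty_eq, Finset.singleton_inj] at this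
        exact this
      have hvy : adj a y := by
        have := ht.2.1
        rw [List.isChain_cons_cons] at this
        exact this.1
      have hyS : y ∈ S := by
        have := ht.2.2.1 y (by simp)
        simpa using this
      exact (Finset.mem_filter.mp ha).2 ⟨y, hyS, Or.inl ⟨hvy, hcol⟩⟩
    have hline : ∀ N' ⊆ N, (∀ a ∈ N', ∀ b ∈ N', adj a b → c a b ∈ M) →
        N'.card ≤ CC k * l ^ (r + 1) := by
      intro N' hN' hNN
      have h1 := line_bound hirr hT hmono hQS (hN'.trans (Finset.filter_subset _ _)) hγ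
        (fun a ha b hb hab => by
          have hne : a ≠ b := by
            rintro rfl
            exact hirr _ hab
          exact (harc a (hQS ha) b hb hne).1 hab) hNN
        (fun a ha q hq => ⟨hNQ a (hN' ha) q hq,
          harc a (Finset.mem_filter.mp (hN' ha)).1 q hq (hNQ a (hN' ha) q hq)⟩)
        (fun a ha => (Finset.mem_filter.mp (hN' ha)).2)
      rw [hMcard] at h1
      have h2 : N'.card * l ≤ (CC k * l ^ (r + 1)) * l := by
        have h3 : (CC k * l ^ (r + 1)) * l = CC k * l ^ (r + 2) := by ring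
        rw [h3]
        omega
      exact Nat.le_of_mul_le_mul_right h2 hl0
    have hNcard : N.card ≤ 2 * (CC k * l ^ (r + 1)) := by
      have h1 : (N.filter (fun v => v ∈ X)).card ≤ CC k * l ^ (r + 1) := by
        apply hline _ (Finset.filter_subset _ _)
        intro a ha b hb hab
        by_contra hc
        have haS := (Finset.mem_filter.mp (Finset.mem_filter.mp ha).1).1
        have hbS := (Finset.mem_filter.mp (Finset.mem_filter.mp hb).1).1
        have h2 := (hex a haS b hbS hab hc).2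
        obtain ⟨_, w, hw, hbw, hcw⟩ := Finset.mem_filter.mp (Finset.mem_filter.mp hb).2
        exact hasym _ _ h2 (hex b hbS w hw hbw hcw).1
      have h2 : (N.filter (fun v => ¬ v ∈ X)).card ≤ CC k * l ^ (r + 1) := by
        apply hline _ (Finset.filter_subset _ _)
        intro a ha b hb hab
        by_contra hc
        have haS := (Finset.mem_filter.mp (Finset.mem_filter.mp ha).1).1
        have hbS := (Finset.mem_filter.mp (Finset.mem_filter.mp hb).1).1
        exact (Finset.mem_filter.mp ha).2 (Finset.mem_filter.mpr ⟨haS, b, hbS, hab, hc⟩)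
      have h3 : N.card = (N.filter (fun v => v ∈ X)).card + (N.filter (fun v => ¬ v ∈ X)).card :=
        (Finset.card_filter_add_card_filter_not _).symm
      omega
    -- classes of γ
    obtain ⟨lam, hlam1, hlam2, hlam3, hlam4⟩ := gallai_roy
      (fun x y => x ∈ S ∧ y ∈ S ∧ adj x y ∧ c x y = γ)
      (fun x hx => hirr x hx.2.2.1) l (hmono γ)
    let U : ℕ → Finset V := fun j => S.filter (fun v => Inc adj c S γ v ∧ lam v = j)
    have hU : ∀ j, (U j).card ≤ l ^ (r + 2) + 2 * r * CC k * l ^ r := by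
      intro j
      have hUS : U j ⊆ S := Finset.filter_subset _ _
      apply ih (by omega) (U j) (hmono.mono hUS)
      intro hexp
      have h0 : ∀ u ∈ U j, ∀ v ∈ U j, adj u v → c u v ∉ ({γ} : Set ℕ) := by
        intro u hu v hv huv hc
        exact hlam2 u v ⟨hUS hu, hUS hv, huv, hc⟩
          ((Finset.mem_filter.mp hu).2.2.trans (Finset.mem_filter.mp hv).2.2.symm)
      rcases Nat.eq_zero_or_pos j with rfl | hj
      · refine hno (step_out hUS h0 ?_ hexp)
        intro v hv
        obtain ⟨w, hw, hw'⟩ := (Finset.mem_filter.mp hv).2.1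
        obtain ⟨w', h1, h2, h3, h4⟩ := hlam4 v (Finset.mem_filter.mp hv).2.2 ⟨w, by
          rcases hw' with hw' | hw'
          · exact Or.inl ⟨hUS hv, hw, hw'⟩
          · exact Or.inr ⟨hw, hUS hv, hw'⟩⟩
        exact ⟨w', h2, h3, h4⟩
      · refine hno (step_in hUS h0 ?_ hexp)
        intro v hv
        obtain ⟨w', h1, h2, h3, h4⟩ := hlam3 v (by
          rw [(Finset.mem_filter.mp hv).2.2]; exact hj)
        exact ⟨w', h1, h3, h4⟩
    have hcov : S ⊆ (Finset.range l).biUnion U ∪ N := by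
      intro v hv
      by_cases hinc : Inc adj c S γ v
      · exact Finset.mem_union_left _ (Finset.mem_biUnion.mpr ⟨lam v,
          Finset.mem_range.mpr (hlam1 v), Finset.mem_filter.mpr ⟨hv, hinc, rfl⟩⟩)
      · exact Finset.mem_union_right _ (Finset.mem_filter.mpr ⟨hv, hinc⟩)
    have htot : S.card ≤ l * (l ^ (r + 2) + 2 * r * CC k * l ^ r) + 2 * (CC k * l ^ (r + 1)) := by
      calc S.card ≤ ((Finset.range l).biUnion U ∪ N).card := Finset.card_le_card hcov
        _ ≤ ((Finset.range l).biUnion U).card + N.card := Finset.card_union_le _ _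
        _ ≤ ∑ j ∈ Finset.range l, (U j).card + 2 * (CC k * l ^ (r + 1)) :=
            Nat.add_le_add Finset.card_biUnion_le hNcard
        _ ≤ ∑ _j ∈ Finset.range l, (l ^ (r + 2) + 2 * r * CC k * l ^ r) +
              2 * (CC k * l ^ (r + 1)) :=
            Nat.add_le_add_right (Finset.sum_le_sum (fun j _ => hU j)) _
        _ = _ := by simp
    have heq : l * (l ^ (r + 2) + 2 * r * CC k * l ^ r) + 2 * (CC k * l ^ (r + 1)) =
        l ^ (r + 1 + 2) + 2 * (r + 1) * CC k * l ^ (r + 1) := by ring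
    omega

theorem sharp2_core {l k n : ℕ} (hk : 3 ≤ k) (hl : CC k ≤ l)
    (hn : l ^ (k - 1) + 2 * (k - 3) * CC k * l ^ (k - 3) < n)
    (adj : Fin n → Fin n → Prop) (hirr : ∀ u, ¬ adj u u)
    (hT : ∀ u v, u ≠ v → (adj u v ↔ ¬ adj v u)) (c : Fin n → Fin n → ℕ) :
    (∃ p : Fin (l + 1) → Fin n,
        Function.Injective p ∧
        (∀ i : Fin l, adj (p i.castSucc) (p i.succ)) ∧
        (∀ i j : Fin l, c (p i.castSucc) (p i.succ) = c (p j.castSucc) (p j.succ))) ∨
    (∃ p : Fin (k + 1) → Fin n,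
        Function.Injective p ∧
        (∀ i : Fin k, adj (p i.castSucc) (p i.succ)) ∧
        Function.Injective (fun i : Fin k => c (p i.castSucc) (p i.succ))) := by
  classical
  by_contra hcon
  push Not at hcon
  obtain ⟨hm, hr⟩ := hcon
  have hT' : ∀ u v, u ≠ v → (adj u v ∨ adj v u) := by
    intro u v huv
    by_cases h : adj v u
    · exact Or.inr h
    · exact Or.inl ((hT u v huv).mpr h)
  have hasym : ∀ u v, adj u v → ¬ adj v u := by
    intro u v huv
    have hne : u ≠ v := by
      rintro rfl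
      exact hirr _ huv
    exact (hT u v hne).mp huv
  have hmono : NoMono adj c Finset.univ l := by
    intro γ hex
    obtain ⟨p, h1, h2, h3⟩ := hex
    have h4 := List.isChain_iff_getElem.mp h3
    obtain ⟨i, j, hij⟩ := hm (fun i => p[i.1]'(by rw [h1]; exact i.2)) (by
      intro i j hij
      exact Fin.ext ((List.Nodup.getElem_inj_iff h2).mp hij)) (by
      intro i
      exact (h4 i.1 (by rw [h1]; have := i.2; omega)).2.2.1)
    apply hij
    have hi := (h4 i.1 (by rw [h1]; have := i.2; omega)).2.2.2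
    have hj := (h4 j.1 (by rw [h1]; have := j.2; omega)).2.2.2
    exact hi.trans hj.symm
  have hno : ¬ ∃ p, RP adj c Finset.univ k p := by
    intro hex
    obtain ⟨p, h1, h2, h3⟩ := to_fin hex
    exact hr p h1 h2 h3
  obtain ⟨r, rfl⟩ : ∃ r, k = r + 3 := ⟨k - 3, by omega⟩
  have h1 := sharp2_aux (c := c) hirr hasym hT' hk hl r le_rfl Finset.univ hmono hno
  rw [Finset.card_univ, Fintype.card_fin] at h1
  have e1 : r + 3 - 1 = r + 2 := by omega
  have e2 : r + 3 - 3 = r := by omega
  rw [e1, e2] at hn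
  omega

end Pool.Agent.Y389.RT
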